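import Mathlib
set_option autoImplicit false

/-! Oscillatory integrals over unions of intervals. -/

namespace Pool.Agent.Helper134_FE

open MeasureTheory Set Filter Topology
open scoped ENNReal

/-- unions of at most `N` intervals -/
def NInt (N : ℕ) (S : Set ℝ) : Prop :=
  ∃ J : Fin N → Set ℝ, (∀ i, (J i).OrdConnected) ∧ S = ⋃ i, J i

theorem ordConnected_union {A B : Set ℝ} (hA : A.OrdConnected) (hB : B.OrdConnected)
    (h : (A ∩ B).Nonempty) : (A ∪ B).OrdConnected := by
  rw [← isPreconnected_iff_ordConnected] at *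
  obtain ⟨x, hx⟩ := h
  exact IsPreconnected.union x hx.1 hx.2 hA hB

theorem NInt.merge {N : ℕ} (J : Fin (N + 1) → Set ℝ) (hJ : ∀ i, (J i).OrdConnected)
    {i j : Fin (N + 1)} (hij : i ≠ j) (h : (J i ∩ J j).Nonempty) : NInt N (⋃ i, J i) := by
  classical
  refine ⟨fun k => if j.succAbove k = i then J i ∪ J j else J (j.succAbove k), fun k => ?_, ?_⟩
  · simp only
    split_ifs with hk
    · exact ordConnected_union (hJ i) (hJ j) h
    · exact hJ _
  · obtain ⟨k0, hk0⟩ := Fin.exists_succAbove_eq hij
    ext x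
    simp only [mem_iUnion]
    constructor
    · rintro ⟨l, hl⟩
      by_cases hlj : l = j
      · refine ⟨k0, ?_⟩
        rw [if_pos hk0]
        right
        rwa [← hlj]
      · obtain ⟨k, hk⟩ := Fin.exists_succAbove_eq hlj
        refine ⟨k, ?_⟩
        split_ifs with hki
        · left
          rw [← hki, hk]
          exact hl
        · rw [hk]
          exact hl
    · rintro ⟨k, hk⟩
      split_ifs at hk with hki
      · rcases hk with hk | hk
        · exact ⟨i, hk⟩
        · exact ⟨j, hk⟩
      · exact ⟨_, hk⟩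

/-- reduction of integrals over unions of intervals to intervals -/
theorem union_bound (φ : ℝ → ℂ) (K : ℝ) (hK : 0 ≤ K) (X : Set ℝ)
    (h1 : ∀ J : Set ℝ, J.OrdConnected → J ⊆ X → IntegrableOn φ J → ‖∫ r in J, φ r‖ ≤ K) :
    ∀ (N : ℕ) (S : Set ℝ), NInt N S → S ⊆ X → IntegrableOn φ S → ‖∫ r in S, φ r‖ ≤ N * K := by
  intro N
  induction N with
  | zero =>
    rintro S ⟨J, hJ, rfl⟩ - -
    simp
  | succ N ih =>
    rintro S ⟨J, hJ, rfl⟩ hS hI
    by_cases hd : ∃ i j, i ≠ j ∧ (J i ∩ J j).Nonempty
    · obtain ⟨i, j, hij, h⟩ := hd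
      refine (ih _ (NInt.merge J hJ hij h) hS hI).trans ?_
      push_cast
      nlinarith
    · push Not at hd
      have hm : ∀ i, MeasurableSet (J i) := fun i => (hJ i).measurableSet
      have hpd : Pairwise (Function.onFun Disjoint J) := by
        intro i j hij
        exact disjoint_iff_inter_eq_empty.2 (hd i j hij)
      rw [integral_iUnion_fintype hm hpd (fun i => hI.mono_set (subset_iUnion J i))]
      refine (norm_sum_le _ _).trans ?_
      have : ∀ i ∈ (Finset.univ : Finset (Fin (N + 1))), ‖∫ r in J i, φ r‖ ≤ K := fun i _ =>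
        h1 (J i) (hJ i) ((subset_iUnion J i).trans hS) (hI.mono_set (subset_iUnion J i))
      refine (Finset.sum_le_sum this).trans (le_of_eq ?_)
      simp

end Pool.Agent.Helper134_FE
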