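import Mathlib
import Pool.Agent.Helper134_FE.Osc
set_option autoImplicit false

/-! Radial integrals. -/

namespace Pool.Agent.Helper134_FE

open MeasureTheory Set Filter Topology Complex
open scoped ENNReal

/-- the radial integrand -/
noncomputable def rad (τ r : ℝ) : ℂ := r * cexp (-((τ * r ^ 2 : ℝ) : ℂ) * I)

theorem norm_ph (s : ℝ) : ‖cexp (-((s : ℝ) : ℂ) * I)‖ = 1 := by
  have : -((s : ℝ) : ℂ) * I = ((-s : ℝ) : ℂ) * I := by push_cast; ring
  rw [this]
  exact Complex.norm_exp_ofReal_mul_I _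

theorem rad_norm (τ r : ℝ) : ‖rad τ r‖ = |r| := by
  unfold rad
  rw [norm_mul, norm_ph, mul_one, Complex.norm_real, Real.norm_eq_abs]

theorem rad_cont (τ : ℝ) : Continuous (rad τ) := by
  unfold rad
  fun_prop

theorem rad_int (τ : ℝ) (hτ : τ ≠ 0) (a b : ℝ) : ‖∫ r in a..b, rad τ r‖ ≤ 1 / |τ| := by
  have hd : ∀ r : ℝ, HasDerivAt (fun r : ℝ => (I / (2 * τ)) * cexp (-((τ * r ^ 2 : ℝ) : ℂ) * I))
      (rad τ r) r := by
    intro r
    have h1 : HasDerivAt (fun r : ℝ => ((τ * r ^ 2 : ℝ) : ℂ)) ((τ * (2 * r) : ℝ) : ℂ) r := by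
      have : HasDerivAt (fun r : ℝ => τ * r ^ 2) (τ * (2 * r)) r := by
        have := (hasDerivAt_pow 2 r).const_mul τ
        simpa using this
      exact this.ofReal_comp
    have h2 := ((h1.neg.mul_const I).cexp).const_mul (I / (2 * (τ : ℂ)))
    refine h2.congr_deriv ?_
    unfold rad
    have hτ' : (τ : ℂ) ≠ 0 := by exact_mod_cast hτ
    have h3 : ((-fun r : ℝ => ((τ * r ^ 2 : ℝ) : ℂ)) r) = -((τ * r ^ 2 : ℝ) : ℂ) := rfl
    rw [h3]
    set X := cexp (-((τ * r ^ 2 : ℝ) : ℂ) * I)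
    push_cast
    field_simp
    rw [I_sq]
    ring
  rw [intervalIntegral.integral_eq_sub_of_hasDerivAt (fun r _ => hd r)
    ((rad_cont τ).intervalIntegrable a b)]
  refine (norm_sub_le _ _).trans ?_
  rw [norm_mul, norm_mul, norm_ph, norm_ph, norm_div, norm_I, norm_mul, Complex.norm_real,
    Real.norm_eq_abs]
  have : ‖(2:ℂ)‖ = 2 := by simp
  rw [this]
  have h0 : 0 < |τ| := abs_pos.2 hτ
  apply le_of_eq
  field_simp
  norm_num

theorem not_int_Ioi (τ a : ℝ) : ¬ IntegrableOn (rad τ) (Ioi a) := by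
  intro h
  have h1 : IntegrableOn (fun _ : ℝ => (1:ℝ)) (Ioi (max a 1)) := by
    refine ((h.mono_set (Ioi_subset_Ioi (le_max_left a 1))).norm).mono'
      aestronglyMeasurable_const ?_
    refine (ae_restrict_mem measurableSet_Ioi).mono fun r hr => ?_
    rw [rad_norm, norm_one]
    have : 1 < r := lt_of_le_of_lt (le_max_right a 1) hr
    rw [abs_of_pos (by linarith)]
    linarith
  rw [integrableOn_const_iff] at h1
  simp at h1

theorem rad_J (τ : ℝ) (hτ : τ ≠ 0) (J : Set ℝ) (hJ : J.OrdConnected) (hJ0 : J ⊆ Ioi 0)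
    (hI : IntegrableOn (rad τ) J) : ‖∫ r in J, rad τ r‖ ≤ 1 / |τ| := by
  have h0 : 0 ≤ 1 / |τ| := by positivity
  have key : ∀ a b : ℝ, ‖∫ r in Ioc a b, rad τ r‖ ≤ 1 / |τ| := by
    intro a b
    rcases le_or_gt a b with h | h
    · rw [← intervalIntegral.integral_of_le h]
      exact rad_int τ hτ a b
    · rw [Ioc_eq_empty (not_lt.2 h.le)]
      simp
  have hp : IsPreconnected J := isPreconnected_iff_ordConnected.2 hJ
  rcases hp.mem_intervals with h | h | h | h | h | h | h | h | h | h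
  · rw [h, integral_Icc_eq_integral_Ioc]; exact key _ _
  · rw [h, integral_Ico_eq_integral_Ioo, ← integral_Ioc_eq_integral_Ioo]; exact key _ _
  · rw [h]; exact key _ _
  · rw [h, ← integral_Ioc_eq_integral_Ioo]; exact key _ _
  · exfalso
    rw [h] at hI
    exact not_int_Ioi τ _ (hI.mono_set Ioi_subset_Ici_self)
  · exfalso
    rw [h] at hI
    exact not_int_Ioi τ _ hI
  · exfalso
    rw [h] at hJ0
    have h1 : min (sSup J) 0 ∈ Ioi (0:ℝ) := hJ0 (mem_Iic.2 (min_le_left _ _))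
    exact absurd (min_le_right (sSup J) 0) (not_le.2 h1)
  · exfalso
    rw [h] at hJ0
    have h1 : min (sSup J - 1) 0 ∈ Ioi (0:ℝ) :=
      hJ0 (mem_Iio.2 (lt_of_le_of_lt (min_le_left (sSup J - 1) 0) (by linarith)))
    exact absurd (min_le_right (sSup J - 1) 0) (not_le.2 h1)
  · exfalso
    rw [h] at hJ0
    exact absurd (mem_Ioi.1 (hJ0 (mem_univ (0:ℝ)))) (lt_irrefl _)
  · rw [h]
    simp

theorem rad_union (τ : ℝ) (hτ : τ ≠ 0) (N : ℕ) (S : Set ℝ) (hS : NInt N S) (h0 : S ⊆ Ioi 0)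
    (hI : IntegrableOn (rad τ) S) : ‖∫ r in S, rad τ r‖ ≤ N * (1 / |τ|) :=
  union_bound (rad τ) (1 / |τ|) (by positivity) (Ioi 0)
    (fun J hJ hJ0 hI => rad_J τ hτ J hJ hJ0 hI) N S hS h0 hI

theorem NInt.inter {N : ℕ} {S X : Set ℝ} (h : NInt N S) (hX : X.OrdConnected) :
    NInt N (S ∩ X) := by
  obtain ⟨J, hJ, rfl⟩ := h
  exact ⟨fun i => J i ∩ X, fun i => (hJ i).inter hX, by rw [iUnion_inter]⟩

end Pool.Agent.Helper134_FE
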