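import Mathlib
import Pool.Agent.Helper134_FE.Rad
set_option autoImplicit false

/-! The dispersive estimate in polar coordinates. -/

namespace Pool.Agent.Helper134_FE

open MeasureTheory Set Filter Topology Complex
open scoped ENNReal

theorem disp0 (τ : ℝ) (hτ : τ ≠ 0) (N : ℕ) (B : Set (ℝ × ℝ)) (hB : MeasurableSet B)
    (hT : ∀ θ : ℝ, NInt N {r : ℝ | (r * Real.cos θ, r * Real.sin θ) ∈ B}) :
    ‖∫ p in B, cexp (-((τ * (p.1 ^ 2 + p.2 ^ 2) : ℝ) : ℂ) * I)‖ ≤ 2 * Real.pi * N / |τ| := by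
  have hpos : 0 ≤ 2 * Real.pi * N / |τ| := by positivity
  rw [← integral_indicator hB, ← integral_comp_polarCoord_symm]
  set F : ℝ × ℝ → ℂ := fun p => p.1 • B.indicator
    (fun p : ℝ × ℝ => cexp (-((τ * (p.1 ^ 2 + p.2 ^ 2) : ℝ) : ℂ) * I)) (polarCoord.symm p) with hF
  have htar : polarCoord.target = Ioi (0:ℝ) ×ˢ Ioo (-Real.pi) Real.pi := rfl
  rw [htar]
  by_cases hI : IntegrableOn F (Ioi (0:ℝ) ×ˢ Ioo (-Real.pi) Real.pi) (volume.prod volume)
  swap
  · have : ∫ p in Ioi (0:ℝ) ×ˢ Ioo (-Real.pi) Real.pi, F p = 0 := integral_undef hI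
    rw [this]
    simpa using hpos
  have hsec : ∀ θ r : ℝ, F (r, θ) =
      {r : ℝ | (r * Real.cos θ, r * Real.sin θ) ∈ B}.indicator (rad τ) r := by
    intro θ r
    have h1 : polarCoord.symm (r, θ) = (r * Real.cos θ, r * Real.sin θ) := rfl
    simp only [hF, h1]
    by_cases hr : (r * Real.cos θ, r * Real.sin θ) ∈ B
    · rw [indicator_of_mem hr, indicator_of_mem (by exact hr)]
      unfold rad
      have h2 : (r * Real.cos θ) ^ 2 + (r * Real.sin θ) ^ 2 = r ^ 2 := by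
        have := Real.sin_sq_add_cos_sq θ
        nlinarith
      simp only [h2]
      rfl
    · rw [indicator_of_notMem hr, indicator_of_notMem (by exact hr), smul_zero]
  have hsm : ∀ θ : ℝ, MeasurableSet {r : ℝ | (r * Real.cos θ, r * Real.sin θ) ∈ B} := by
    intro θ
    have : Measurable fun r : ℝ => (r * Real.cos θ, r * Real.sin θ) := by fun_prop
    exact this hB
  rw [IntegrableOn, ← Measure.prod_restrict] at hI
  have e1 : ∫ p in Ioi (0:ℝ) ×ˢ Ioo (-Real.pi) Real.pi, F p =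
      ∫ θ in Ioo (-Real.pi) Real.pi, ∫ r in Ioi (0:ℝ), F (r, θ) := by
    show ∫ p, F p ∂((volume.prod volume).restrict _) = _
    rw [← Measure.prod_restrict, integral_prod_symm F hI]
  rw [e1]
  have hae : ∀ᵐ θ ∂(volume.restrict (Ioo (-Real.pi) Real.pi)),
      ‖∫ r in Ioi (0:ℝ), F (r, θ)‖ ≤ N * (1 / |τ|) := by
    filter_upwards [hI.prod_left_ae] with θ hθ
    simp_rw [hsec θ] at hθ ⊢
    set S := {r : ℝ | (r * Real.cos θ, r * Real.sin θ) ∈ B} with hS
    have hθ' : IntegrableOn (S.indicator (rad τ)) (Ioi 0) := hθ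
    rw [IntegrableOn, integrable_indicator_iff (hsm θ), IntegrableOn,
      Measure.restrict_restrict (hsm θ)] at hθ'
    rw [setIntegral_indicator (hsm θ), inter_comm]
    exact rad_union τ hτ N (S ∩ Ioi 0) ((hT θ).inter ordConnected_Ioi) inter_subset_right hθ'
  refine (norm_integral_le_of_norm_le_const hae).trans (le_of_eq ?_)
  have hp := Real.pi_pos
  rw [measureReal_restrict_apply_univ, Real.volume_real_Ioo_of_le (by linarith)]
  ring

abbrev E (n : ℕ) := EuclideanSpace ℝ (Fin n)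

/-- coordinates in the plane -/
noncomputable def T2 : E 2 ≃ᵐ ℝ × ℝ :=
  (MeasurableEquiv.toLp 2 (Fin 2 → ℝ)).symm.trans MeasurableEquiv.finTwoArrow

theorem T2_mp : MeasurePreserving T2 volume volume :=
  (volume_preserving_finTwoArrow ℝ).comp (PiLp.volume_preserving_ofLp (Fin 2))

theorem T2_apply (x : E 2) : T2 x = (x 0, x 1) := rfl

/-- every line meets `A` in at most `N` intervals -/
def Tame (N : ℕ) (A : Set (E 2)) : Prop :=
  ∀ y ω : E 2, ∃ J : Fin N → Set ℝ, (∀ i, (J i).OrdConnected) ∧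
    {t : ℝ | y + t • ω ∈ A} = ⋃ i, J i

theorem norm_sq2 (x : E 2) : ‖x‖ ^ 2 = x 0 ^ 2 + x 1 ^ 2 := by
  rw [EuclideanSpace.norm_sq_eq, Fin.sum_univ_two]
  simp

/-- **the dispersive estimate** -/
theorem disp1 (τ : ℝ) (hτ : τ ≠ 0) (N : ℕ) (A : Set (E 2)) (hA : MeasurableSet A)
    (hT : Tame N A) (y : E 2) :
    ‖∫ x in A, cexp (-((τ * ‖x - y‖ ^ 2 : ℝ) : ℂ) * I)‖ ≤ 2 * Real.pi * N / |τ| := by
  set B : Set (ℝ × ℝ) := T2.symm ⁻¹' ((fun v => v + y) ⁻¹' A) with hB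
  have hBm : MeasurableSet B := T2.symm.measurable ((measurable_add_const y) hA)
  have h1 : ∫ x in A, cexp (-((τ * ‖x - y‖ ^ 2 : ℝ) : ℂ) * I) =
      ∫ v in (fun v => v + y) ⁻¹' A, cexp (-((τ * ‖v‖ ^ 2 : ℝ) : ℂ) * I) := by
    rw [← (measurePreserving_add_right volume y).setIntegral_preimage_emb
      (measurableEmbedding_addRight y)]
    simp only [add_sub_cancel_right]
  have h2 : ∫ v in (fun v => v + y) ⁻¹' A, cexp (-((τ * ‖v‖ ^ 2 : ℝ) : ℂ) * I) =
      ∫ p in B, cexp (-((τ * (p.1 ^ 2 + p.2 ^ 2) : ℝ) : ℂ) * I) := by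
    have h3 : (fun v => v + y) ⁻¹' A = T2 ⁻¹' B := by
      ext v
      simp [hB]
    rw [h3, ← T2_mp.setIntegral_preimage_emb T2.measurableEmbedding]
    refine setIntegral_congr_fun (T2.measurable hBm) fun v _ => ?_
    simp only [T2_apply, norm_sq2]
  rw [h1, h2]
  refine disp0 τ hτ N B hBm fun θ => ?_
  obtain ⟨J, hJ, hJe⟩ := hT y (T2.symm (Real.cos θ, Real.sin θ))
  refine ⟨J, hJ, ?_⟩
  rw [← hJe]
  ext r
  have h4 : T2.symm (r * Real.cos θ, r * Real.sin θ) =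
      r • T2.symm (Real.cos θ, Real.sin θ) := by
    rw [MeasurableEquiv.symm_apply_eq, T2_apply]
    have h5 : T2 (T2.symm (Real.cos θ, Real.sin θ)) = (Real.cos θ, Real.sin θ) :=
      T2.apply_symm_apply _
    rw [T2_apply, Prod.mk.injEq] at h5
    simp [h5.1, h5.2]
  simp only [hB, mem_ofPred_eq, mem_preimage, h4, add_comm]

end Pool.Agent.Helper134_FE
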