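import Mathlib
import Pool.Agent.Helper134_FE.Polar
import Pool.Agent.R412.RT.A2
set_option autoImplicit false

/-! Extension of indicator functions of tame sets: pointwise and `L^2` bounds. -/

namespace Pool.Agent.Helper134_FE

open MeasureTheory Set Filter Topology Complex
open scoped ENNReal RealInnerProductSpace

/-- the phase factor -/
noncomputable def ph (x : E 2) (z : E 2 × ℝ) : ℂ :=
  cexp (-((⟪x, z.1⟫ + z.2 * ‖x‖ ^ 2 : ℝ) : ℂ) * I)

theorem ph_norm (x : E 2) (z : E 2 × ℝ) : ‖ph x z‖ = 1 := norm_ph _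

theorem ph_cont : Continuous fun p : E 2 × (E 2 × ℝ) => ph p.1 p.2 := by
  unfold ph
  fun_prop

/-- the extension operator in coordinates -/
noncomputable def X (g : E 2 → ℂ) (z : E 2 × ℝ) : ℂ := ∫ x, ph x z * g x

theorem X_ind_le_vol (A : Set (E 2)) (z : E 2 × ℝ) (hA : MeasurableSet A) :
    ‖X (A.indicator 1) z‖ₑ ≤ volume A := by
  unfold X
  refine (enorm_integral_le_lintegral_enorm _).trans ?_
  rw [← lintegral_indicator_one hA]
  refine lintegral_mono fun x => ?_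
  rw [enorm_mul]
  have : ‖ph x z‖ₑ = 1 := by
    rw [← ofReal_norm, ph_norm, ENNReal.ofReal_one]
  rw [this, one_mul]
  by_cases hx : x ∈ A
  · rw [indicator_of_mem hx, indicator_of_mem hx]
    simp
  · rw [indicator_of_notMem hx, indicator_of_notMem hx]
    simp

theorem X_ind_eq (A : Set (E 2)) (hA : MeasurableSet A) (z : E 2 × ℝ) :
    X (A.indicator 1) z = ∫ x in A, ph x z := by
  unfold X
  rw [← integral_indicator hA]
  congr 1
  ext x
  by_cases hx : x ∈ A
  · rw [indicator_of_mem hx, indicator_of_mem hx]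
    simp
  · rw [indicator_of_notMem hx, indicator_of_notMem hx]
    simp

theorem X_disp (N : ℕ) (A : Set (E 2)) (hA : MeasurableSet A) (hT : Tame N A) (z : E 2 × ℝ)
    (hz : z.2 ≠ 0) : ‖X (A.indicator 1) z‖ ≤ 2 * Real.pi * N / |z.2| := by
  obtain ⟨η, τ⟩ := z
  simp only at hz ⊢
  rw [X_ind_eq A hA]
  have h1 : ∀ x : E 2, ph x (η, τ) = cexp ((‖η‖ ^ 2 / (4 * τ) : ℝ) * I) *
      cexp (-((τ * ‖x - (-(1 / (2 * τ))) • η‖ ^ 2 : ℝ) : ℂ) * I) := by
    intro x
    unfold ph
    rw [← Complex.exp_add]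
    congr 1
    have h2 : τ * ‖x - (-(1 / (2 * τ))) • η‖ ^ 2 = ⟪x, η⟫ + τ * ‖x‖ ^ 2 + ‖η‖ ^ 2 / (4 * τ) := by
      rw [norm_sub_sq_real, inner_smul_right, norm_smul, mul_pow, Real.norm_eq_abs, sq_abs]
      field_simp
      ring
    rw [h2]
    push_cast
    ring
  simp_rw [h1]
  rw [integral_const_mul, norm_mul, Complex.norm_exp_ofReal_mul_I, one_mul]
  exact disp1 τ hz N A hA hT _

theorem plan2 (g : E 2 → ℂ) (hg : Integrable g) :
    ∫⁻ t : E 2, ‖∫ y, Pool.Agent.R412.RT.ee ⟪y, t⟫ * g y‖ₑ ^ 2 ≤ ∫⁻ y, ‖g y‖ₑ ^ 2 := by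
  have hdet : (ContinuousLinearMap.id ℝ (E 2)).det = 1 := by
    unfold ContinuousLinearMap.det
    simp
  have h := Pool.Agent.R412.RT.planch (id : E 2 → E 2) measurable_id
    (fun _ => ContinuousLinearMap.id ℝ (E 2))
    univ MeasurableSet.univ (fun x _ => hasFDerivWithinAt_id x univ) (injOn_id _)
    (fun x _ => by rw [hdet]; exact one_ne_zero) (by simp) g hg
    (fun x hx => absurd (mem_univ x) hx)
  refine h.trans (le_of_eq ?_)
  refine lintegral_congr fun x => ?_
  rw [hdet, abs_one, ENNReal.ofReal_one, div_one]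

/-- Plancherel at fixed height -/
theorem X_planch (g : E 2 → ℂ) (hg : Integrable g) (τ : ℝ) :
    ∫⁻ η : E 2, ‖X g (η, τ)‖ₑ ^ 2 ≤ ENNReal.ofReal ((2 * Real.pi) ^ 2) * ∫⁻ x, ‖g x‖ₑ ^ 2 := by
  set g' : E 2 → ℂ := fun x => cexp (-((τ * ‖x‖ ^ 2 : ℝ) : ℂ) * I) * g x with hg'
  have hn : ∀ x, ‖g' x‖ = ‖g x‖ := by
    intro x
    rw [hg']
    simp only [norm_mul, norm_ph, one_mul]
  have hg'i : Integrable g' := by
    refine hg.norm.mono' ?_ (Eventually.of_forall fun x => (hn x).le)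
    refine AEStronglyMeasurable.mul ?_ hg.aestronglyMeasurable
    exact (by fun_prop : Continuous fun x : E 2 =>
      cexp (-((τ * ‖x‖ ^ 2 : ℝ) : ℂ) * I)).aestronglyMeasurable
  have h := plan2 g' hg'i
  have hne : ∀ x, ‖g' x‖ₑ = ‖g x‖ₑ := by
    intro x
    rw [← ofReal_norm, hn, ofReal_norm]
  simp_rw [hne] at h
  set G : E 2 → ℝ≥0∞ := fun t => ‖∫ y, Pool.Agent.R412.RT.ee ⟪y, t⟫ * g' y‖ₑ ^ 2 with hG
  have hGm : AEMeasurable G := by
    have : AEStronglyMeasurable (fun t : E 2 => ∫ y, Pool.Agent.R412.RT.ee ⟪y, t⟫ * g' y)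
        volume := by
      have : AEStronglyMeasurable (fun p : E 2 × E 2 => Pool.Agent.R412.RT.ee ⟪p.2, p.1⟫ * g' p.2)
          (volume.prod volume) :=
        (Pool.Agent.R412.RT.ee_meas.comp (Measurable.inner measurable_snd
          measurable_fst)).aestronglyMeasurable.mul hg'i.aestronglyMeasurable.comp_snd
      exact this.integral_prod_right'
    exact this.enorm.pow_const 2
  have hXG : ∀ η : E 2, ‖X g (η, τ)‖ₑ ^ 2 = G ((-(1 / (2 * Real.pi))) • η) := by
    intro η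
    rw [hG]
    simp only
    congr 2
    unfold X
    congr 1
    ext x
    rw [hg']
    simp only
    rw [← mul_assoc]
    congr 1
    unfold ph Pool.Agent.R412.RT.ee
    rw [← Complex.exp_add]
    congr 1
    rw [inner_smul_right]
    have hp : (Real.pi : ℂ) ≠ 0 := by exact_mod_cast Real.pi_ne_zero
    push_cast
    field_simp
    ring
  simp_rw [hXG]
  have hc : (-(1 / (2 * Real.pi))) ≠ 0 := by
    have := Real.pi_pos
    apply ne_of_lt
    rw [neg_lt_zero]
    positivity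
  have h5 := Measure.map_addHaar_smul (volume : Measure (E 2)) hc
  have h6 : ∫⁻ η, G ((-(1 / (2 * Real.pi))) • η) =
      ∫⁻ t, G t ∂(Measure.map ((-(1 / (2 * Real.pi))) • ·) (volume : Measure (E 2))) := by
    rw [lintegral_map' _ (measurable_const_smul _).aemeasurable]
    rw [h5]
    exact hGm.smul_measure _
  rw [h6, h5, lintegral_smul_measure, smul_eq_mul]
  have hfr : Module.finrank ℝ (E 2) = 2 := by simp
  have h7 : |((-(1 / (2 * Real.pi))) ^ Module.finrank ℝ (E 2))⁻¹| = (2 * Real.pi) ^ 2 := by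
    rw [hfr, neg_sq, div_pow, one_pow, one_div, inv_inv, abs_of_nonneg (by positivity)]
  rw [h7]
  gcongr

end Pool.Agent.Helper134_FE
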