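import Mathlib
import Pool.Agent.Helper134_FE.Sets
set_option autoImplicit false

/-! `L^q` bounds for indicator functions of tame sets. -/

namespace Pool.Agent.Helper134_FE

open MeasureTheory Set Filter Topology Complex
open scoped ENNReal RealInnerProductSpace

/-- the pointwise bound -/
noncomputable def M (K : ℝ) (a : ℝ≥0∞) (τ : ℝ) : ℝ≥0∞ := min (ENNReal.ofReal (K / |τ|)) a

theorem X_le_M (N : ℕ) (A : Set (E 2)) (hA : MeasurableSet A) (hT : Tame N A) (η : E 2) (τ : ℝ)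
    (hτ : τ ≠ 0) : ‖X (A.indicator 1) (η, τ)‖ₑ ≤ M (2 * Real.pi * N) (volume A) τ := by
  refine le_min ?_ (X_ind_le_vol A _ hA)
  rw [← ofReal_norm]
  exact ENNReal.ofReal_le_ofReal (X_disp N A hA hT (η, τ) hτ)

theorem slice (N : ℕ) (A : Set (E 2)) (hA : MeasurableSet A) (hT : Tame N A)
    (hv : volume A ≠ ∞) (q : ℝ) (hq : 2 ≤ q) (τ : ℝ) (hτ : τ ≠ 0) :
    ∫⁻ η : E 2, ‖X (A.indicator 1) (η, τ)‖ₑ ^ q ≤
      M (2 * Real.pi * N) (volume A) τ ^ (q - 2) *
        (ENNReal.ofReal ((2 * Real.pi) ^ 2) * volume A) := by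
  have hg : Integrable (A.indicator (1 : E 2 → ℂ)) := by
    rw [integrable_indicator_iff hA]
    exact integrableOn_const hv
  have h1 : ∀ η : E 2, ‖X (A.indicator 1) (η, τ)‖ₑ ^ q ≤
      M (2 * Real.pi * N) (volume A) τ ^ (q - 2) * ‖X (A.indicator 1) (η, τ)‖ₑ ^ 2 := by
    intro η
    have h2 : ‖X (A.indicator 1) (η, τ)‖ₑ ^ q = ‖X (A.indicator 1) (η, τ)‖ₑ ^ (q - 2) *
        ‖X (A.indicator 1) (η, τ)‖ₑ ^ (2 : ℝ) := by
      rw [← ENNReal.rpow_add_of_nonneg _ _ (by linarith) (by norm_num)]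
      congr 1
      ring
    rw [h2, ENNReal.rpow_two]
    gcongr
    exact X_le_M N A hA hT η τ hτ
  refine (lintegral_mono h1).trans ?_
  rw [lintegral_const_mul']
  swap
  · refine ENNReal.rpow_ne_top_of_nonneg (by linarith) ?_
    unfold M
    exact ne_top_of_le_ne_top hv (min_le_right _ _)
  gcongr
  refine (X_planch _ hg τ).trans ?_
  gcongr
  rw [← lintegral_indicator_one hA]
  refine lintegral_mono fun x => ?_
  by_cases hx : x ∈ A
  · rw [indicator_of_mem hx, indicator_of_mem hx]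
    simp
  · rw [indicator_of_notMem hx, indicator_of_notMem hx]
    simp

theorem lint_abs (F : ℝ → ℝ≥0∞) (Θ : Set ℝ) (hΘ : MeasurableSet Θ) :
    ∫⁻ τ in {τ : ℝ | |τ| ∈ Θ}, F |τ| ≤ 2 * ∫⁻ τ in Θ ∩ Ioi 0, F τ := by
  have h0 : {τ : ℝ | |τ| ∈ Θ} ⊆ (({0} : Set ℝ) ∪ (Θ ∩ Ioi 0)) ∪ (Neg.neg ⁻¹' (Θ ∩ Ioi 0)) := by
    intro τ hτ
    have hτ' : |τ| ∈ Θ := hτ
    rcases lt_trichotomy τ 0 with h | h | h
    · right
      rw [abs_of_neg h] at hτ'
      exact ⟨hτ', by simpa using h⟩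
    · left; left; exact h
    · left; right
      rw [abs_of_pos h] at hτ'
      exact ⟨hτ', h⟩
  have hm : MeasurableSet (Θ ∩ Ioi (0:ℝ)) := hΘ.inter measurableSet_Ioi
  have hm' : MeasurableSet (Neg.neg ⁻¹' (Θ ∩ Ioi (0:ℝ))) := measurable_neg hm
  refine (lintegral_mono_set h0).trans ?_
  refine (lintegral_union_le _ _ _).trans ?_
  rw [two_mul]
  refine add_le_add ?_ ?_
  · refine (lintegral_union_le _ _ _).trans ?_
    rw [setLIntegral_measure_zero _ _ (by simp), zero_add]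
    refine le_of_eq (setLIntegral_congr_fun hm fun τ hτ => ?_)
    rw [abs_of_pos hτ.2]
  · have h1 := (Measure.measurePreserving_neg (volume : Measure ℝ)).setLIntegral_comp_preimage_emb
      (MeasurableEquiv.neg ℝ).measurableEmbedding (fun τ => F |τ|) (Θ ∩ Ioi 0)
    have h2 : ∫⁻ τ in Neg.neg ⁻¹' (Θ ∩ Ioi 0), F |τ| =
        ∫⁻ τ in Neg.neg ⁻¹' (Θ ∩ Ioi 0), F |-τ| := by simp_rw [abs_neg]
    rw [h2, h1]
    refine le_of_eq (setLIntegral_congr_fun hm fun τ hτ => ?_)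
    rw [abs_of_pos hτ.2]

theorem tau_tail (K c s : ℝ) (hK : 0 ≤ K) (hc : 0 < c) (hs : 1 < s) :
    ∫⁻ τ in Ioi c, ENNReal.ofReal (K / τ) ^ s = ENNReal.ofReal (K ^ s * (c ^ (1 - s) / (s - 1))) := by
  have h1 : ∀ τ ∈ Ioi c, ENNReal.ofReal (K / τ) ^ s = ENNReal.ofReal (K ^ s * τ ^ (-s)) := by
    intro τ hτ
    have hτ0 : 0 < τ := hc.trans hτ
    rw [ENNReal.ofReal_rpow_of_nonneg (by positivity) (by linarith),
      Real.div_rpow hK hτ0.le, Real.rpow_neg hτ0.le, div_eq_mul_inv]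
  rw [setLIntegral_congr_fun measurableSet_Ioi h1]
  rw [← ofReal_integral_eq_lintegral_ofReal]
  · rw [integral_const_mul, integral_Ioi_rpow_of_lt (by linarith) hc]
    congr 2
    rw [show -s + 1 = 1 - s by ring, show (1 - s) = -(s - 1) by ring, div_neg, neg_div, neg_neg]
  · exact (integrableOn_Ioi_rpow_of_lt (by linarith) hc).const_mul _
  · refine (ae_restrict_mem measurableSet_Ioi).mono fun τ hτ => ?_
    have hτ0 : 0 < τ := hc.trans hτ
    simp only [Pi.zero_apply]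
    positivity

theorem M_meas (K : ℝ) (a : ℝ≥0∞) : Measurable (M K a) := by
  unfold M
  fun_prop

theorem tau_all (K a s : ℝ) (hK : 0 ≤ K) (ha : 0 < a) (hs : 1 < s) :
    ∫⁻ τ, M K (ENNReal.ofReal a) τ ^ s ≤
      ENNReal.ofReal (2 * (1 + K ^ s / (s - 1)) * a ^ (s - 1)) := by
  set F : ℝ → ℝ≥0∞ := fun τ => min (ENNReal.ofReal (K / τ)) (ENNReal.ofReal a) ^ s with hF
  have h0 : ∫⁻ τ, M K (ENNReal.ofReal a) τ ^ s = ∫⁻ τ in {τ : ℝ | |τ| ∈ univ}, F |τ| := by
    have : {τ : ℝ | |τ| ∈ (univ : Set ℝ)} = univ := by ext; simp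
    rw [this, Measure.restrict_univ]
    rfl
  rw [h0]
  refine (lint_abs F univ MeasurableSet.univ).trans ?_
  rw [univ_inter]
  have hsplit : Ioi (0:ℝ) = Ioc 0 (1 / a) ∪ Ioi (1 / a) := by
    rw [Ioc_union_Ioi_eq_Ioi (by positivity)]
  have h1 : ∫⁻ τ in Ioi 0, F τ ≤ ENNReal.ofReal (a ^ (s - 1)) +
      ENNReal.ofReal (K ^ s * (a ^ (s - 1) / (s - 1))) := by
    rw [hsplit]
    refine (lintegral_union_le _ _ _).trans (add_le_add ?_ ?_)
    · have : ∫⁻ τ in Ioc 0 (1 / a), F τ ≤ ∫⁻ τ in Ioc 0 (1 / a), ENNReal.ofReal a ^ s := by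
        refine lintegral_mono fun τ => ?_
        simp only [hF]
        gcongr
        exact min_le_right _ _
      refine this.trans (le_of_eq ?_)
      rw [setLIntegral_const, Real.volume_Ioc, sub_zero,
        ENNReal.ofReal_rpow_of_nonneg ha.le (by linarith), ← ENNReal.ofReal_mul (by positivity)]
      congr 1
      rw [Real.rpow_sub_one ha.ne']
      ring
    · have : ∫⁻ τ in Ioi (1 / a), F τ ≤ ∫⁻ τ in Ioi (1 / a), ENNReal.ofReal (K / τ) ^ s := by
        refine lintegral_mono fun τ => ?_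
        simp only [hF]
        gcongr
        exact min_le_left _ _
      refine this.trans (le_of_eq ?_)
      rw [tau_tail K (1 / a) s hK (by positivity) hs]
      congr 3
      rw [one_div, Real.inv_rpow ha.le, ← Real.rpow_neg ha.le]
      congr 1
      ring
  refine (mul_le_mul_right h1 2).trans (le_of_eq ?_)
  have hs1 : 0 < s - 1 := by linarith
  rw [← ENNReal.ofReal_add (by positivity) (by positivity)]
  have h2 : (2 : ℝ≥0∞) = ENNReal.ofReal 2 := by simp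
  rw [h2, ← ENNReal.ofReal_mul (by norm_num)]
  congr 1
  ring

end Pool.Agent.Helper134_FE
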