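import Mathlib
set_option autoImplicit false

/-! Minkowski's integral inequality (copied from `Pool.Agent.H438R2.PD.A5`). -/

namespace Pool.Agent.Helper134_FE

open MeasureTheory Set
open scoped ENNReal

theorem jensenp {α : Type*} [MeasurableSpace α] (ν : Measure α) (g : α → ℝ≥0∞)
    (hg : AEMeasurable g ν) (p : ℝ) (hp : 1 < p) :
    (∫⁻ x, g x ∂ν) ^ p ≤ (ν univ) ^ (p - 1) * ∫⁻ x, g x ^ p ∂ν := by
  have hp0 : 0 < p := by linarith
  have hp1 : 0 < p - 1 := by linarith
  have h := ENNReal.lintegral_mul_le_Lp_mul_Lq ν (p := p / (p - 1)) (q := p)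
    (by
      rw [Real.holderConjugate_iff]
      refine ⟨?_, ?_⟩
      · rw [lt_div_iff₀ hp1]; linarith
      · field_simp
        ring) (f := fun _ => 1) (g := g) aemeasurable_const hg
  simp only [Pi.mul_apply, one_mul, ENNReal.one_rpow, lintegral_const] at h
  calc (∫⁻ x, g x ∂ν) ^ p ≤ ((ν univ) ^ (1 / (p / (p - 1))) *
        (∫⁻ x, g x ^ p ∂ν) ^ (1 / p)) ^ p := by gcongr
    _ = _ := by
        rw [ENNReal.mul_rpow_of_nonneg _ _ hp0.le, ← ENNReal.rpow_mul, ← ENNReal.rpow_mul]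
        congr 1
        · congr 1
          field_simp
        · rw [one_div_mul_cancel hp0.ne', ENNReal.rpow_one]

/-- Minkowski's integral inequality -/
theorem mink {α β : Type*} [MeasurableSpace α] [MeasurableSpace β] (μ : Measure α)
    (ν : Measure β) [SFinite μ] [SFinite ν] (g : α → β → ℝ≥0∞)
    (hg : Measurable (Function.uncurry g)) (q : ℝ) (hq : 1 < q) :
    ∫⁻ x, (∫⁻ y, g x y ∂ν) ^ q ∂μ ≤ (∫⁻ y, (∫⁻ x, g x y ^ q ∂μ) ^ (1 / q) ∂ν) ^ q := by
  have hq0 : 0 < q := by linarith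
  set W : β → ℝ≥0∞ := fun y => (∫⁻ x, g x y ^ q ∂μ) ^ (1 / q) with hW
  have hgq : Measurable (Function.uncurry fun x y => g x y ^ q) := hg.pow_const q
  have hWm : Measurable W := by
    have : Measurable (fun y => ∫⁻ x, g x y ^ q ∂μ) := hgq.lintegral_prod_left'
    exact this.pow_const _
  have hWq : ∀ y, W y ^ q = ∫⁻ x, g x y ^ q ∂μ := by
    intro y
    rw [hW]
    simp only
    rw [← ENNReal.rpow_mul, one_div_mul_cancel hq0.ne', ENNReal.rpow_one]
  by_cases hI : ∫⁻ y, W y ∂ν = ∞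
  · rw [hI, ENNReal.top_rpow_of_pos hq0]
    exact le_top
  have hWfin : ∀ᵐ y ∂ν, W y < ∞ := ae_lt_top hWm hI
  -- where `W = 0`
  have hzero : ∀ᵐ x ∂μ, ∀ᵐ y ∂ν, W y = 0 → g x y = 0 := by
    have h1 : ∀ᵐ y ∂ν, ∀ᵐ x ∂μ, W y = 0 → g x y = 0 := by
      refine Filter.Eventually.of_forall fun y => ?_
      by_cases h : W y = 0
      · have h2 : ∫⁻ x, g x y ^ q ∂μ = 0 := by
          rw [← hWq y, h, ENNReal.zero_rpow_of_pos hq0]
        rw [lintegral_eq_zero_iff (by
          exact (hg.comp (measurable_id.prodMk measurable_const)).pow_const q)] at h2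
        filter_upwards [h2] with x hx _
        simpa [hq0, hq0.le, not_lt.mpr hq0.le] using hx
      · exact Filter.Eventually.of_forall fun x h' => absurd h' h
    have hS : MeasurableSet {z : α × β | W z.2 = 0 → g z.1 z.2 = 0} := by
      have e : {z : α × β | W z.2 = 0 → g z.1 z.2 = 0} =
          {z : α × β | W z.2 = 0}ᶜ ∪ {z : α × β | g z.1 z.2 = 0} := by
        ext z
        simp only [mem_ofPred_eq, mem_union, mem_compl_iff]
        tauto
      rw [e]
      exact ((hWm.comp measurable_snd) (measurableSet_singleton 0)).compl.union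
        (hg (measurableSet_singleton 0))
    have h3 := (Measure.ae_ae_comm (μ := μ) (ν := ν) (p := fun x y => W y = 0 → g x y = 0) hS).mpr h1
    exact h3
  have key : ∀ᵐ x ∂μ, (∫⁻ y, g x y ∂ν) ^ q ≤
      (∫⁻ y, W y ∂ν) ^ (q - 1) * ∫⁻ y, W y * (g x y / W y) ^ q ∂ν := by
    filter_upwards [hzero] with x hx
    have hgx : Measurable (g x) := hg.comp (measurable_const.prodMk measurable_id)
    have hdm : Measurable (fun y => g x y / W y) := hgx.div hWm
    have hdq : Measurable (fun y => (g x y / W y) ^ q) := hdm.pow_const q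
    have h1 : ∫⁻ y, g x y ∂ν = ∫⁻ y, (g x y / W y) ∂(ν.withDensity W) := by
      rw [lintegral_withDensity_eq_lintegral_mul _ hWm hdm]
      refine lintegral_congr_ae ?_
      filter_upwards [hx, hWfin] with y hy hy'
      simp only [Pi.mul_apply]
      by_cases h : W y = 0
      · rw [hy h, h]; simp
      · rw [ENNReal.mul_div_cancel h hy'.ne]
    have h2 := jensenp (ν.withDensity W) (fun y => g x y / W y) hdm.aemeasurable q hq
    rw [withDensity_apply _ MeasurableSet.univ, setLIntegral_univ,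
      lintegral_withDensity_eq_lintegral_mul _ hWm hdq] at h2
    rw [h1]
    exact h2
  calc ∫⁻ x, (∫⁻ y, g x y ∂ν) ^ q ∂μ
      ≤ ∫⁻ x, (∫⁻ y, W y ∂ν) ^ (q - 1) * ∫⁻ y, W y * (g x y / W y) ^ q ∂ν ∂μ :=
        lintegral_mono_ae key
    _ = (∫⁻ y, W y ∂ν) ^ (q - 1) * ∫⁻ x, ∫⁻ y, W y * (g x y / W y) ^ q ∂ν ∂μ := by
        rw [lintegral_const_mul']
        exact ENNReal.rpow_ne_top_of_nonneg (by linarith) hI
    _ = (∫⁻ y, W y ∂ν) ^ (q - 1) * ∫⁻ y, ∫⁻ x, W y * (g x y / W y) ^ q ∂μ ∂ν := by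
        rw [lintegral_lintegral_swap]
        have hm : Measurable (Function.uncurry fun x y => W y * (g x y / W y) ^ q) :=
          (hWm.comp measurable_snd).mul ((hg.div (hWm.comp measurable_snd)).pow_const q)
        exact hm.aemeasurable
    _ ≤ (∫⁻ y, W y ∂ν) ^ (q - 1) * ∫⁻ y, W y ∂ν := by
        gcongr with y
        have h1 : ∀ x, W y * (g x y / W y) ^ q = (W y * (W y)⁻¹ ^ q) * g x y ^ q := by
          intro x
          rw [div_eq_mul_inv, ENNReal.mul_rpow_of_nonneg _ _ hq0.le]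
          ring
        have hgy : Measurable (fun x => g x y ^ q) :=
          (hg.comp (measurable_id.prodMk measurable_const)).pow_const q
        simp_rw [h1]
        rw [lintegral_const_mul _ hgy, ← hWq y, mul_assoc,
          ← ENNReal.mul_rpow_of_nonneg _ _ hq0.le]
        have h2 : (W y)⁻¹ * W y ≤ 1 := by
          rw [mul_comm]; exact ENNReal.mul_inv_le_one _
        calc W y * ((W y)⁻¹ * W y) ^ q ≤ W y * 1 ^ q := by gcongr
          _ = W y := by rw [ENNReal.one_rpow, mul_one]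
    _ = (∫⁻ y, W y ∂ν) ^ q := by
        conv_lhs => rw [← ENNReal.rpow_one (∫⁻ y, W y ∂ν)]
        rw [← ENNReal.rpow_mul, ← ENNReal.rpow_add_of_nonneg _ _ (by linarith) (by norm_num)]
        congr 1
        ring

end Pool.Agent.Helper134_FE
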