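import Mathlib
import Pool.Agent.Helper134_FE.Lq
import Pool.Agent.Helper134_FE.Mink
set_option autoImplicit false

/-! `L^q` bounds for tame sets and tame functions. -/

namespace Pool.Agent.Helper134_FE

open MeasureTheory Set Filter Topology Complex
open scoped ENNReal NNReal RealInnerProductSpace

theorem ph_meas : Measurable fun p : E 2 × (E 2 × ℝ) => ph p.1 p.2 := ph_cont.measurable

theorem X_cont (g : E 2 → ℂ) (hg : Integrable g) : Continuous (X g) := by
  unfold X
  refine continuous_of_dominated (bound := fun x => ‖g x‖) ?_ ?_ hg.norm ?_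
  · intro z
    exact (ph_cont.comp (continuous_id.prodMk continuous_const)).aestronglyMeasurable.mul
      hg.aestronglyMeasurable
  · intro z
    refine Eventually.of_forall fun x => ?_
    rw [norm_mul, ph_norm, one_mul]
  · refine Eventually.of_forall fun x => ?_
    exact (ph_cont.comp (continuous_const.prodMk continuous_id)).mul continuous_const

theorem ind_int (A : Set (E 2)) (hA : MeasurableSet A) (hv : volume A ≠ ∞) :
    Integrable (A.indicator (1 : E 2 → ℂ)) := by
  rw [integrable_indicator_iff hA]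
  exact integrableOn_const hv

/-- the constant -/
noncomputable def Cq (q : ℝ) (N : ℕ) : ℝ :=
  (2 * Real.pi) ^ 2 * (2 * (1 + (2 * Real.pi * N) ^ (q - 2) / (q - 3)))

theorem Cq_nonneg (q : ℝ) (hq : 3 < q) (N : ℕ) : 0 ≤ Cq q N := by
  unfold Cq
  have : 0 < q - 3 := by linarith
  positivity

theorem set_bound (q : ℝ) (hq : 3 < q) (N : ℕ) (A : Set (E 2)) (hA : MeasurableSet A)
    (hT : Tame N A) (hv : volume A ≠ ∞) :
    ∫⁻ z : E 2 × ℝ, ‖X (A.indicator 1) z‖ₑ ^ q ≤ ENNReal.ofReal (Cq q N) * volume A ^ (q - 2) := by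
  by_cases h0 : volume A = 0
  · have : ∀ z, ‖X (A.indicator 1) z‖ₑ ^ q = 0 := by
      intro z
      have := X_ind_le_vol A z hA
      rw [h0] at this
      rw [le_antisymm this zero_le, ENNReal.zero_rpow_of_pos (by linarith)]
    simp_rw [this]
    simp
  have hm : Measurable fun z : E 2 × ℝ => ‖X (A.indicator 1) z‖ₑ ^ q :=
    ((X_cont _ (ind_int A hA hv)).enorm.measurable).pow_const q
  have hvol : (volume : Measure (E 2 × ℝ)) = (volume : Measure (E 2)).prod volume := rfl
  rw [hvol, lintegral_prod_symm _ hm.aemeasurable]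
  obtain ⟨a, ha0, ha⟩ : ∃ a : ℝ, 0 < a ∧ volume A = ENNReal.ofReal a :=
    ⟨(volume A).toReal, ENNReal.toReal_pos h0 hv, (ENNReal.ofReal_toReal hv).symm⟩
  have h1 : ∫⁻ τ : ℝ, ∫⁻ η : E 2, ‖X (A.indicator 1) (η, τ)‖ₑ ^ q ≤
      ∫⁻ τ : ℝ, M (2 * Real.pi * N) (volume A) τ ^ (q - 2) *
        (ENNReal.ofReal ((2 * Real.pi) ^ 2) * volume A) := by
    refine lintegral_mono_ae ?_
    have : ∀ᵐ τ : ℝ, τ ≠ 0 := by
      rw [ae_iff]
      simp
    filter_upwards [this] with τ hτ
    exact slice N A hA hT hv q (by linarith) τ hτ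
  refine h1.trans ?_
  rw [lintegral_mul_const _ ((M_meas _ _).pow_const _), ha]
  refine (mul_le_mul_left (tau_all (2 * Real.pi * N) a (q - 2) (by positivity) ha0
    (by linarith)) _).trans (le_of_eq ?_)
  have hq3 : 0 < q - 3 := by linarith
  have hq3' : q - 2 - 1 = q - 3 := by ring
  rw [ENNReal.ofReal_rpow_of_nonneg ha0.le (by linarith), ← ENNReal.ofReal_mul (by positivity),
    ← ENNReal.ofReal_mul (by rw [hq3']; positivity), ← ENNReal.ofReal_mul (Cq_nonneg q hq N)]
  congr 1
  unfold Cq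
  have h3 : a ^ (q - 2) = a ^ (q - 2 - 1) * a := by
    rw [← Real.rpow_add_one ha0.ne']
    congr 1
    ring
  rw [h3, hq3']
  ring

theorem enorm_ph (x : E 2) (z : E 2 × ℝ) : ‖ph x z‖ₑ = 1 := by
  rw [← ofReal_norm, ph_norm, ENNReal.ofReal_one]

theorem sub_meas (f : E 2 → ℝ) (hf : Measurable f) :
    MeasurableSet {p : E 2 × ℝ | p.2 < f p.1} :=
  measurableSet_lt measurable_snd (hf.comp measurable_fst)

theorem sub_fin (f : E 2 → ℝ) (hf : Measurable f) (hI : Integrable fun x => max (f x) 0) :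
    ((volume : Measure (E 2)).prod ((volume : Measure ℝ).restrict (Ioi (0:ℝ))))
      {p : E 2 × ℝ | p.2 < f p.1} < ∞ := by
  rw [Measure.prod_apply (sub_meas f hf)]
  have h1 : ∀ x, (volume.restrict (Ioi (0:ℝ))) (Prod.mk x ⁻¹' {p : E 2 × ℝ | p.2 < f p.1}) =
      ENNReal.ofReal (max (f x) 0) := by
    intro x
    have h2 : Prod.mk x ⁻¹' {p : E 2 × ℝ | p.2 < f p.1} = Iio (f x) := by
      ext s
      simp
    rw [h2, Measure.restrict_apply measurableSet_Iio, Iio_inter_Ioi, Real.volume_Ioo, sub_zero]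
    rcases le_total 0 (f x) with h | h
    · rw [max_eq_left h]
    · rw [max_eq_right h, ENNReal.ofReal_of_nonpos h, ENNReal.ofReal_zero]
  simp_rw [h1]
  rw [← ofReal_integral_eq_lintegral_ofReal hI (Eventually.of_forall fun x => le_max_right _ _)]
  exact ENNReal.ofReal_lt_top

/-- the integrand in the layer cake formula -/
noncomputable def G (w : E 2 → ℂ) (f : E 2 → ℝ) (x : E 2) (s : ℝ) : ℂ :=
  w x * {p : E 2 × ℝ | p.2 < f p.1}.indicator (fun _ => (1:ℂ)) (x, s)

theorem G_meas (w : E 2 → ℂ) (hw : Measurable w) (f : E 2 → ℝ) (hf : Measurable f) :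
    Measurable (Function.uncurry (G w f)) :=
  (hw.comp measurable_fst).mul (measurable_const.indicator (sub_meas f hf))

theorem G_int (w : E 2 → ℂ) (hw : Measurable w) (hw1 : ∀ x, ‖w x‖ = 1) (f : E 2 → ℝ)
    (hf : Measurable f) (hI : Integrable fun x => max (f x) 0) :
    Integrable (Function.uncurry (G w f))
      ((volume : Measure (E 2)).prod ((volume : Measure ℝ).restrict (Ioi (0:ℝ)))) := by
  have h1 : Integrable ({p : E 2 × ℝ | p.2 < f p.1}.indicator (fun _ => (1:ℂ)))
      ((volume : Measure (E 2)).prod ((volume : Measure ℝ).restrict (Ioi (0:ℝ)))) := by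
    rw [integrable_indicator_iff (sub_meas f hf)]
    exact integrableOn_const (sub_fin f hf hI).ne
  refine h1.norm.mono' (G_meas w hw f hf).aestronglyMeasurable
    (Eventually.of_forall fun p => ?_)
  show ‖w p.1 * {p : E 2 × ℝ | p.2 < f p.1}.indicator (fun _ => (1:ℂ)) (p.1, p.2)‖ ≤ _
  rw [norm_mul, hw1, one_mul]

theorem G_ind (w : E 2 → ℂ) (f : E 2 → ℝ) (x : E 2) (s : ℝ) :
    G w f x s = w x * {x | s < f x}.indicator (1 : E 2 → ℂ) x := by
  unfold G
  congr 1

theorem G_sec (w : E 2 → ℂ) (f : E 2 → ℝ) (x : E 2) :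
    ∫ s in Ioi (0:ℝ), G w f x s = w x * ((max (f x) 0 : ℝ) : ℂ) := by
  have e : (fun s : ℝ => G w f x s) = fun s => w x * (Iio (f x)).indicator (fun _ => (1:ℂ)) s := by
    ext s
    unfold G
    congr 1
  rw [e, integral_const_mul]
  congr 1
  rw [setIntegral_indicator measurableSet_Iio, setIntegral_const, Ioi_inter_Iio,
    measureReal_def, Real.volume_Ioo, sub_zero]
  rcases le_total 0 (f x) with h | h
  · rw [max_eq_left h, ENNReal.toReal_ofReal h]
    simp
  · rw [max_eq_right h, ENNReal.ofReal_of_nonpos h]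
    simp

theorem layer (w : E 2 → ℂ) (hw : Measurable w) (hw1 : ∀ x, ‖w x‖ = 1) (f : E 2 → ℝ)
    (hf : Measurable f) (hI : Integrable fun x => max (f x) 0) :
    ∫ x, w x * ((max (f x) 0 : ℝ) : ℂ) =
      ∫ s in Ioi (0:ℝ), ∫ x, w x * {x | s < f x}.indicator (1 : E 2 → ℂ) x := by
  have h := integral_integral_swap (G_int w hw hw1 f hf hI)
  simp_rw [G_sec] at h
  rw [h]
  simp_rw [G_ind]

/-- layer cake for the extension -/
theorem X_layer (f : E 2 → ℝ) (hf : Measurable f)
    (hI : Integrable fun x => max (f x) 0) (z : E 2 × ℝ) :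
    ‖X (fun x => ((max (f x) 0 : ℝ) : ℂ)) z‖ₑ ≤
      ∫⁻ s in Ioi (0:ℝ), ‖X ({x | s < f x}.indicator 1) z‖ₑ := by
  have hw : Measurable fun x => ph x z :=
    (ph_cont.comp (continuous_id.prodMk continuous_const)).measurable
  have h := layer (fun x => ph x z) hw (fun x => ph_norm x z) f hf hI
  unfold X
  rw [h]
  exact enorm_integral_le_lintegral_enorm _

end Pool.Agent.Helper134_FE
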