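import Mathlib
import Pool.Agent.Helper134_FE.Fun
set_option autoImplicit false

/-! `L^q` bounds for tame functions. -/

namespace Pool.Agent.Helper134_FE

open MeasureTheory Set Filter Topology Complex
open scoped ENNReal NNReal RealInnerProductSpace

theorem XA_meas (f : E 2 → ℝ) (hf : Measurable f) :
    Measurable (Function.uncurry fun (z : E 2 × ℝ) (s : ℝ) =>
      ‖X ({x | s < f x}.indicator 1) z‖ₑ) := by
  have h1 : Measurable fun p : ((E 2 × ℝ) × ℝ) × E 2 =>
      ph p.2 p.1.1 * {x | p.1.2 < f x}.indicator (1 : E 2 → ℂ) p.2 := by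
    refine Measurable.mul ?_ ?_
    · have h5 : Continuous fun p : ((E 2 × ℝ) × ℝ) × E 2 => ph p.2 p.1.1 := by
        unfold ph
        fun_prop
      exact h5.measurable
    · have h2 : Measurable fun p : ((E 2 × ℝ) × ℝ) × E 2 =>
          ({p : E 2 × ℝ | p.2 < f p.1}.indicator (fun _ => (1:ℂ)) (p.2, p.1.2)) := by
        have h3 : Measurable ({p : E 2 × ℝ | p.2 < f p.1}.indicator (fun _ => (1:ℂ))) :=
          measurable_const.indicator (sub_meas f hf)
        exact h3.comp (measurable_snd.prodMk (measurable_snd.comp measurable_fst))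
      exact h2
  have h4 : StronglyMeasurable fun p : (E 2 × ℝ) × ℝ =>
      ∫ x, ph x p.1 * {x | p.2 < f x}.indicator (1 : E 2 → ℂ) x :=
    h1.stronglyMeasurable.integral_prod_right'
  exact h4.measurable.enorm

theorem X_undef (g : E 2 → ℂ) (hg : ¬ Integrable g) (hm : AEStronglyMeasurable g) (z : E 2 × ℝ) :
    X g z = 0 := by
  unfold X
  refine integral_undef fun h => hg ?_
  have h1 := h.norm
  have e : (fun x => ‖ph x z * g x‖) = fun x => ‖g x‖ := by
    ext x
    rw [norm_mul, ph_norm, one_mul]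
  rw [e] at h1
  exact (integrable_norm_iff hm).1 h1

theorem vol_fin (f : E 2 → ℝ) (hI : Integrable fun x => max (f x) 0) (s : ℝ)
    (hs : 0 < s) : volume {x | s < f x} ≠ ∞ := by
  have h := hI.measure_gt_lt_top hs
  refine ne_top_of_le_ne_top h.ne (measure_mono fun x hx => ?_)
  have hx' : s < f x := hx
  exact lt_max_of_lt_left hx'

theorem fun_bound (q : ℝ) (hq : 3 < q) (N : ℕ) (f : E 2 → ℝ) (hf : Measurable f)
    (hT : ∀ s : ℝ, 0 < s → Tame N {x | s < f x}) :
    ∫⁻ z, ‖X (fun x => ((max (f x) 0 : ℝ) : ℂ)) z‖ₑ ^ q ≤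
      (ENNReal.ofReal (Cq q N) ^ (1 / q) *
        ∫⁻ s in Ioi (0:ℝ), volume {x | s < f x} ^ (1 - 2 / q)) ^ q := by
  have hq0 : 0 < q := by linarith
  have hfm : Measurable fun x => max (f x) 0 := hf.max measurable_const
  by_cases hI : Integrable fun x => max (f x) 0
  swap
  · have h0 : ∀ z, X (fun x => ((max (f x) 0 : ℝ) : ℂ)) z = 0 := by
      intro z
      refine X_undef _ (fun h => hI ?_) (Complex.measurable_ofReal.comp hfm).aestronglyMeasurable z
      have := h.re
      exact this
    simp_rw [h0]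
    simp [hq0]
  refine (lintegral_mono fun z => ENNReal.rpow_le_rpow (X_layer f hf hI z) hq0.le).trans ?_
  refine (mink volume (volume.restrict (Ioi (0:ℝ)))
    (fun (z : E 2 × ℝ) (s : ℝ) => ‖X ({x | s < f x}.indicator 1) z‖ₑ) (XA_meas f hf) q
    (by linarith)).trans ?_
  refine ENNReal.rpow_le_rpow ?_ hq0.le
  rw [← lintegral_const_mul' _ _ (ENNReal.rpow_ne_top_of_nonneg (by positivity)
    ENNReal.ofReal_ne_top)]
  refine setLIntegral_mono' measurableSet_Ioi fun s hs => ?_
  have hA : MeasurableSet {x | s < f x} := measurableSet_lt measurable_const hf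
  have h1 := set_bound q hq N {x | s < f x} hA (hT s hs) (vol_fin f hI s hs)
  refine (ENNReal.rpow_le_rpow h1 (by positivity : 0 ≤ 1 / q)).trans (le_of_eq ?_)
  rw [ENNReal.mul_rpow_of_nonneg _ _ (by positivity), ← ENNReal.rpow_mul]
  congr 2
  field_simp

end Pool.Agent.Helper134_FE
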