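import Mathlib
import Pool.Agent.Helper134_FE.Polar
set_option autoImplicit false

/-! Dispersive estimates for quadratic phases. -/

namespace Pool.Agent.Helper134_FE

open MeasureTheory Set Filter Topology Complex
open scoped ENNReal

/-- scaling of the coordinates -/
noncomputable def scl (α β : ℝ) : ℝ × ℝ →ₗ[ℝ] ℝ × ℝ :=
  (α • LinearMap.id).prodMap (β • LinearMap.id)

theorem scl_apply (α β : ℝ) (p : ℝ × ℝ) : scl α β p = (α * p.1, β * p.2) := rfl

theorem scl_det (α β : ℝ) : LinearMap.det (scl α β) = α * β := by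
  simp [scl, LinearMap.det_prodMap]

theorem scale_int (α β : ℝ) (hα : 0 < α) (hβ : 0 < β) (B : Set (ℝ × ℝ)) (hB : MeasurableSet B)
    (F : ℝ × ℝ → ℂ) (hF : Continuous F) :
    ∫ p in B, F (α * p.1, β * p.2) =
      ((α * β)⁻¹ : ℝ) • ∫ w in {w : ℝ × ℝ | (w.1 / α, w.2 / β) ∈ B}, F w := by
  have hd : LinearMap.det (scl α β) ≠ 0 := by
    rw [scl_det]; positivity
  have h1 := Measure.map_linearMap_addHaar_eq_smul_addHaar (volume : Measure (ℝ × ℝ)) hd
  rw [scl_det, abs_of_pos (by positivity)] at h1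
  set B' := {w : ℝ × ℝ | (w.1 / α, w.2 / β) ∈ B} with hB'
  have hB'm : MeasurableSet B' := by
    have : Measurable fun w : ℝ × ℝ => (w.1 / α, w.2 / β) := by fun_prop
    exact this hB
  have hsm : Measurable (scl α β) := by
    have : Measurable fun p : ℝ × ℝ => (α * p.1, β * p.2) := by fun_prop
    exact this
  have h2 := setIntegral_map (μ := (volume : Measure (ℝ × ℝ))) (f := F) hB'm
    hF.aestronglyMeasurable hsm.aemeasurable
  rw [h1, Measure.restrict_smul, integral_smul_measure,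
    ENNReal.toReal_ofReal (by positivity)] at h2
  rw [h2]
  have h3 : (scl α β) ⁻¹' B' = B := by
    ext p
    have h4 : ((α * p.1) / α, (β * p.2) / β) = p := by
      rw [mul_div_cancel_left₀ _ hα.ne', mul_div_cancel_left₀ _ hβ.ne']
    have h5 : p ∈ (scl α β) ⁻¹' B' ↔ ((α * p.1) / α, (β * p.2) / β) ∈ B := Iff.rfl
    rw [h5, h4]
  rw [h3]
  rfl

/-- all lines meet `B` in at most `N` intervals -/
def TameP (N : ℕ) (B : Set (ℝ × ℝ)) : Prop :=
  ∀ y ω : ℝ × ℝ, NInt N {r : ℝ | (y.1 + r * ω.1, y.2 + r * ω.2) ∈ B}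

theorem TameP.scale {N : ℕ} {B : Set (ℝ × ℝ)} (h : TameP N B) (α β : ℝ) :
    TameP N {w : ℝ × ℝ | (w.1 / α, w.2 / β) ∈ B} := by
  intro y ω
  have h1 := h (y.1 / α, y.2 / β) (ω.1 / α, ω.2 / β)
  have e : {r : ℝ | (y.1 + r * ω.1, y.2 + r * ω.2) ∈ {w : ℝ × ℝ | (w.1 / α, w.2 / β) ∈ B}} =
      {r : ℝ | (y.1 / α + r * (ω.1 / α), y.2 / β + r * (ω.2 / β)) ∈ B} := by
    ext r
    have h2 : ((y.1 + r * ω.1) / α, (y.2 + r * ω.2) / β) =
        (y.1 / α + r * (ω.1 / α), y.2 / β + r * (ω.2 / β)) := by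
      rw [add_div, add_div, mul_div_assoc, mul_div_assoc]
    simp only [mem_ofPred_eq, h2]
  rw [e]
  exact h1

theorem TameP.shift {N : ℕ} {B : Set (ℝ × ℝ)} (h : TameP N B) (z : ℝ × ℝ) :
    TameP N {w : ℝ × ℝ | w + z ∈ B} := by
  intro y ω
  have h1 := h (y.1 + z.1, y.2 + z.2) ω
  have e : {r : ℝ | (y.1 + r * ω.1, y.2 + r * ω.2) ∈ {w : ℝ × ℝ | w + z ∈ B}} =
      {r : ℝ | (y.1 + z.1 + r * ω.1, y.2 + z.2 + r * ω.2) ∈ B} := by
    ext r
    have h2 : (y.1 + r * ω.1, y.2 + r * ω.2) + z =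
        (y.1 + z.1 + r * ω.1, y.2 + z.2 + r * ω.2) := by
      ext <;> simp <;> ring
    simp only [mem_ofPred_eq, h2]
  rw [e]
  exact h1

/-- definite quadratic forms -/
theorem quadD (σ α β : ℝ) (hσ : |σ| = 1) (hα : 0 < α) (hβ : 0 < β) (N : ℕ) (B : Set (ℝ × ℝ))
    (hB : MeasurableSet B) (hT : TameP N B) :
    ‖∫ p in B, cexp (-((σ * ((α * p.1) ^ 2 + (β * p.2) ^ 2) : ℝ) : ℂ) * I)‖ ≤
      2 * Real.pi * N / (α * β) := by
  have hσ0 : σ ≠ 0 := by
    rintro rfl
    simp at hσ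
  rw [scale_int α β hα hβ B hB
    (fun w => cexp (-((σ * (w.1 ^ 2 + w.2 ^ 2) : ℝ) : ℂ) * I)) (by fun_prop), norm_smul,
    Real.norm_eq_abs, abs_of_pos (by positivity)]
  set B' := {w : ℝ × ℝ | (w.1 / α, w.2 / β) ∈ B} with hB'
  have hB'm : MeasurableSet B' := by
    have : Measurable fun w : ℝ × ℝ => (w.1 / α, w.2 / β) := by fun_prop
    exact this hB
  have h1 := disp0 σ hσ0 N B' hB'm (fun θ => by
    have := hT.scale α β (0, 0) (Real.cos θ, Real.sin θ)
    simp only [zero_add] at this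
    exact this)
  rw [hσ, div_one] at h1
  calc (α * β)⁻¹ * _ ≤ (α * β)⁻¹ * (2 * Real.pi * N) := by gcongr
    _ = _ := by field_simp

/-- one dimensional exponential integrals -/
theorem exp_J (c : ℝ) (hc : c ≠ 0) (J : Set ℝ) (hJ : J.OrdConnected)
    (hI : IntegrableOn (fun u : ℝ => cexp (((c * u : ℝ) : ℂ) * I)) J) :
    ‖∫ u in J, cexp (((c * u : ℝ) : ℂ) * I)‖ ≤ 2 / |c| := by
  have hn : ∀ u : ℝ, ‖cexp (((c * u : ℝ) : ℂ) * I)‖ = 1 := fun u =>
    Complex.norm_exp_ofReal_mul_I _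
  have hfin : volume J ≠ ∞ := by
    have h1 : IntegrableOn (fun _ : ℝ => (1:ℝ)) J := by
      refine hI.norm.congr (Eventually.of_forall fun u => ?_)
      exact hn u
    rw [integrableOn_const_iff] at h1
    simp at h1
    exact h1.ne
  have h0 : 0 ≤ 2 / |c| := by positivity
  have hint : ∀ a b : ℝ, ‖∫ u in a..b, cexp (((c * u : ℝ) : ℂ) * I)‖ ≤ 2 / |c| := by
    intro a b
    have hc' : (c : ℂ) ≠ 0 := by exact_mod_cast hc
    have hd : ∀ u : ℝ, HasDerivAt (fun u : ℝ => (1 / (c * I)) * cexp (((c * u : ℝ) : ℂ) * I))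
        (cexp (((c * u : ℝ) : ℂ) * I)) u := by
      intro u
      have h1 : HasDerivAt (fun u : ℝ => ((c * u : ℝ) : ℂ)) ((c : ℝ) : ℂ) u := by
        have : HasDerivAt (fun u : ℝ => c * u) c u := by
          simpa using (hasDerivAt_id u).const_mul c
        exact this.ofReal_comp
      refine (((h1.mul_const I).cexp).const_mul (1 / ((c : ℂ) * I))).congr_deriv ?_
      field_simp
    rw [intervalIntegral.integral_eq_sub_of_hasDerivAt (fun u _ => hd u)
      ((by fun_prop : Continuous fun u : ℝ => cexp (((c * u : ℝ) : ℂ) * I)).intervalIntegrable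
        a b)]
    refine (norm_sub_le _ _).trans ?_
    rw [norm_mul, norm_mul, hn, hn, norm_div, norm_mul, norm_I, Complex.norm_real,
      Real.norm_eq_abs, norm_one]
    apply le_of_eq
    ring
  have key : ∀ a b : ℝ, ‖∫ r in Ioc a b, cexp (((c * r : ℝ) : ℂ) * I)‖ ≤ 2 / |c| := by
    intro a b
    rcases le_or_gt a b with h | h
    · rw [← intervalIntegral.integral_of_le h]
      exact hint a b
    · rw [Ioc_eq_empty (not_lt.2 h.le)]
      simpa using h0
  have hp : IsPreconnected J := isPreconnected_iff_ordConnected.2 hJ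
  rcases hp.mem_intervals with h | h | h | h | h | h | h | h | h | h
  · rw [h, integral_Icc_eq_integral_Ioc]; exact key _ _
  · rw [h, integral_Ico_eq_integral_Ioo, ← integral_Ioc_eq_integral_Ioo]; exact key _ _
  · rw [h]; exact key _ _
  · rw [h, ← integral_Ioc_eq_integral_Ioo]; exact key _ _
  · exact absurd (by rw [h]; exact Real.volume_Ici) hfin
  · exact absurd (by rw [h]; exact Real.volume_Ioi) hfin
  · exact absurd (by rw [h]; exact Real.volume_Iic) hfin
  · exact absurd (by rw [h]; exact Real.volume_Iio) hfin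
  · exact absurd (by rw [h]; exact Real.volume_univ) hfin
  · rw [h]
    simpa using h0

theorem exp_union (c : ℝ) (hc : c ≠ 0) (N : ℕ) (S : Set ℝ) (hS : NInt N S)
    (hI : IntegrableOn (fun u : ℝ => cexp (((c * u : ℝ) : ℂ) * I)) S) :
    ‖∫ u in S, cexp (((c * u : ℝ) : ℂ) * I)‖ ≤ N * (2 / |c|) :=
  union_bound _ (2 / |c|) (by positivity) univ
    (fun J hJ _ hI => exp_J c hc J hJ hI) N S hS (subset_univ _) hI

end Pool.Agent.Helper134_FE
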