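import Mathlib
import Pool.Agent.Helper134_FE.Quad
set_option autoImplicit false

/-! Dispersive estimates for indefinite quadratic phases. -/

namespace Pool.Agent.Helper134_FE

open MeasureTheory Set Filter Topology Complex
open scoped ENNReal

/-- the shear -/
noncomputable def shear : ℝ × ℝ → ℝ × ℝ := fun z => (z.1, z.1 + z.2)

theorem shear_mp : MeasurePreserving shear (volume : Measure (ℝ × ℝ)) volume :=
  measurePreserving_prod_add (volume : Measure ℝ) (volume : Measure ℝ)

theorem shear_emb : MeasurableEmbedding shear := by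
  have h : Continuous shear := by unfold shear; fun_prop
  have hi : Function.Injective shear := by
    rintro ⟨a, b⟩ ⟨c, d⟩ h
    unfold shear at h
    simp only [Prod.mk.injEq] at h
    obtain ⟨h1, h2⟩ := h
    subst h1
    have : b = d := by linarith
    rw [this]
  exact h.measurableEmbedding hi

/-- hyperbolic phase, slicing along an isotropic direction -/
theorem hyp0 (σ : ℝ) (hσ : |σ| = 1) (N : ℕ) (B : Set (ℝ × ℝ)) (hB : MeasurableSet B)
    (hT : TameP N B) (D u0 w0 : ℝ) (hD : 0 < D)
    (h1 : ∀ p ∈ B, |p.1 - u0| ≤ D / 2) (h2 : ∀ p ∈ B, |p.2 - p.1 - w0| ≤ D / 2) :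
    ‖∫ p in B, cexp (-((σ * (p.1 ^ 2 - p.2 ^ 2) : ℝ) : ℂ) * I)‖ ≤
      ∫ w in Icc (w0 - D / 2) (w0 + D / 2), min (N * (1 / |w|)) D := by
  set F : ℝ × ℝ → ℂ := fun p => cexp (-((σ * (p.1 ^ 2 - p.2 ^ 2) : ℝ) : ℂ) * I) with hF
  have hFc : Continuous F := by rw [hF]; fun_prop
  have hFn : ∀ p, ‖F p‖ = 1 := fun p => norm_ph _
  set C := shear ⁻¹' B with hC
  have hCm : MeasurableSet C := shear_mp.measurable hB
  have e1 : ∫ p in B, F p = ∫ z in C, F (shear z) :=
    (shear_mp.setIntegral_preimage_emb shear_emb F B).symm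
  have hCsub : C ⊆ Icc (u0 - D / 2) (u0 + D / 2) ×ˢ Icc (w0 - D / 2) (w0 + D / 2) := by
    rintro ⟨u, w⟩ hz
    have hz' : (u, u + w) ∈ B := hz
    have a1 := abs_le.1 (h1 _ hz')
    have a2 := abs_le.1 (h2 _ hz')
    simp only at a1 a2
    refine ⟨⟨by linarith, by linarith⟩, ⟨by linarith, by linarith⟩⟩
  have hCfin : volume C ≠ ∞ := by
    refine ne_top_of_le_ne_top ?_ (measure_mono hCsub)
    rw [Measure.volume_eq_prod, Measure.prod_prod, Real.volume_Icc, Real.volume_Icc]
    exact ENNReal.mul_ne_top ENNReal.ofReal_ne_top ENNReal.ofReal_ne_top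
  have hint : Integrable (C.indicator fun z => F (shear z)) (volume.prod volume) := by
    have : Integrable (C.indicator fun z => F (shear z)) volume := by
      rw [integrable_indicator_iff hCm]
      have h3 : IntegrableOn (fun _ : ℝ × ℝ => (1:ℝ)) C := integrableOn_const hCfin
      refine h3.mono' ?_ (Eventually.of_forall fun z => (hFn _).le)
      exact (hFc.comp (by unfold shear; fun_prop)).aestronglyMeasurable
    exact this
  rw [e1, ← integral_indicator hCm]
  have e2 : ∫ z, C.indicator (fun z => F (shear z)) z =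
      ∫ w, ∫ u, C.indicator (fun z => F (shear z)) (u, w) := integral_prod_symm _ hint
  rw [e2]
  have hN : Nontrivial ℝ := inferInstance
  have key : ∀ w : ℝ, w ≠ 0 → ‖∫ u, C.indicator (fun z => F (shear z)) (u, w)‖ ≤
      (Icc (w0 - D / 2) (w0 + D / 2)).indicator (fun w => min (N * (1 / |w|)) D) w := by
    intro w hw
    by_cases hwI : w ∈ Icc (w0 - D / 2) (w0 + D / 2)
    swap
    · rw [indicator_of_notMem hwI]
      have : ∀ u, C.indicator (fun z => F (shear z)) (u, w) = 0 := by
        intro u
        refine indicator_of_notMem (fun h => hwI (hCsub h).2) _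
      simp_rw [this]
      simp
    rw [indicator_of_mem hwI]
    set S := {u : ℝ | (u, u + w) ∈ B} with hS
    have hSm : MeasurableSet S := by
      have : Measurable fun u : ℝ => (u, u + w) := by fun_prop
      exact this hB
    have e3 : ∀ u, C.indicator (fun z => F (shear z)) (u, w) =
        S.indicator (fun u => cexp (((σ * w ^ 2 : ℝ) : ℂ) * I) *
          cexp (((2 * σ * w * u : ℝ) : ℂ) * I)) u := by
      intro u
      by_cases hu : (u, u + w) ∈ B
      · rw [indicator_of_mem (show (u, w) ∈ C from hu), indicator_of_mem (show u ∈ S from hu),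
          ← Complex.exp_add]
        simp only [hF, shear]
        congr 1
        push_cast
        ring
      · rw [indicator_of_notMem (show (u, w) ∉ C from hu),
          indicator_of_notMem (show u ∉ S from hu)]
    simp_rw [e3]
    rw [integral_indicator hSm, integral_const_mul, norm_mul, Complex.norm_exp_ofReal_mul_I,
      one_mul]
    have hSsub : S ⊆ Icc (u0 - D / 2) (u0 + D / 2) := by
      intro u hu
      have a1 := abs_le.1 (h1 _ hu)
      simp only at a1
      exact ⟨by linarith, by linarith⟩
    have hSfin : volume S ≤ ENNReal.ofReal D := by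
      refine (measure_mono hSsub).trans ?_
      rw [Real.volume_Icc]
      apply le_of_eq
      congr 1
      ring
    have hSint : IntegrableOn (fun u : ℝ => cexp (((2 * σ * w * u : ℝ) : ℂ) * I)) S := by
      have h3 : IntegrableOn (fun _ : ℝ => (1:ℝ)) S :=
        integrableOn_const (ne_top_of_le_ne_top ENNReal.ofReal_ne_top hSfin)
      refine h3.mono' ?_ (Eventually.of_forall fun z => (Complex.norm_exp_ofReal_mul_I _).le)
      exact (by fun_prop : Continuous fun u : ℝ =>
        cexp (((2 * σ * w * u : ℝ) : ℂ) * I)).aestronglyMeasurable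
    have hσ0 : σ ≠ 0 := by
      rintro rfl
      simp at hσ
    refine le_min ?_ ?_
    · have hc : 2 * σ * w ≠ 0 := by positivity
      have hNS : NInt N S := by
        have := hT (0, w) (1, 1)
        have e : {r : ℝ | (((0:ℝ), w).1 + r * ((1:ℝ), (1:ℝ)).1,
            ((0:ℝ), w).2 + r * ((1:ℝ), (1:ℝ)).2) ∈ B} = S := by
          ext r
          simp only [mem_ofPred_eq, hS, zero_add, mul_one, add_comm w r]
        rwa [e] at this
      refine (exp_union (2 * σ * w) hc N S hNS hSint).trans (le_of_eq ?_)
      rw [abs_mul, abs_mul, hσ]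
      have : |(2:ℝ)| = 2 := by norm_num
      rw [this]
      have hw' : 0 < |w| := abs_pos.2 hw
      field_simp
    · refine (norm_setIntegral_le_of_norm_le_const (C := 1)
        (lt_of_le_of_lt hSfin ENNReal.ofReal_lt_top)
        (fun u _ => (Complex.norm_exp_ofReal_mul_I _).le)).trans ?_
      rw [one_mul, measureReal_def]
      exact ENNReal.toReal_le_of_le_ofReal hD.le hSfin
  have hmin : IntegrableOn (fun w : ℝ => min ((N:ℝ) * (1 / |w|)) D)
      (Icc (w0 - D / 2) (w0 + D / 2)) := by
    have h3 : IntegrableOn (fun _ : ℝ => D) (Icc (w0 - D / 2) (w0 + D / 2)) :=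
      integrableOn_const (by rw [Real.volume_Icc]; exact ENNReal.ofReal_ne_top)
    refine h3.mono' ?_ (Eventually.of_forall fun w => ?_)
    · exact (by fun_prop : Measurable fun w : ℝ => min ((N:ℝ) * (1 / |w|)) D).aestronglyMeasurable
    · rw [Real.norm_eq_abs, abs_of_nonneg (by positivity)]
      exact min_le_right _ _
  rw [← integral_indicator measurableSet_Icc]
  refine norm_integral_le_of_norm_le ?_ ?_
  · rw [integrable_indicator_iff measurableSet_Icc]
    exact hmin
  · have : ∀ᵐ w : ℝ, w ≠ 0 := by
      rw [ae_iff]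
      simp
    filter_upwards [this] with w hw
    exact key w hw

end Pool.Agent.Helper134_FE
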