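import Mathlib
import Pool.Agent.Helper134_FE.Quad2
import Pool.Agent.Helper134_FE.Lq
set_option autoImplicit false

/-! Dispersive estimates for quadratic phases: conclusion. -/

namespace Pool.Agent.Helper134_FE

open MeasureTheory Set Filter Topology Complex
open scoped ENNReal

/-- integral of a power over `(0, D]` -/
theorem pow_int (θ D : ℝ) (hθ1 : θ < 1) (hD : 0 < D) :
    ∫⁻ w in Ioc 0 D, ENNReal.ofReal (w ^ (-θ)) = ENNReal.ofReal (D ^ (1 - θ) / (1 - θ)) := by
  have hi : IntervalIntegrable (fun w : ℝ => w ^ (-θ)) volume 0 D :=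
    intervalIntegral.intervalIntegrable_rpow' (by linarith)
  rw [intervalIntegrable_iff_integrableOn_Ioc_of_le hD.le] at hi
  rw [← ofReal_integral_eq_lintegral_ofReal hi]
  · rw [← intervalIntegral.integral_of_le hD.le, integral_rpow (Or.inl (by linarith))]
    congr 1
    rw [Real.zero_rpow (by linarith), sub_zero]
    congr 1
    · congr 1; ring
    · ring
  · refine (ae_restrict_mem measurableSet_Ioc).mono fun w hw => ?_
    simp only [Pi.zero_apply]
    exact Real.rpow_nonneg hw.1.le _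

theorem pow_abs (θ D : ℝ) (hθ1 : θ < 1) (hD : 0 < D) :
    ∫⁻ w in {w : ℝ | |w| ∈ Iic D}, ENNReal.ofReal (|w| ^ (-θ)) ≤
      ENNReal.ofReal (2 * (D ^ (1 - θ) / (1 - θ))) := by
  refine (lint_abs (fun w => ENNReal.ofReal (w ^ (-θ))) (Iic D) measurableSet_Iic).trans ?_
  have e : Iic D ∩ Ioi 0 = Ioc 0 D := by
    ext x
    simp only [mem_inter_iff, mem_Iic, mem_Ioi, mem_Ioc]
    tauto
  rw [e, pow_int θ D hθ1 hD]
  have h2 : (2 : ℝ≥0∞) = ENNReal.ofReal 2 := by simp
  rw [h2, ← ENNReal.ofReal_mul (by norm_num)]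

theorem min_le_geom (x D θ : ℝ) (hx : 0 ≤ x) (hD : 0 ≤ D) (h0 : 0 ≤ θ) (h1 : θ ≤ 1) :
    min x D ≤ x ^ θ * D ^ (1 - θ) := by
  have hm : 0 ≤ min x D := le_min hx hD
  rcases eq_or_lt_of_le hm with h | h
  · rw [← h]
    positivity
  · have e : θ + (1 - θ) = 1 := by ring
    calc min x D = min x D ^ (θ + (1 - θ)) := by rw [e, Real.rpow_one]
      _ = min x D ^ θ * min x D ^ (1 - θ) := Real.rpow_add h _ _
      _ ≤ x ^ θ * D ^ (1 - θ) := by
        gcongr
        · exact min_le_left _ _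
        · exact min_le_right _ _

theorem hyp_int (N : ℕ) (θ D w0 : ℝ) (hθ0 : 0 < θ) (hθ1 : θ < 1) (hD : 0 < D) :
    ∫ w in Icc (w0 - D / 2) (w0 + D / 2), min (N * (1 / |w|)) D ≤
      (N : ℝ) ^ θ * (2 / (1 - θ) + 1) * (D ^ (1 - θ)) ^ 2 := by
  set K : ℝ := (N : ℝ) ^ θ * D ^ (1 - θ) with hK
  have hK0 : 0 ≤ K := by positivity
  have hθ2 : 0 < 1 - θ := by linarith
  have hmin : IntegrableOn (fun w : ℝ => min ((N:ℝ) * (1 / |w|)) D)
      (Icc (w0 - D / 2) (w0 + D / 2)) := by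
    have h3 : IntegrableOn (fun _ : ℝ => D) (Icc (w0 - D / 2) (w0 + D / 2)) :=
      integrableOn_const (by rw [Real.volume_Icc]; exact ENNReal.ofReal_ne_top)
    refine h3.mono' ?_ (Eventually.of_forall fun w => ?_)
    · exact (by fun_prop : Measurable fun w : ℝ => min ((N:ℝ) * (1 / |w|)) D).aestronglyMeasurable
    · rw [Real.norm_eq_abs, abs_of_nonneg (by positivity)]
      exact min_le_right _ _
  rw [← ENNReal.ofReal_le_ofReal_iff (by positivity), ofReal_integral_eq_lintegral_ofReal hmin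
    (Eventually.of_forall fun w => by simp only [Pi.zero_apply]; positivity)]
  have hpt : ∀ w : ℝ, ENNReal.ofReal (min ((N:ℝ) * (1 / |w|)) D) ≤
      {w : ℝ | |w| ∈ Iic D}.indicator (fun w => ENNReal.ofReal K * ENNReal.ofReal (|w| ^ (-θ))) w +
        ENNReal.ofReal (K * D ^ (-θ)) := by
    intro w
    have h1 := min_le_geom ((N:ℝ) * (1 / |w|)) D θ (by positivity) hD.le hθ0.le hθ1.le
    have h2 : ((N:ℝ) * (1 / |w|)) ^ θ * D ^ (1 - θ) = K * |w| ^ (-θ) := by
      rw [Real.mul_rpow (by positivity) (by positivity), one_div, Real.inv_rpow (abs_nonneg _),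
        Real.rpow_neg (abs_nonneg _), hK]
      ring
    rw [h2] at h1
    by_cases hw : |w| ≤ D
    · rw [indicator_of_mem (show w ∈ {w : ℝ | |w| ∈ Iic D} from hw), ← ENNReal.ofReal_mul hK0]
      exact (ENNReal.ofReal_le_ofReal h1).trans (le_add_right le_rfl)
    · push Not at hw
      refine le_add_left (ENNReal.ofReal_le_ofReal (h1.trans ?_))
      refine mul_le_mul_of_nonneg_left ?_ hK0
      exact Real.rpow_le_rpow_of_nonpos hD hw.le (by linarith)
  have hSm : MeasurableSet {w : ℝ | |w| ∈ Iic D} := by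
    have : Measurable fun w : ℝ => |w| := by fun_prop
    exact this measurableSet_Iic
  calc ∫⁻ w in Icc (w0 - D / 2) (w0 + D / 2), ENNReal.ofReal (min ((N:ℝ) * (1 / |w|)) D)
      ≤ ∫⁻ w in Icc (w0 - D / 2) (w0 + D / 2),
          ({w : ℝ | |w| ∈ Iic D}.indicator
            (fun w => ENNReal.ofReal K * ENNReal.ofReal (|w| ^ (-θ))) w +
            ENNReal.ofReal (K * D ^ (-θ))) := lintegral_mono hpt
    _ = (∫⁻ w in Icc (w0 - D / 2) (w0 + D / 2), {w : ℝ | |w| ∈ Iic D}.indicator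
            (fun w => ENNReal.ofReal K * ENNReal.ofReal (|w| ^ (-θ))) w) +
          ENNReal.ofReal (K * D ^ (-θ)) * ENNReal.ofReal D := by
        rw [lintegral_add_right _ measurable_const, setLIntegral_const, Real.volume_Icc]
        congr 3
        ring
    _ ≤ (∫⁻ w, {w : ℝ | |w| ∈ Iic D}.indicator
            (fun w => ENNReal.ofReal K * ENNReal.ofReal (|w| ^ (-θ))) w) +
          ENNReal.ofReal (K * D ^ (-θ)) * ENNReal.ofReal D := by
        gcongr
        exact Measure.restrict_le_self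
    _ = ENNReal.ofReal K * (∫⁻ w in {w : ℝ | |w| ∈ Iic D}, ENNReal.ofReal (|w| ^ (-θ))) +
          ENNReal.ofReal (K * D ^ (-θ)) * ENNReal.ofReal D := by
        rw [lintegral_indicator hSm, lintegral_const_mul' _ _ ENNReal.ofReal_ne_top]
    _ ≤ ENNReal.ofReal K * ENNReal.ofReal (2 * (D ^ (1 - θ) / (1 - θ))) +
          ENNReal.ofReal (K * D ^ (-θ)) * ENNReal.ofReal D := by
        gcongr
        exact pow_abs θ D hθ1 hD
    _ = ENNReal.ofReal ((N : ℝ) ^ θ * (2 / (1 - θ) + 1) * (D ^ (1 - θ)) ^ 2) := by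
        rw [← ENNReal.ofReal_mul hK0, ← ENNReal.ofReal_mul (by positivity),
          ← ENNReal.ofReal_add (by positivity) (by positivity)]
        congr 1
        have h3 : D ^ (-θ) * D = D ^ (1 - θ) := by
          rw [← Real.rpow_add_one hD.ne']
          congr 1
          ring
        rw [mul_assoc K, h3, hK]
        ring

/-- indefinite quadratic forms -/
theorem quadI (σ α β : ℝ) (hσ : |σ| = 1) (hα : 0 < α) (hβ : 0 < β) (N : ℕ) (B : Set (ℝ × ℝ))
    (hB : MeasurableSet B) (hT : TameP N B) (c : ℝ × ℝ)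
    (hc : ∀ p ∈ B, (p.1 - c.1) ^ 2 + (p.2 - c.2) ^ 2 ≤ 1 / 4) (θ : ℝ) (hθ0 : 0 < θ)
    (hθ1 : θ < 1) :
    ‖∫ p in B, cexp (-((σ * ((α * p.1) ^ 2 - (β * p.2) ^ 2) : ℝ) : ℂ) * I)‖ ≤
      (α * β)⁻¹ * ((N : ℝ) ^ θ * (2 / (1 - θ) + 1) * (Real.sqrt (α ^ 2 + β ^ 2) ^ (1 - θ)) ^ 2) := by
  rw [scale_int α β hα hβ B hB
    (fun w => cexp (-((σ * (w.1 ^ 2 - w.2 ^ 2) : ℝ) : ℂ) * I)) (by fun_prop), norm_smul,
    Real.norm_eq_abs, abs_of_pos (by positivity)]
  set B' := {w : ℝ × ℝ | (w.1 / α, w.2 / β) ∈ B} with hB'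
  have hB'm : MeasurableSet B' := by
    have : Measurable fun w : ℝ × ℝ => (w.1 / α, w.2 / β) := by fun_prop
    exact this hB
  have hD : 0 < Real.sqrt (α ^ 2 + β ^ 2) := Real.sqrt_pos.2 (by positivity)
  have hD2 : Real.sqrt (α ^ 2 + β ^ 2) ^ 2 = α ^ 2 + β ^ 2 := Real.sq_sqrt (by positivity)
  set D := Real.sqrt (α ^ 2 + β ^ 2) with hDd
  refine mul_le_mul_of_nonneg_left ?_ (by positivity)
  refine (hyp0 σ hσ N B' hB'm (hT.scale α β) D (α * c.1) (β * c.2 - α * c.1) hD ?_ ?_).trans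
    (hyp_int N θ D _ hθ0 hθ1 hD)
  · intro w hw
    have h1 := hc _ hw
    simp only at h1
    have e : w.1 - α * c.1 = α * (w.1 / α - c.1) := by field_simp
    rw [e]
    apply abs_le_of_sq_le_sq _ (by positivity)
    rw [mul_pow, div_pow, hD2]
    nlinarith [sq_nonneg (w.2 / β - c.2), sq_nonneg α, sq_nonneg β,
      mul_nonneg (sq_nonneg α) (sq_nonneg (w.2 / β - c.2))]
  · intro w hw
    have h1 := hc _ hw
    simp only at h1
    have e : w.2 - w.1 - (β * c.2 - α * c.1) = β * (w.2 / β - c.2) - α * (w.1 / α - c.1) := by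
      field_simp
      ring
    rw [e]
    set x := w.1 / α - c.1
    set y := w.2 / β - c.2
    apply abs_le_of_sq_le_sq _ (by positivity)
    rw [div_pow, hD2]
    have h2 : (β * y - α * x) ^ 2 ≤ (α ^ 2 + β ^ 2) * (x ^ 2 + y ^ 2) := by
      nlinarith [sq_nonneg (β * x + α * y)]
    nlinarith [sq_nonneg α, sq_nonneg β, mul_le_mul_of_nonneg_left h1
      (by positivity : 0 ≤ α ^ 2 + β ^ 2)]

end Pool.Agent.Helper134_FE
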