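import Mathlib
import Pool.Agent.Helper134_FE.Quad3
set_option autoImplicit false

/-! Dispersive estimates for quadratic phases in the plane. -/

namespace Pool.Agent.Helper134_FE

open MeasureTheory Set Filter Topology Complex
open scoped ENNReal RealInnerProductSpace

/-- oscillatory integral with a diagonal quadratic phase -/
noncomputable def YY (S : Set (ℝ × ℝ)) (a b c d : ℝ) : ℂ :=
  ∫ p in S, cexp (-((a * p.1 ^ 2 + b * p.2 ^ 2 + c * p.1 + d * p.2 : ℝ) : ℂ) * I)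

theorem YY_shift (S : Set (ℝ × ℝ)) (a b c d : ℝ) (ha : a ≠ 0) (hb : b ≠ 0) :
    ‖YY S a b c d‖ = ‖∫ p in {w : ℝ × ℝ | w + (-(c / (2 * a)), -(d / (2 * b))) ∈ S},
      cexp (-((a * p.1 ^ 2 + b * p.2 ^ 2 : ℝ) : ℂ) * I)‖ := by
  set y : ℝ × ℝ := (-(c / (2 * a)), -(d / (2 * b))) with hy
  have h1 : YY S a b c d = ∫ p in {w : ℝ × ℝ | w + y ∈ S},
      cexp (-((a * (p + y).1 ^ 2 + b * (p + y).2 ^ 2 + c * (p + y).1 + d * (p + y).2 : ℝ) : ℂ)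
        * I) := by
    unfold YY
    exact ((measurePreserving_add_right volume y).setIntegral_preimage_emb
      (measurableEmbedding_addRight y) _ S).symm
  have h2 : ∀ p : ℝ × ℝ, cexp (-((a * (p + y).1 ^ 2 + b * (p + y).2 ^ 2 + c * (p + y).1 +
      d * (p + y).2 : ℝ) : ℂ) * I) =
      cexp ((c ^ 2 / (4 * a) + d ^ 2 / (4 * b) : ℝ) * I) *
        cexp (-((a * p.1 ^ 2 + b * p.2 ^ 2 : ℝ) : ℂ) * I) := by
    intro p
    rw [← Complex.exp_add]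
    congr 1
    have h3 : a * (p + y).1 ^ 2 + b * (p + y).2 ^ 2 + c * (p + y).1 + d * (p + y).2 =
        a * p.1 ^ 2 + b * p.2 ^ 2 - (c ^ 2 / (4 * a) + d ^ 2 / (4 * b)) := by
      rw [hy]
      simp only [Prod.fst_add, Prod.snd_add]
      field_simp
      ring
    rw [h3]
    push_cast
    ring
  rw [h1]
  simp_rw [h2]
  rw [integral_const_mul, norm_mul, Complex.norm_exp_ofReal_mul_I, one_mul]

theorem shift_meas {S : Set (ℝ × ℝ)} (hS : MeasurableSet S) (y : ℝ × ℝ) :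
    MeasurableSet {w : ℝ × ℝ | w + y ∈ S} := (measurable_add_const y) hS

theorem YY_def (N : ℕ) (S : Set (ℝ × ℝ)) (hS : MeasurableSet S) (hT : TameP N S)
    (a b c d : ℝ) (hab : 0 < a * b) :
    ‖YY S a b c d‖ ≤ 2 * Real.pi * N / (Real.sqrt |a| * Real.sqrt |b|) := by
  have ha : a ≠ 0 := by rintro rfl; simp at hab
  have hb : b ≠ 0 := by rintro rfl; simp at hab
  rw [YY_shift S a b c d ha hb]
  set y : ℝ × ℝ := (-(c / (2 * a)), -(d / (2 * b))) with hy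
  obtain ⟨σ, hσ, hσa, hσb⟩ : ∃ σ : ℝ, |σ| = 1 ∧ a = σ * |a| ∧ b = σ * |b| := by
    rcases mul_pos_iff.1 hab with ⟨h1, h2⟩ | ⟨h1, h2⟩
    · exact ⟨1, by simp, by rw [abs_of_pos h1]; ring, by rw [abs_of_pos h2]; ring⟩
    · exact ⟨-1, by simp, by rw [abs_of_neg h1]; ring, by rw [abs_of_neg h2]; ring⟩
  have h1 := quadD σ (Real.sqrt |a|) (Real.sqrt |b|) hσ (Real.sqrt_pos.2 (abs_pos.2 ha))
    (Real.sqrt_pos.2 (abs_pos.2 hb)) N _ (shift_meas hS y) (hT.shift y)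
  refine le_trans (le_of_eq ?_) h1
  congr 1
  refine setIntegral_congr_fun (shift_meas hS y) fun p _ => ?_
  have h2 : a * p.1 ^ 2 + b * p.2 ^ 2 =
      σ * ((Real.sqrt |a| * p.1) ^ 2 + (Real.sqrt |b| * p.2) ^ 2) := by
    rw [mul_pow, mul_pow, Real.sq_sqrt (abs_nonneg _), Real.sq_sqrt (abs_nonneg _)]
    nth_rewrite 1 [hσa]
    nth_rewrite 1 [hσb]
    ring
  simp only [h2]

theorem YY_ind (N : ℕ) (S : Set (ℝ × ℝ)) (hS : MeasurableSet S) (hT : TameP N S)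
    (hB : ∀ p ∈ S, p.1 ^ 2 + p.2 ^ 2 ≤ 1 / 4) (a b c d : ℝ) (hab : a * b < 0) (θ : ℝ)
    (hθ0 : 0 < θ) (hθ1 : θ < 1) :
    ‖YY S a b c d‖ ≤ (Real.sqrt |a| * Real.sqrt |b|)⁻¹ *
      ((N : ℝ) ^ θ * (2 / (1 - θ) + 1) * (Real.sqrt (|a| + |b|) ^ (1 - θ)) ^ 2) := by
  have ha : a ≠ 0 := by rintro rfl; simp at hab
  have hb : b ≠ 0 := by rintro rfl; simp at hab
  rw [YY_shift S a b c d ha hb]
  set y : ℝ × ℝ := (-(c / (2 * a)), -(d / (2 * b))) with hy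
  obtain ⟨σ, hσ, hσa, hσb⟩ : ∃ σ : ℝ, |σ| = 1 ∧ a = σ * |a| ∧ b = -(σ * |b|) := by
    rcases mul_neg_iff.1 hab with ⟨h1, h2⟩ | ⟨h1, h2⟩
    · exact ⟨1, by simp, by rw [abs_of_pos h1]; ring, by rw [abs_of_neg h2]; ring⟩
    · exact ⟨-1, by simp, by rw [abs_of_neg h1]; ring, by rw [abs_of_pos h2]; ring⟩
  have h1 := quadI σ (Real.sqrt |a|) (Real.sqrt |b|) hσ (Real.sqrt_pos.2 (abs_pos.2 ha))
    (Real.sqrt_pos.2 (abs_pos.2 hb)) N _ (shift_meas hS y) (hT.shift y) (-y.1, -y.2)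
    (fun p hp => by
      have := hB _ hp
      simp only [Prod.fst_add, Prod.snd_add] at this
      simp only [sub_neg_eq_add]
      exact this) θ hθ0 hθ1
  rw [Real.sq_sqrt (abs_nonneg _), Real.sq_sqrt (abs_nonneg _)] at h1
  refine le_trans (le_of_eq ?_) h1
  congr 1
  refine setIntegral_congr_fun (shift_meas hS y) fun p _ => ?_
  have h2 : a * p.1 ^ 2 + b * p.2 ^ 2 =
      σ * ((Real.sqrt |a| * p.1) ^ 2 - (Real.sqrt |b| * p.2) ^ 2) := by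
    rw [mul_pow, mul_pow, Real.sq_sqrt (abs_nonneg _), Real.sq_sqrt (abs_nonneg _)]
    nth_rewrite 1 [hσa]
    nth_rewrite 1 [hσb]
    ring
  simp only [h2]

/-- coordinates with respect to an orthonormal basis -/
noncomputable def Tv (v : OrthonormalBasis (Fin 2) ℝ (E 2)) : E 2 ≃ᵐ ℝ × ℝ :=
  v.repr.toHomeomorph.toMeasurableEquiv.trans T2

theorem Tv_mp (v : OrthonormalBasis (Fin 2) ℝ (E 2)) : MeasurePreserving (Tv v) volume volume :=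
  T2_mp.comp v.repr.measurePreserving

theorem Tv_apply (v : OrthonormalBasis (Fin 2) ℝ (E 2)) (x : E 2) :
    Tv v x = (⟪v 0, x⟫, ⟪v 1, x⟫) := by
  have h1 : Tv v x = (v.repr x 0, v.repr x 1) := rfl
  rw [h1, v.repr_apply_apply, v.repr_apply_apply]

theorem Tv_line (v : OrthonormalBasis (Fin 2) ℝ (E 2)) (y ω : ℝ × ℝ) (r : ℝ) :
    (Tv v).symm (y.1 + r * ω.1, y.2 + r * ω.2) = (Tv v).symm y + r • (Tv v).symm ω := by
  rw [MeasurableEquiv.symm_apply_eq, Tv_apply, inner_add_right, inner_add_right,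
    inner_smul_right, inner_smul_right]
  have h1 : (⟪v 0, (Tv v).symm y⟫, ⟪v 1, (Tv v).symm y⟫) = y := by
    rw [← Tv_apply, MeasurableEquiv.apply_symm_apply]
  have h2 : (⟪v 0, (Tv v).symm ω⟫, ⟪v 1, (Tv v).symm ω⟫) = ω := by
    rw [← Tv_apply, MeasurableEquiv.apply_symm_apply]
  rw [Prod.ext_iff] at h1 h2
  simp only at h1 h2
  rw [h1.1, h1.2, h2.1, h2.2]

theorem Tame.toP {N : ℕ} {A : Set (E 2)} (h : Tame N A) (v : OrthonormalBasis (Fin 2) ℝ (E 2)) :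
    TameP N {p : ℝ × ℝ | (Tv v).symm p ∈ A} := by
  intro y ω
  obtain ⟨J, hJ, hJe⟩ := h ((Tv v).symm y) ((Tv v).symm ω)
  refine ⟨J, hJ, ?_⟩
  rw [← hJe]
  ext r
  simp only [mem_ofPred_eq, Tv_line]

theorem inner_v (v : OrthonormalBasis (Fin 2) ℝ (E 2)) (x y : E 2) :
    ⟪x, y⟫ = ⟪v 0, x⟫ * ⟪v 0, y⟫ + ⟪v 1, x⟫ * ⟪v 1, y⟫ := by
  rw [← v.sum_inner_mul_inner x y, Fin.sum_univ_two, real_inner_comm x (v 0),
    real_inner_comm x (v 1)]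

theorem norm_v (v : OrthonormalBasis (Fin 2) ℝ (E 2)) (x : E 2) :
    ‖x‖ ^ 2 = ⟪v 0, x⟫ ^ 2 + ⟪v 1, x⟫ ^ 2 := by
  rw [← real_inner_self_eq_norm_sq, inner_v v x x]
  ring

/-- the quadratic phase -/
noncomputable def qu (v : OrthonormalBasis (Fin 2) ℝ (E 2)) (κ : Fin 2 → ℝ) (b : E 2)
    (x : E 2) : ℝ := κ 0 * ⟪v 0, x⟫ ^ 2 + κ 1 * ⟪v 1, x⟫ ^ 2 + ⟪b, x⟫

theorem int_YY (v : OrthonormalBasis (Fin 2) ℝ (E 2)) (κ : Fin 2 → ℝ) (b : E 2) (A : Set (E 2))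
    (hA : MeasurableSet A) (η : E 2) (τ : ℝ) :
    ∫ x in A, ph x (η, τ) * cexp (-((qu v κ b x : ℝ) : ℂ) * I) =
      YY {p : ℝ × ℝ | (Tv v).symm p ∈ A} (τ + κ 0) (τ + κ 1) (⟪v 0, η⟫ + ⟪v 0, b⟫)
        (⟪v 1, η⟫ + ⟪v 1, b⟫) := by
  unfold YY
  have hm : MeasurableSet {p : ℝ × ℝ | (Tv v).symm p ∈ A} := (Tv v).symm.measurable hA
  have e : (Tv v) ⁻¹' {p : ℝ × ℝ | (Tv v).symm p ∈ A} = A := by
    ext x
    simp
  rw [← (Tv_mp v).setIntegral_preimage_emb (Tv v).measurableEmbedding, e]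
  refine setIntegral_congr_fun hA fun x _ => ?_
  simp only [Tv_apply]
  unfold ph qu
  rw [← Complex.exp_add]
  congr 1
  simp only [inner_v v x η, norm_v v x, inner_v v b x]
  push_cast
  ring

end Pool.Agent.Helper134_FE
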