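import Mathlib
import Pool.Agent.Helper134_FE.Quad4
import Pool.Agent.Helper134_FE.Fun2
set_option autoImplicit false

/-! `L^q` bounds for tame sets with quadratic modulations. -/

namespace Pool.Agent.Helper134_FE

open MeasureTheory Set Filter Topology Complex
open scoped ENNReal RealInnerProductSpace

/-- the constant in the indefinite case -/
noncomputable def Cr (N : ℕ) (r : ℝ) : ℝ := (N : ℝ) ^ (1 / r) * (2 / (1 - 1 / r) + 1)

theorem Cr_nonneg (N : ℕ) (r : ℝ) (hr : 1 < r) : 0 ≤ Cr N r := by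
  unfold Cr
  have : 1 / r < 1 := by rw [div_lt_one (by linarith)]; exact hr
  have : 0 < 1 - 1 / r := by linarith
  positivity

/-- the profile in the indefinite case -/
noncomputable def Hp (N : ℕ) (r L : ℝ) (u : ℝ) : ℝ≥0∞ :=
  {u : ℝ | |u| ∈ Iic L}.indicator (fun u =>
    ENNReal.ofReal (Cr N r ^ r * L ^ (r - 1) * (L / 2) ^ (-(r / 2))) *
      ENNReal.ofReal (|u| ^ (-(r / 2)))) u

theorem Hset (L : ℝ) : MeasurableSet {u : ℝ | |u| ∈ Iic L} := by
  have : Measurable fun w : ℝ => |w| := by fun_prop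
  exact this measurableSet_Iic

theorem Hp_meas (N : ℕ) (r L : ℝ) : Measurable (Hp N r L) := by
  unfold Hp
  have h : Measurable fun u : ℝ => ENNReal.ofReal (|u| ^ (-(r / 2))) := by fun_prop
  exact Measurable.indicator (measurable_const.mul h) (Hset L)

theorem Hp_int (N : ℕ) (r L : ℝ) (hr : 1 < r) (hr2 : r < 2) (hL : 0 < L) :
    ∫⁻ u, Hp N r L u ≤ ENNReal.ofReal (Cr N r ^ r * (2 ^ (r / 2) * (2 / (1 - r / 2)))) := by
  unfold Hp
  have h0 := Cr_nonneg N r hr
  have h1 : 0 < 1 - r / 2 := by linarith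
  rw [lintegral_indicator (Hset L), lintegral_const_mul' _ _ ENNReal.ofReal_ne_top]
  refine (mul_le_mul_right (pow_abs (r / 2) L (by linarith) hL) _).trans (le_of_eq ?_)
  rw [← ENNReal.ofReal_mul (by positivity)]
  congr 1
  have h2 : (L / 2) ^ (-(r / 2)) = 2 ^ (r / 2) * L ^ (-(r / 2)) := by
    rw [Real.div_rpow hL.le (by norm_num), Real.rpow_neg (by norm_num : (0:ℝ) ≤ 2), div_inv_eq_mul]
    ring
  have h3 : L ^ (r - 1) * L ^ (-(r / 2)) * L ^ (1 - r / 2) = 1 := by
    rw [← Real.rpow_add hL, ← Real.rpow_add hL]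
    rw [show r - 1 + -(r / 2) + (1 - r / 2) = 0 by ring, Real.rpow_zero]
  rw [h2]
  calc Cr N r ^ r * L ^ (r - 1) * (2 ^ (r / 2) * L ^ (-(r / 2))) *
        (2 * (L ^ (1 - r / 2) / (1 - r / 2)))
      = Cr N r ^ r * (2 ^ (r / 2) * (2 / (1 - r / 2))) *
        (L ^ (r - 1) * L ^ (-(r / 2)) * L ^ (1 - r / 2)) := by ring
    _ = _ := by rw [h3, mul_one]

/-- the modulated extension -/
noncomputable def Z (v : OrthonormalBasis (Fin 2) ℝ (E 2)) (κ : Fin 2 → ℝ) (b : E 2)
    (A : Set (E 2)) (z : E 2 × ℝ) : ℂ :=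
  X (fun x => cexp (-((qu v κ b x : ℝ) : ℂ) * I) * A.indicator 1 x) z

theorem qu_cont (v : OrthonormalBasis (Fin 2) ℝ (E 2)) (κ : Fin 2 → ℝ) (b : E 2) :
    Continuous (qu v κ b) := by
  unfold qu
  fun_prop

theorem Zg_int (v : OrthonormalBasis (Fin 2) ℝ (E 2)) (κ : Fin 2 → ℝ) (b : E 2)
    (A : Set (E 2)) (hA : MeasurableSet A) (hv : volume A ≠ ∞) :
    Integrable (fun x => cexp (-((qu v κ b x : ℝ) : ℂ) * I) * A.indicator 1 x) := by
  refine (ind_int A hA hv).norm.mono' ?_ (Eventually.of_forall fun x => ?_)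
  · refine AEStronglyMeasurable.mul ?_ (ind_int A hA hv).aestronglyMeasurable
    have : Continuous fun x => cexp (-((qu v κ b x : ℝ) : ℂ) * I) := by
      have := qu_cont v κ b
      fun_prop
    exact this.aestronglyMeasurable
  · rw [norm_mul, norm_ph, one_mul]

theorem Z_eq (v : OrthonormalBasis (Fin 2) ℝ (E 2)) (κ : Fin 2 → ℝ) (b : E 2) (A : Set (E 2))
    (hA : MeasurableSet A) (η : E 2) (τ : ℝ) :
    Z v κ b A (η, τ) = YY {p : ℝ × ℝ | (Tv v).symm p ∈ A} (τ + κ 0) (τ + κ 1)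
      (⟪v 0, η⟫ + ⟪v 0, b⟫) (⟪v 1, η⟫ + ⟪v 1, b⟫) := by
  rw [← int_YY v κ b A hA η τ]
  unfold Z X
  rw [← integral_indicator hA]
  congr 1
  ext x
  simp only
  by_cases hx : x ∈ A
  · rw [indicator_of_mem hx, indicator_of_mem hx]
    simp
  · rw [indicator_of_notMem hx, indicator_of_notMem hx]
    simp

theorem Z_le_vol (v : OrthonormalBasis (Fin 2) ℝ (E 2)) (κ : Fin 2 → ℝ) (b : E 2)
    (A : Set (E 2)) (hA : MeasurableSet A) (z : E 2 × ℝ) : ‖Z v κ b A z‖ₑ ≤ volume A := by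
  unfold Z X
  refine (enorm_integral_le_lintegral_enorm _).trans ?_
  rw [← lintegral_indicator_one hA]
  refine lintegral_mono fun x => ?_
  rw [enorm_mul, enorm_mul, enorm_ph, one_mul]
  have : ‖cexp (-((qu v κ b x : ℝ) : ℂ) * I)‖ₑ = 1 := by
    rw [← ofReal_norm, norm_ph, ENNReal.ofReal_one]
  rw [this, one_mul]
  by_cases hx : x ∈ A
  · rw [indicator_of_mem hx, indicator_of_mem hx]
    simp
  · rw [indicator_of_notMem hx, indicator_of_notMem hx]
    simp

/-- the bound at fixed height -/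
noncomputable def Bd (N : ℕ) (V : ℝ≥0∞) (s r : ℝ) (κ : Fin 2 → ℝ) (τ : ℝ) : ℝ≥0∞ :=
  (M (2 * Real.pi * N) V (τ + κ 0) ^ s + M (2 * Real.pi * N) V (τ + κ 1) ^ s) +
    V ^ (s - r) * (Hp N r |κ 0 - κ 1| (τ + κ 0) + Hp N r |κ 0 - κ 1| (τ + κ 1))

theorem Z_bd (v : OrthonormalBasis (Fin 2) ℝ (E 2)) (κ : Fin 2 → ℝ) (b : E 2) (N : ℕ)
    (A : Set (E 2)) (hA : MeasurableSet A) (hT : Tame N A) (hAb : ∀ x ∈ A, ‖x‖ ≤ 1 / 2)
    (s r : ℝ) (hr : 1 < r) (hr2 : r < 2) (hrs : r ≤ s) (η : E 2) (τ : ℝ)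
    (h0 : τ + κ 0 ≠ 0) (h1 : τ + κ 1 ≠ 0) :
    ‖Z v κ b A (η, τ)‖ₑ ^ s ≤ Bd N (volume A) s r κ τ := by
  have hvol := Z_le_vol v κ b A hA (η, τ)
  set a := τ + κ 0 with ha
  set c := τ + κ 1 with hc
  have hac : κ 0 - κ 1 = a - c := by rw [ha, hc]; ring
  have hs0 : 0 ≤ s := by linarith
  have ha' : 0 < |a| := abs_pos.2 h0
  have hc' : 0 < |c| := abs_pos.2 h1
  have hSm : MeasurableSet {p : ℝ × ℝ | (Tv v).symm p ∈ A} := (Tv v).symm.measurable hA
  rcases lt_or_gt_of_ne (mul_ne_zero h0 h1) with hneg | hpos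
  · -- indefinite
    have hZ : ‖Z v κ b A (η, τ)‖ ≤ (Real.sqrt |a| * Real.sqrt |c|)⁻¹ *
        (Cr N r * (Real.sqrt (|a| + |c|) ^ (1 - 1 / r)) ^ 2) := by
      rw [Z_eq v κ b A hA η τ]
      refine YY_ind N _ hSm (hT.toP v) ?_ a c _ _ hneg (1 / r) (by positivity)
        (by rw [div_lt_one (by linarith)]; exact hr)
      intro p hp
      have h2 := hAb _ hp
      have h3 := norm_v v ((Tv v).symm p)
      have h4 : (⟪v 0, (Tv v).symm p⟫, ⟪v 1, (Tv v).symm p⟫) = p := by
        rw [← Tv_apply, MeasurableEquiv.apply_symm_apply]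
      rw [Prod.ext_iff] at h4
      simp only at h4
      rw [h4.1, h4.2] at h3
      rw [← h3]
      have := norm_nonneg ((Tv v).symm p)
      nlinarith
    have hL : |a| + |c| = |κ 0 - κ 1| := by
      rw [hac]
      rcases mul_neg_iff.1 hneg with ⟨h2, h3⟩ | ⟨h2, h3⟩
      · rw [abs_of_pos h2, abs_of_neg h3, abs_of_pos (by linarith)]; ring
      · rw [abs_of_neg h2, abs_of_pos h3, abs_of_neg (by linarith)]; ring
    set L := |κ 0 - κ 1| with hLd
    have hL0 : 0 < L := by rw [← hL]; positivity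
    rw [hL] at hZ
    have hCr := Cr_nonneg N r hr
    have hZr : ‖Z v κ b A (η, τ)‖ ^ r ≤ (|a| * |c|) ^ (-(r / 2)) * (Cr N r ^ r * L ^ (r - 1)) := by
      refine (Real.rpow_le_rpow (norm_nonneg _) hZ (by linarith)).trans (le_of_eq ?_)
      rw [Real.mul_rpow (by positivity) (by positivity), Real.mul_rpow hCr (by positivity)]
      congr 1
      · rw [← Real.sqrt_mul (abs_nonneg _), Real.sqrt_eq_rpow, ← Real.rpow_neg (by positivity),
          ← Real.rpow_mul (by positivity)]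
        congr 1
        ring
      · congr 1
        rw [Real.sqrt_eq_rpow, ← Real.rpow_natCast, ← Real.rpow_mul hL0.le,
          ← Real.rpow_mul hL0.le, ← Real.rpow_mul hL0.le]
        congr 1
        push_cast
        field_simp
    have key : ∀ x y : ℝ, 0 < x → 0 < y → x + y = L → x ≤ y →
        (x * y) ^ (-(r / 2)) ≤ (L / 2) ^ (-(r / 2)) * x ^ (-(r / 2)) := by
      intro x y hx hy hxy hle
      rw [Real.mul_rpow hx.le hy.le, mul_comm]
      refine mul_le_mul_of_nonneg_right ?_ (by positivity)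
      exact Real.rpow_le_rpow_of_nonpos (by positivity) (by linarith) (by linarith)
    have hZr' : ‖Z v κ b A (η, τ)‖ₑ ^ r ≤ Hp N r L a + Hp N r L c := by
      rw [← ofReal_norm, ENNReal.ofReal_rpow_of_nonneg (norm_nonneg _) (by linarith)]
      refine (ENNReal.ofReal_le_ofReal hZr).trans ?_
      have haL : |a| ≤ L := by rw [← hL]; linarith
      have hcL : |c| ≤ L := by rw [← hL]; linarith
      rcases le_total |a| |c| with hle | hle
      · refine le_add_right ?_
        unfold Hp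
        rw [indicator_of_mem (show a ∈ {u : ℝ | |u| ∈ Iic L} from haL),
          ← ENNReal.ofReal_mul (by positivity)]
        refine ENNReal.ofReal_le_ofReal ?_
        have := mul_le_mul_of_nonneg_right (key |a| |c| ha' hc' hL hle)
          (by positivity : 0 ≤ Cr N r ^ r * L ^ (r - 1))
        refine this.trans (le_of_eq ?_)
        ring
      · refine le_add_left ?_
        unfold Hp
        rw [indicator_of_mem (show c ∈ {u : ℝ | |u| ∈ Iic L} from hcL),
          ← ENNReal.ofReal_mul (by positivity)]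
        refine ENNReal.ofReal_le_ofReal ?_
        have h5 := key |c| |a| hc' ha' (by linarith) hle
        rw [mul_comm |c| |a|] at h5
        have := mul_le_mul_of_nonneg_right h5
          (by positivity : 0 ≤ Cr N r ^ r * L ^ (r - 1))
        refine this.trans (le_of_eq ?_)
        ring
    have e : ‖Z v κ b A (η, τ)‖ₑ ^ s = ‖Z v κ b A (η, τ)‖ₑ ^ (s - r) *
        ‖Z v κ b A (η, τ)‖ₑ ^ r := by
      rw [← ENNReal.rpow_add_of_nonneg _ _ (by linarith) (by linarith)]
      congr 1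
      ring
    rw [e]
    unfold Bd
    refine le_add_left ?_
    exact mul_le_mul' (ENNReal.rpow_le_rpow hvol (by linarith)) hZr'
  · -- definite
    have hZ : ‖Z v κ b A (η, τ)‖ ≤ 2 * Real.pi * N / (Real.sqrt |a| * Real.sqrt |c|) := by
      rw [Z_eq v κ b A hA η τ]
      exact YY_def N _ hSm (hT.toP v) a c _ _ hpos
    unfold Bd
    refine le_add_right ?_
    rcases le_total |a| |c| with hle | hle
    · refine le_add_right (ENNReal.rpow_le_rpow (le_min ?_ hvol) hs0)
      rw [← ofReal_norm]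
      refine ENNReal.ofReal_le_ofReal (hZ.trans ?_)
      refine div_le_div_of_nonneg_left (by positivity) ha' ?_
      calc |a| = Real.sqrt |a| * Real.sqrt |a| := (Real.mul_self_sqrt ha'.le).symm
        _ ≤ _ := by gcongr
    · refine le_add_left (ENNReal.rpow_le_rpow (le_min ?_ hvol) hs0)
      rw [← ofReal_norm]
      refine ENNReal.ofReal_le_ofReal (hZ.trans ?_)
      refine div_le_div_of_nonneg_left (by positivity) hc' ?_
      calc |c| = Real.sqrt |c| * Real.sqrt |c| := (Real.mul_self_sqrt hc'.le).symm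
        _ ≤ _ := by gcongr

end Pool.Agent.Helper134_FE
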