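import Mathlib
import Pool.Agent.Helper134_FE.Quad5
set_option autoImplicit false

/-! `L^q` bounds for tame sets with quadratic modulations: integration. -/

namespace Pool.Agent.Helper134_FE

open MeasureTheory Set Filter Topology Complex
open scoped ENNReal RealInnerProductSpace

/-- the constant -/
noncomputable def Cm (q : ℝ) (N : ℕ) : ℝ :=
  (2 * Real.pi) ^ 2 * (2 * (2 * (1 + (2 * Real.pi * N) ^ (q - 2) / (q - 3))) +
    2 * (Cr N (1 + min (q - 3) 1 / 2) ^ (1 + min (q - 3) 1 / 2) *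
      (2 ^ ((1 + min (q - 3) 1 / 2) / 2) * (2 / (1 - (1 + min (q - 3) 1 / 2) / 2)))))

theorem Hp_int' (N : ℕ) (r L : ℝ) (hr : 1 < r) (hr2 : r < 2) (hL : 0 ≤ L) :
    ∫⁻ u, Hp N r L u ≤ ENNReal.ofReal (Cr N r ^ r * (2 ^ (r / 2) * (2 / (1 - r / 2)))) := by
  rcases eq_or_lt_of_le hL with h | h
  · have : ∀ u, Hp N r L u = 0 := by
      intro u
      unfold Hp
      rw [← h, Real.zero_rpow (by linarith)]
      simp [indicator]
    simp_rw [this]
    simp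
  · exact Hp_int N r L hr hr2 h

theorem lint_shift (F : ℝ → ℝ≥0∞) (c : ℝ) : ∫⁻ τ, F (τ + c) = ∫⁻ τ, F τ :=
  lintegral_add_right_eq_self F c

theorem Bd_int (N : ℕ) (a s r : ℝ) (κ : Fin 2 → ℝ) (ha : 0 < a) (ha1 : a ≤ 1) (hr : 1 < r)
    (hr2 : r < 2) (hs : 1 < s) (hsr : (s - 1) / 2 ≤ s - r) :
    ∫⁻ τ, Bd N (ENNReal.ofReal a) s r κ τ ≤
      ENNReal.ofReal ((2 * (2 * (1 + (2 * Real.pi * N) ^ s / (s - 1))) +
        2 * (Cr N r ^ r * (2 ^ (r / 2) * (2 / (1 - r / 2))))) * a ^ ((s - 1) / 2)) := by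
  have hCr := Cr_nonneg N r hr
  have hr3 : 0 < 1 - r / 2 := by linarith
  have hs1 : 0 < s - 1 := by linarith
  set K : ℝ := 2 * Real.pi * N with hK
  have hK0 : 0 ≤ K := by positivity
  have hMm : Measurable fun τ => M K (ENNReal.ofReal a) τ ^ s := (M_meas _ _).pow_const s
  have e0 : ∀ c : ℝ, Measurable fun τ : ℝ => M K (ENNReal.ofReal a) (τ + c) ^ s := fun c =>
    hMm.comp (measurable_add_const c)
  have e1 : ∀ c : ℝ, Measurable fun τ : ℝ => Hp N r |κ 0 - κ 1| (τ + c) := fun c =>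
    (Hp_meas _ _ _).comp (measurable_add_const c)
  have h1 : ∫⁻ τ, Bd N (ENNReal.ofReal a) s r κ τ =
      ((∫⁻ τ, M K (ENNReal.ofReal a) τ ^ s) + ∫⁻ τ, M K (ENNReal.ofReal a) τ ^ s) +
      (ENNReal.ofReal a) ^ (s - r) * ((∫⁻ τ, Hp N r |κ 0 - κ 1| τ) +
        ∫⁻ τ, Hp N r |κ 0 - κ 1| τ) := by
    unfold Bd
    simp only [← hK]
    have m1 : Measurable fun τ : ℝ => M K (ENNReal.ofReal a) (τ + κ 0) ^ s +
        M K (ENNReal.ofReal a) (τ + κ 1) ^ s := (e0 _).add (e0 _)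
    have m2 : Measurable fun τ : ℝ => Hp N r |κ 0 - κ 1| (τ + κ 0) +
        Hp N r |κ 0 - κ 1| (τ + κ 1) := (e1 _).add (e1 _)
    rw [lintegral_add_left m1, lintegral_add_left (e0 _),
      lintegral_const_mul _ m2, lintegral_add_left (e1 _),
      lint_shift (fun τ => M K (ENNReal.ofReal a) τ ^ s), lint_shift
      (fun τ => M K (ENNReal.ofReal a) τ ^ s), lint_shift (fun τ => Hp N r |κ 0 - κ 1| τ),
      lint_shift (fun τ => Hp N r |κ 0 - κ 1| τ)]
  rw [h1, ← two_mul, ← two_mul]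
  have h2 := tau_all K a s hK0 ha hs
  have h3 := Hp_int' N r |κ 0 - κ 1| hr hr2 (abs_nonneg _)
  have t2 : (2 : ℝ≥0∞) = ENNReal.ofReal 2 := by simp
  have hpow1 : a ^ (s - 1) ≤ a ^ ((s - 1) / 2) :=
    Real.rpow_le_rpow_of_exponent_ge ha ha1 (by linarith)
  have hpow2 : a ^ (s - r) ≤ a ^ ((s - 1) / 2) :=
    Real.rpow_le_rpow_of_exponent_ge ha ha1 hsr
  calc 2 * (∫⁻ τ, M K (ENNReal.ofReal a) τ ^ s) +
        (ENNReal.ofReal a) ^ (s - r) * (2 * ∫⁻ τ, Hp N r |κ 0 - κ 1| τ)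
      ≤ ENNReal.ofReal 2 * ENNReal.ofReal (2 * (1 + K ^ s / (s - 1)) * a ^ (s - 1)) +
        ENNReal.ofReal (a ^ (s - r)) * (ENNReal.ofReal 2 *
          ENNReal.ofReal (Cr N r ^ r * (2 ^ (r / 2) * (2 / (1 - r / 2))))) := by
        rw [t2, ENNReal.ofReal_rpow_of_nonneg ha.le (by linarith)]
        gcongr
    _ ≤ _ := by
        rw [← ENNReal.ofReal_mul (by norm_num), ← ENNReal.ofReal_mul (by norm_num),
          ← ENNReal.ofReal_mul (by positivity), ← ENNReal.ofReal_add (by positivity)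
          (by positivity)]
        refine ENNReal.ofReal_le_ofReal ?_
        have q1 : 2 * (2 * (1 + K ^ s / (s - 1)) * a ^ (s - 1)) ≤
            2 * (2 * (1 + K ^ s / (s - 1))) * a ^ ((s - 1) / 2) := by
          have : 0 ≤ 2 * (2 * (1 + K ^ s / (s - 1))) := by positivity
          calc 2 * (2 * (1 + K ^ s / (s - 1)) * a ^ (s - 1))
              = 2 * (2 * (1 + K ^ s / (s - 1))) * a ^ (s - 1) := by ring
            _ ≤ _ := by gcongr
        have q2 : a ^ (s - r) * (2 * (Cr N r ^ r * (2 ^ (r / 2) * (2 / (1 - r / 2))))) ≤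
            2 * (Cr N r ^ r * (2 ^ (r / 2) * (2 / (1 - r / 2)))) * a ^ ((s - 1) / 2) := by
          rw [mul_comm]
          gcongr
        linarith

theorem Zset_bound (v : OrthonormalBasis (Fin 2) ℝ (E 2)) (κ : Fin 2 → ℝ) (b : E 2)
    (q : ℝ) (hq : 3 < q) (N : ℕ) (A : Set (E 2)) (hA : MeasurableSet A)
    (hT : Tame N A) (hAb : ∀ x ∈ A, ‖x‖ ≤ 1 / 2) (hv1 : volume A ≤ 1) :
    ∫⁻ z : E 2 × ℝ, ‖Z v κ b A z‖ₑ ^ q ≤ ENNReal.ofReal (Cm q N) * volume A ^ ((q - 1) / 2) := by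
  have hv : volume A ≠ ∞ := ne_top_of_le_ne_top ENNReal.one_ne_top hv1
  by_cases h0 : volume A = 0
  · have : ∀ z, ‖Z v κ b A z‖ₑ ^ q = 0 := by
      intro z
      have := Z_le_vol v κ b A hA z
      rw [h0] at this
      rw [le_antisymm this zero_le, ENNReal.zero_rpow_of_pos (by linarith)]
    simp_rw [this]
    simp
  have hZc : Continuous (Z v κ b A) := X_cont _ (Zg_int v κ b A hA hv)
  have hm : Measurable fun z : E 2 × ℝ => ‖Z v κ b A z‖ₑ ^ q :=
    (hZc.enorm.measurable).pow_const q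
  have hvol : (volume : Measure (E 2 × ℝ)) = (volume : Measure (E 2)).prod volume := rfl
  rw [hvol, lintegral_prod_symm _ hm.aemeasurable]
  obtain ⟨a, ha0, ha⟩ : ∃ a : ℝ, 0 < a ∧ volume A = ENNReal.ofReal a :=
    ⟨(volume A).toReal, ENNReal.toReal_pos h0 hv, (ENNReal.ofReal_toReal hv).symm⟩
  have ha1 : a ≤ 1 := by
    rw [ha] at hv1
    rwa [ENNReal.ofReal_le_one] at hv1
  set s := q - 2 with hs
  set r := 1 + min (q - 3) 1 / 2 with hr
  have hmin0 : 0 < min (q - 3) 1 := lt_min (by linarith) one_pos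
  have hmin1 : min (q - 3) 1 ≤ 1 := min_le_right _ _
  have hmin2 : min (q - 3) 1 ≤ q - 3 := min_le_left _ _
  have hr1 : 1 < r := by rw [hr]; linarith
  have hr2 : r < 2 := by rw [hr]; linarith
  have hs1 : 1 < s := by rw [hs]; linarith
  have hsr : (s - 1) / 2 ≤ s - r := by rw [hs, hr]; linarith
  have hrs : r ≤ s := by rw [hs, hr]; linarith
  have hslice : ∀ τ : ℝ, τ + κ 0 ≠ 0 → τ + κ 1 ≠ 0 → ∫⁻ η : E 2, ‖Z v κ b A (η, τ)‖ₑ ^ q ≤
      Bd N (volume A) s r κ τ * (ENNReal.ofReal ((2 * Real.pi) ^ 2) * volume A) := by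
    intro τ h1 h2
    have h3 : ∀ η : E 2, ‖Z v κ b A (η, τ)‖ₑ ^ q ≤
        Bd N (volume A) s r κ τ * ‖Z v κ b A (η, τ)‖ₑ ^ 2 := by
      intro η
      have e : ‖Z v κ b A (η, τ)‖ₑ ^ q = ‖Z v κ b A (η, τ)‖ₑ ^ s *
          ‖Z v κ b A (η, τ)‖ₑ ^ (2 : ℝ) := by
        rw [← ENNReal.rpow_add_of_nonneg _ _ (by linarith) (by norm_num)]
        congr 1
        rw [hs]
        ring
      rw [e, ENNReal.rpow_two]
      gcongr
      exact Z_bd v κ b N A hA hT hAb s r hr1 hr2 hrs η τ h1 h2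
    refine (lintegral_mono h3).trans ?_
    have hm2 : Measurable fun η : E 2 => ‖Z v κ b A (η, τ)‖ₑ ^ 2 :=
      ((hZc.comp (continuous_id.prodMk continuous_const)).enorm.measurable).pow_const 2
    rw [lintegral_const_mul _ hm2]
    gcongr
    refine (X_planch _ (Zg_int v κ b A hA hv) τ).trans ?_
    gcongr
    rw [← lintegral_indicator_one hA]
    refine lintegral_mono fun x => ?_
    rw [enorm_mul]
    have : ‖cexp (-((qu v κ b x : ℝ) : ℂ) * I)‖ₑ = 1 := by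
      rw [← ofReal_norm, norm_ph, ENNReal.ofReal_one]
    rw [this, one_mul]
    by_cases hx : x ∈ A
    · rw [indicator_of_mem hx, indicator_of_mem hx]
      simp
    · rw [indicator_of_notMem hx, indicator_of_notMem hx]
      simp
  have hae : ∀ᵐ τ : ℝ, τ + κ 0 ≠ 0 ∧ τ + κ 1 ≠ 0 := by
    have h1 : ∀ c : ℝ, ∀ᵐ τ : ℝ, τ + c ≠ 0 := by
      intro c
      have : ∀ᵐ τ : ℝ, τ ≠ -c := by
        rw [ae_iff]
        simp
      filter_upwards [this] with τ hτ h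
      exact hτ (by linarith)
    filter_upwards [h1 (κ 0), h1 (κ 1)] with τ h2 h3
    exact ⟨h2, h3⟩
  have h1 : ∫⁻ τ : ℝ, ∫⁻ η : E 2, ‖Z v κ b A (η, τ)‖ₑ ^ q ≤
      ∫⁻ τ : ℝ, Bd N (volume A) s r κ τ *
        (ENNReal.ofReal ((2 * Real.pi) ^ 2) * volume A) := by
    refine lintegral_mono_ae ?_
    filter_upwards [hae] with τ hτ
    exact hslice τ hτ.1 hτ.2
  refine h1.trans ?_
  rw [lintegral_mul_const' _ _ (ENNReal.mul_ne_top ENNReal.ofReal_ne_top hv), ha]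
  refine (mul_le_mul_left (Bd_int N a s r κ ha0 ha1 hr1 hr2 hs1 hsr) _).trans (le_of_eq ?_)
  have hCr := Cr_nonneg N r hr1
  have hr3 : 0 < 1 - r / 2 := by linarith
  have hs10 : 0 < s - 1 := by linarith
  have hs3 : s - 1 = q - 3 := by rw [hs]; ring
  have hCm : 0 ≤ Cm q N := by
    unfold Cm
    rw [← hr, ← hs, ← hs3]
    positivity
  rw [ENNReal.ofReal_rpow_of_nonneg ha0.le (by linarith), ← ENNReal.ofReal_mul (by positivity),
    ← ENNReal.ofReal_mul (by positivity), ← ENNReal.ofReal_mul hCm]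
  congr 1
  unfold Cm
  rw [← hr, ← hs, ← hs3]
  have h3 : a ^ ((q - 1) / 2) = a ^ ((s - 1) / 2) * a := by
    rw [← Real.rpow_add_one ha0.ne']
    congr 1
    rw [hs]
    ring
  rw [h3]
  ring

end Pool.Agent.Helper134_FE
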