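import Mathlib
import Pool.Agent.Helper134_FE.Quad6
set_option autoImplicit false

/-! `L^q` bounds for tame functions with quadratic modulations. -/

namespace Pool.Agent.Helper134_FE

open MeasureTheory Set Filter Topology Complex
open scoped ENNReal NNReal RealInnerProductSpace

/-- the modulation -/
noncomputable def mo (v : OrthonormalBasis (Fin 2) ℝ (E 2)) (κ : Fin 2 → ℝ) (b : E 2)
    (x : E 2) : ℂ := cexp (-((qu v κ b x : ℝ) : ℂ) * I)

theorem mo_norm (v : OrthonormalBasis (Fin 2) ℝ (E 2)) (κ : Fin 2 → ℝ) (b x : E 2) :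
    ‖mo v κ b x‖ = 1 := norm_ph _

theorem mo_cont (v : OrthonormalBasis (Fin 2) ℝ (E 2)) (κ : Fin 2 → ℝ) (b : E 2) :
    Continuous (mo v κ b) := by
  unfold mo
  have := qu_cont v κ b
  fun_prop

/-- layer cake for the modulated extension -/
theorem Z_layer (v : OrthonormalBasis (Fin 2) ℝ (E 2)) (κ : Fin 2 → ℝ) (b : E 2)
    (f : E 2 → ℝ) (hf : Measurable f)
    (hI : Integrable fun x => max (f x) 0) (z : E 2 × ℝ) :
    ‖X (fun x => mo v κ b x * ((max (f x) 0 : ℝ) : ℂ)) z‖ₑ ≤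
      ∫⁻ s in Ioi (0:ℝ), ‖Z v κ b {x | s < f x} z‖ₑ := by
  have hw : Measurable fun x => ph x z * mo v κ b x :=
    ((ph_cont.comp (continuous_id.prodMk continuous_const)).mul (mo_cont v κ b)).measurable
  have h := layer (fun x => ph x z * mo v κ b x) hw
    (fun x => by rw [norm_mul, ph_norm, mo_norm, one_mul]) f hf hI
  have e1 : X (fun x => mo v κ b x * ((max (f x) 0 : ℝ) : ℂ)) z =
      ∫ x, ph x z * mo v κ b x * ((max (f x) 0 : ℝ) : ℂ) := by
    unfold X
    simp only [mul_assoc]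
  have e2 : ∀ s : ℝ, ∫ x, ph x z * mo v κ b x * {x | s < f x}.indicator (1 : E 2 → ℂ) x =
      Z v κ b {x | s < f x} z := by
    intro s
    unfold Z X mo
    simp only [mul_assoc]
  rw [e1, h]
  simp_rw [e2]
  exact enorm_integral_le_lintegral_enorm _

theorem ZA_meas (v : OrthonormalBasis (Fin 2) ℝ (E 2)) (κ : Fin 2 → ℝ) (b : E 2)
    (f : E 2 → ℝ) (hf : Measurable f) :
    Measurable (Function.uncurry fun (z : E 2 × ℝ) (s : ℝ) =>
      ‖Z v κ b {x | s < f x} z‖ₑ) := by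
  have h1 : Measurable fun p : ((E 2 × ℝ) × ℝ) × E 2 =>
      ph p.2 p.1.1 * (mo v κ b p.2 * {x | p.1.2 < f x}.indicator (1 : E 2 → ℂ) p.2) := by
    refine Measurable.mul ?_ (Measurable.mul ?_ ?_)
    · have h5 : Continuous fun p : ((E 2 × ℝ) × ℝ) × E 2 => ph p.2 p.1.1 := by
        unfold ph
        fun_prop
      exact h5.measurable
    · exact (mo_cont v κ b).measurable.comp measurable_snd
    · have h2 : Measurable fun p : ((E 2 × ℝ) × ℝ) × E 2 =>
          ({p : E 2 × ℝ | p.2 < f p.1}.indicator (fun _ => (1:ℂ)) (p.2, p.1.2)) := by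
        have h3 : Measurable ({p : E 2 × ℝ | p.2 < f p.1}.indicator (fun _ => (1:ℂ))) :=
          measurable_const.indicator (sub_meas f hf)
        exact h3.comp (measurable_snd.prodMk (measurable_snd.comp measurable_fst))
      exact h2
  have h4 : StronglyMeasurable fun p : (E 2 × ℝ) × ℝ =>
      ∫ x, ph x p.1 * (mo v κ b x * {x | p.2 < f x}.indicator (1 : E 2 → ℂ) x) :=
    h1.stronglyMeasurable.integral_prod_right'
  exact h4.measurable.enorm

theorem modfun_bound (v : OrthonormalBasis (Fin 2) ℝ (E 2)) (κ : Fin 2 → ℝ) (b : E 2)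
    (q : ℝ) (hq : 3 < q) (N : ℕ) (f : E 2 → ℝ) (hf : Measurable f)
    (hT : ∀ s : ℝ, 0 < s → Tame N {x | s < f x})
    (hb : ∀ s : ℝ, 0 < s → ∀ x, s < f x → ‖x‖ ≤ 1 / 2)
    (hv : ∀ s : ℝ, 0 < s → volume {x | s < f x} ≤ 1) :
    ∫⁻ z, ‖X (fun x => mo v κ b x * ((max (f x) 0 : ℝ) : ℂ)) z‖ₑ ^ q ≤
      (ENNReal.ofReal (Cm q N) ^ (1 / q) *
        ∫⁻ s in Ioi (0:ℝ), volume {x | s < f x} ^ ((q - 1) / 2 / q)) ^ q := by
  have hq0 : 0 < q := by linarith
  have hfm : Measurable fun x => max (f x) 0 := hf.max measurable_const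
  by_cases hI : Integrable fun x => max (f x) 0
  swap
  · have hn : ¬ Integrable fun x => mo v κ b x * ((max (f x) 0 : ℝ) : ℂ) := by
      intro h
      refine hI ?_
      have h1 := h.norm
      have e : (fun x => ‖mo v κ b x * ((max (f x) 0 : ℝ) : ℂ)‖) = fun x => max (f x) 0 := by
        ext x
        rw [norm_mul, mo_norm, one_mul, Complex.norm_real, Real.norm_eq_abs,
          abs_of_nonneg (le_max_right _ _)]
      rwa [e] at h1
    have h0 : ∀ z, X (fun x => mo v κ b x * ((max (f x) 0 : ℝ) : ℂ)) z = 0 := by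
      intro z
      refine X_undef _ hn ?_ z
      exact ((mo_cont v κ b).measurable.mul
        (Complex.measurable_ofReal.comp hfm)).aestronglyMeasurable
    simp_rw [h0]
    simp [hq0]
  refine (lintegral_mono fun z => ENNReal.rpow_le_rpow (Z_layer v κ b f hf hI z) hq0.le).trans ?_
  refine (mink volume (volume.restrict (Ioi (0:ℝ)))
    (fun (z : E 2 × ℝ) (s : ℝ) => ‖Z v κ b {x | s < f x} z‖ₑ) (ZA_meas v κ b f hf) q
    (by linarith)).trans ?_
  refine ENNReal.rpow_le_rpow ?_ hq0.le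
  rw [← lintegral_const_mul' _ _ (ENNReal.rpow_ne_top_of_nonneg (by positivity)
    ENNReal.ofReal_ne_top)]
  refine setLIntegral_mono' measurableSet_Ioi fun s hs => ?_
  have hA : MeasurableSet {x | s < f x} := measurableSet_lt measurable_const hf
  have h1 := Zset_bound v κ b q hq N {x | s < f x} hA (hT s hs) (hb s hs) (hv s hs)
  refine (ENNReal.rpow_le_rpow h1 (by positivity : 0 ≤ 1 / q)).trans (le_of_eq ?_)
  rw [ENNReal.mul_rpow_of_nonneg _ _ (by positivity), ← ENNReal.rpow_mul]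
  congr 2
  field_simp

/-- Lorentz norm against the `L^q` norm -/
theorem lorentz_le (q : ℝ) (hq : 3 < q) (W : ℝ → ℝ≥0∞) (Λ : ℝ≥0∞)
    (h1 : ∀ s : ℝ, 0 < s → W s ≤ 1)
    (h2 : ∀ s : ℝ, 0 < s → W s ≤ (Λ / ENNReal.ofReal s) ^ q) :
    ∫⁻ s in Ioi (0:ℝ), W s ^ ((q - 1) / 2 / q) ≤ ENNReal.ofReal (1 + 2 / (q - 3)) * Λ := by
  have hq0 : 0 < q := by linarith
  have hq3 : 0 < q - 3 := by linarith
  have hc : 0 < 1 + 2 / (q - 3) := by positivity
  by_cases hΛ : Λ = ∞
  · rw [hΛ, ENNReal.mul_top]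
    · exact le_top
    · simpa using hc
  by_cases hΛ0 : Λ = 0
  · have : ∀ s ∈ Ioi (0:ℝ), W s ^ ((q - 1) / 2 / q) = 0 := by
      intro s hs
      have hs' : (0:ℝ) < s := hs
      have h3 := h2 s hs
      rw [hΛ0, ENNReal.zero_div, ENNReal.zero_rpow_of_pos hq0] at h3
      rw [le_antisymm h3 zero_le, ENNReal.zero_rpow_of_pos (div_pos (by linarith) hq0)]
    rw [setLIntegral_congr_fun measurableSet_Ioi this]
    simp
  obtain ⟨l, hl0, hl⟩ : ∃ l : ℝ, 0 < l ∧ Λ = ENNReal.ofReal l :=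
    ⟨Λ.toReal, ENNReal.toReal_pos hΛ0 hΛ, (ENNReal.ofReal_toReal hΛ).symm⟩
  have hsplit : Ioi (0:ℝ) = Ioc 0 l ∪ Ioi l := by
    rw [Ioc_union_Ioi_eq_Ioi hl0.le]
  rw [hsplit]
  refine (lintegral_union_le _ _ _).trans ?_
  have b1 : ∫⁻ s in Ioc 0 l, W s ^ ((q - 1) / 2 / q) ≤ ENNReal.ofReal l := by
    have : ∫⁻ s in Ioc 0 l, W s ^ ((q - 1) / 2 / q) ≤ ∫⁻ s in Ioc 0 l, 1 := by
      refine setLIntegral_mono' measurableSet_Ioc fun s hs => ?_
      exact ENNReal.rpow_le_one (h1 s hs.1) (div_nonneg (by linarith) hq0.le)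
    refine this.trans (le_of_eq ?_)
    rw [setLIntegral_const, Real.volume_Ioc, sub_zero, one_mul]
  have b2 : ∫⁻ s in Ioi l, W s ^ ((q - 1) / 2 / q) ≤ ENNReal.ofReal (2 / (q - 3) * l) := by
    have : ∫⁻ s in Ioi l, W s ^ ((q - 1) / 2 / q) ≤
        ∫⁻ s in Ioi l, ENNReal.ofReal (l / s) ^ ((q - 1) / 2) := by
      refine setLIntegral_mono' measurableSet_Ioi fun s hs => ?_
      have hs0 : 0 < s := hl0.trans hs
      refine (ENNReal.rpow_le_rpow (h2 s hs0) (div_nonneg (by linarith) hq0.le)).trans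
        (le_of_eq ?_)
      rw [← ENNReal.rpow_mul, hl, ← ENNReal.ofReal_div_of_pos hs0]
      congr 1
      field_simp
    refine this.trans (le_of_eq ?_)
    rw [tau_tail l l ((q - 1) / 2) hl0.le hl0 (by linarith)]
    congr 1
    have h3 : l ^ ((q - 1) / 2) * l ^ (1 - (q - 1) / 2) = l := by
      rw [← Real.rpow_add hl0]
      rw [show (q - 1) / 2 + (1 - (q - 1) / 2) = 1 by ring, Real.rpow_one]
    have h4 : (q - 1) / 2 - 1 = (q - 3) / 2 := by ring
    rw [h4]
    calc l ^ ((q - 1) / 2) * (l ^ (1 - (q - 1) / 2) / ((q - 3) / 2))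
        = (l ^ ((q - 1) / 2) * l ^ (1 - (q - 1) / 2)) * (2 / (q - 3)) := by
          field_simp
      _ = _ := by rw [h3]; ring
  refine (add_le_add b1 b2).trans (le_of_eq ?_)
  rw [hl, ← ENNReal.ofReal_add hl0.le (by positivity), ← ENNReal.ofReal_mul hc.le]
  congr 1
  ring

end Pool.Agent.Helper134_FE
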