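import Mathlib
import Pool.Agent.Helper134_FE.Fun3
set_option autoImplicit false

/-! The extension operator of the paraboloid on `ℝ³`. -/

namespace Pool.Agent.Helper134_FE

open MeasureTheory Set Filter Topology Complex
open scoped ENNReal NNReal RealInnerProductSpace

/-- the paraboloid `x ↦ (x_1, x_2, x_1^2 + x_2^2)` -/
noncomputable def Phi (x : E 2) : E 3 := !₂[x 0, x 1, x 0 ^ 2 + x 1 ^ 2]

/-- the Fourier extension operator of the paraboloid over `U` -/
noncomputable def ext (U : Set (E 2)) (f : E 2 → ℂ) (ξ : E 3) : ℂ :=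
  ∫ x in U, cexp (-((⟪Phi x, ξ⟫ : ℝ) : ℂ) * I) * f x

/-- splitting of the space -/
noncomputable def S3 : E 3 ≃ᵐ E 2 × ℝ :=
  ((MeasurableEquiv.toLp 2 (Fin 3 → ℝ)).symm.trans
    (MeasurableEquiv.piFinSuccAbove (fun _ : Fin 3 => ℝ) (Fin.last 2))).trans
    (MeasurableEquiv.prodComm.trans
      ((MeasurableEquiv.toLp 2 (Fin 2 → ℝ)).prodCongr (MeasurableEquiv.refl ℝ)))

theorem S3_mp : MeasurePreserving S3 volume volume := by
  have h1 : MeasurePreserving (MeasurableEquiv.toLp 2 (Fin 3 → ℝ)).symm volume volume :=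
    PiLp.volume_preserving_ofLp (Fin 3)
  have h2 := volume_preserving_piFinSuccAbove (fun _ : Fin 3 => ℝ) (Fin.last 2)
  have h3 : MeasurePreserving (MeasurableEquiv.prodComm : ℝ × (Fin 2 → ℝ) ≃ᵐ (Fin 2 → ℝ) × ℝ)
      (volume.prod volume) (volume.prod volume) := Measure.measurePreserving_swap
  have h4 : MeasurePreserving ((MeasurableEquiv.toLp 2 (Fin 2 → ℝ)).prodCongr
      (MeasurableEquiv.refl ℝ)) (volume.prod volume) (volume.prod volume) :=
    (PiLp.volume_preserving_toLp (Fin 2)).prod (MeasurePreserving.id volume)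
  exact h4.comp (h3.comp (h2.comp h1))

theorem S3_fst (ξ : E 3) : (S3 ξ).1 = !₂[ξ 0, ξ 1] := by
  ext i
  fin_cases i <;> rfl

theorem S3_snd (ξ : E 3) : (S3 ξ).2 = ξ 2 := rfl

theorem inner_Phi (x : E 2) (ξ : E 3) : ⟪Phi x, ξ⟫ = ⟪x, (S3 ξ).1⟫ + (S3 ξ).2 * ‖x‖ ^ 2 := by
  rw [S3_fst, S3_snd, norm_sq2]
  unfold Phi
  simp only [PiLp.inner_apply, Fin.sum_univ_three, Fin.sum_univ_two]
  simp

theorem ext_eq (U : Set (E 2)) (hU : MeasurableSet U) (f : E 2 → ℂ) (ξ : E 3) :
    ext U f ξ = X (U.indicator f) (S3 ξ) := by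
  unfold ext X
  rw [← integral_indicator hU]
  congr 1
  ext x
  by_cases hx : x ∈ U
  · rw [indicator_of_mem hx, indicator_of_mem hx]
    unfold ph
    rw [inner_Phi]
  · rw [indicator_of_notMem hx, indicator_of_notMem hx, mul_zero]

theorem ext_norm (U : Set (E 2)) (hU : MeasurableSet U) (f : E 2 → ℂ) (q : ℝ≥0∞) :
    eLpNorm (ext U f) q volume = eLpNorm (X (U.indicator f)) q volume := by
  have h1 : ext U f = X (U.indicator f) ∘ S3 := by
    ext ξ
    exact ext_eq U hU f ξ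
  rw [h1, ← S3.measurableEmbedding.eLpNorm_map_measure, S3_mp.map_eq]

end Pool.Agent.Helper134_FE
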