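import Mathlib
import Pool.Agent.Helper134_FE.Ext
set_option autoImplicit false

/-! The main estimates. -/

namespace Pool.Agent.Helper134_FE

open MeasureTheory Set Filter Topology Complex
open scoped ENNReal NNReal RealInnerProductSpace

/-- tame functions: the superlevel sets of the positive and negative parts of the real and
imaginary parts meet every line in at most `N` intervals -/
def TameFun (N : ℕ) (U : Set (E 2)) (f : E 2 → ℂ) : Prop :=
  ∀ θ : ℂ, (θ = 1 ∨ θ = -1 ∨ θ = I ∨ θ = -I) → ∀ s : ℝ, 0 < s → Tame N {x | x ∈ U ∧ s < (θ * f x).re}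

theorem eL (g : E 2 × ℝ → ℂ) (q : ℝ) (hq : 0 < q) :
    eLpNorm g (ENNReal.ofReal q) volume = (∫⁻ z, ‖g z‖ₑ ^ q) ^ (1 / q) := by
  rw [eLpNorm_eq_lintegral_rpow_enorm_toReal (by simpa using hq) ENNReal.ofReal_ne_top,
    ENNReal.toReal_ofReal hq.le]

/-- the four real parts -/
theorem four (w : ℂ) : w = ((max w.re 0 : ℝ) : ℂ) - ((max (-w.re) 0 : ℝ) : ℂ) +
    I * (((max w.im 0 : ℝ) : ℂ) - ((max (-w.im) 0 : ℝ) : ℂ)) := by
  have h : ∀ a : ℝ, max a 0 - max (-a) 0 = a := by
    intro a
    rcases le_total 0 a with h | h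
    · rw [max_eq_left h, max_eq_right (by linarith)]; ring
    · rw [max_eq_right h, max_eq_left (by linarith)]; ring
  rw [← Complex.ofReal_sub, ← Complex.ofReal_sub, h, h, mul_comm]
  exact (Complex.re_add_im w).symm

theorem X_add (g h : E 2 → ℂ) (hg : Integrable g) (hh : Integrable h) (z : E 2 × ℝ) :
    X (fun x => g x + h x) z = X g z + X h z := by
  unfold X
  have e : ∀ k : E 2 → ℂ, Integrable k → Integrable fun x => ph x z * k x := by
    intro k hk
    refine hk.norm.mono' ?_ (Eventually.of_forall fun x => ?_)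
    · exact (ph_cont.comp (continuous_id.prodMk continuous_const)).aestronglyMeasurable.mul
        hk.aestronglyMeasurable
    · rw [norm_mul, ph_norm, one_mul]
  rw [← integral_add (e g hg) (e h hh)]
  congr 1
  ext x
  ring

theorem X_smul (g : E 2 → ℂ) (c : ℂ) (z : E 2 × ℝ) :
    X (fun x => c * g x) z = c * X g z := by
  unfold X
  rw [← integral_const_mul]
  congr 1
  ext x
  ring

/-- from the four parts to complex functions -/
theorem four_bound (w : E 2 → ℂ) (hw : Continuous w) (hw1 : ∀ x, ‖w x‖ = 1) (g : E 2 → ℂ)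
    (hg : Measurable g) (q : ℝ) (hq : 1 ≤ q) (R : ℝ≥0∞)
    (hR : ∀ θ : ℂ, (θ = 1 ∨ θ = -1 ∨ θ = I ∨ θ = -I) →
      eLpNorm (X fun x => w x * ((max (θ * g x).re 0 : ℝ) : ℂ)) (ENNReal.ofReal q) volume ≤ R) :
    eLpNorm (X fun x => w x * g x) (ENNReal.ofReal q) volume ≤ 4 * R := by
  by_cases hI : Integrable g
  swap
  · have hn : ¬ Integrable fun x => w x * g x := by
      intro h
      refine hI ?_
      have h1 := h.norm
      have e : (fun x => ‖w x * g x‖) = fun x => ‖g x‖ := by
        ext x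
        rw [norm_mul, hw1, one_mul]
      rw [e] at h1
      exact (integrable_norm_iff hg.aestronglyMeasurable).1 h1
    have h0 : (X fun x => w x * g x) = 0 := by
      ext z
      exact X_undef _ hn (hw.measurable.mul hg).aestronglyMeasurable z
    rw [h0, eLpNorm_zero]
    exact zero_le
  have hpart : ∀ θ : ℂ, ‖θ‖ ≤ 1 →
      Integrable fun x => w x * ((max (θ * g x).re 0 : ℝ) : ℂ) := by
    intro θ hθ
    refine hI.norm.mono' ?_ (Eventually.of_forall fun x => ?_)
    · refine (hw.measurable.mul ?_).aestronglyMeasurable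
      exact Complex.measurable_ofReal.comp
        (((Complex.measurable_re.comp (hg.const_mul θ))).max measurable_const)
    · rw [norm_mul, hw1, one_mul, Complex.norm_real, Real.norm_eq_abs,
        abs_of_nonneg (le_max_right _ _)]
      refine max_le ?_ (norm_nonneg _)
      refine (Complex.re_le_norm _).trans ?_
      rw [norm_mul]
      exact mul_le_of_le_one_left (norm_nonneg _) hθ
  set P : ℂ → E 2 × ℝ → ℂ := fun θ => X fun x => w x * ((max (θ * g x).re 0 : ℝ) : ℂ) with hP
  have hPc : ∀ θ : ℂ, ‖θ‖ ≤ 1 → Continuous (P θ) := fun θ hθ => X_cont _ (hpart θ hθ)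
  have n1 : ‖(1:ℂ)‖ ≤ 1 := by simp
  have n2 : ‖(-1:ℂ)‖ ≤ 1 := by simp
  have n3 : ‖(I:ℂ)‖ ≤ 1 := by simp
  have n4 : ‖(-I:ℂ)‖ ≤ 1 := by simp
  have hdec : (X fun x => w x * g x) = fun z =>
      (P 1 z + (-1) * P (-1) z) + (I * P (-I) z + (-I) * P I z) := by
    ext z
    have e1 : (fun x => w x * g x) = fun x =>
        (w x * ((max ((1:ℂ) * g x).re 0 : ℝ) : ℂ) +
          (-1) * (w x * ((max ((-1:ℂ) * g x).re 0 : ℝ) : ℂ))) +
        (I * (w x * ((max ((-I) * g x).re 0 : ℝ) : ℂ)) +
          (-I) * (w x * ((max (I * g x).re 0 : ℝ) : ℂ))) := by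
      ext x
      have h := four (g x)
      have t1 : ((1:ℂ) * g x).re = (g x).re := by rw [one_mul]
      have t2 : ((-1:ℂ) * g x).re = -(g x).re := by simp
      have t3 : ((-I:ℂ) * g x).re = (g x).im := by simp
      have t4 : ((I:ℂ) * g x).re = -(g x).im := by simp
      rw [t1, t2, t3, t4]
      conv_lhs => rw [h]
      ring
    rw [e1]
    set p : ℂ → E 2 → ℂ := fun θ x => w x * ((max (θ * g x).re 0 : ℝ) : ℂ) with hp
    have i1 : Integrable (fun x => (-1 : ℂ) * p (-1) x) := (hpart (-1) n2).const_mul _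
    have i2 : Integrable (fun x => I * p (-I) x) := (hpart (-I) n4).const_mul _
    have i3 : Integrable (fun x => (-I) * p I x) := (hpart I n3).const_mul _
    have j1 : Integrable (fun x => p 1 x + (-1 : ℂ) * p (-1) x) := (hpart 1 n1).add i1
    have j2 : Integrable (fun x => I * p (-I) x + (-I) * p I x) := i2.add i3
    have k1 := X_add (fun x => p 1 x + (-1 : ℂ) * p (-1) x)
      (fun x => I * p (-I) x + (-I) * p I x) j1 j2 z
    have k2 := X_add (p 1) (fun x => (-1 : ℂ) * p (-1) x) (hpart 1 n1) i1 z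
    have k3 := X_add (fun x => I * p (-I) x) (fun x => (-I) * p I x) i2 i3 z
    rw [X_smul] at k2
    rw [X_smul, X_smul] at k3
    rw [k2, k3] at k1
    exact k1
  have hq1 : 1 ≤ ENNReal.ofReal q := by
    rw [← ENNReal.ofReal_one]
    exact ENNReal.ofReal_le_ofReal hq
  have hc : ∀ (c θ : ℂ), ‖c‖ = 1 → (θ = 1 ∨ θ = -1 ∨ θ = I ∨ θ = -I) →
      eLpNorm (fun z => c * P θ z) (ENNReal.ofReal q) volume ≤ R := by
    intro c θ hcn hθ
    have : eLpNorm (fun z => c * P θ z) (ENNReal.ofReal q) volume =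
        eLpNorm (P θ) (ENNReal.ofReal q) volume := by
      refine eLpNorm_congr_norm_ae (Eventually.of_forall fun z => ?_)
      rw [norm_mul, hcn, one_mul]
    rw [this]
    exact hR θ hθ
  have m : ∀ (c θ : ℂ), ‖θ‖ ≤ 1 →
      AEStronglyMeasurable (fun z => c * P θ z) (volume : Measure (E 2 × ℝ)) := fun c θ hθ =>
    (continuous_const.mul (hPc θ hθ)).aestronglyMeasurable
  rw [hdec]
  have a1 : eLpNorm (fun z => P 1 z + (-1) * P (-1) z) (ENNReal.ofReal q) volume ≤ R + R := by
    refine (eLpNorm_add_le (hPc 1 n1).aestronglyMeasurable (m _ _ n2) hq1).trans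
      (add_le_add (hR 1 (Or.inl rfl)) (hc _ _ (by simp) (Or.inr (Or.inl rfl))))
  have a2 : eLpNorm (fun z => I * P (-I) z + (-I) * P I z) (ENNReal.ofReal q) volume ≤
      R + R := by
    refine (eLpNorm_add_le (m _ _ n4) (m _ _ n3) hq1).trans
      (add_le_add (hc _ _ (by simp) (Or.inr (Or.inr (Or.inr rfl))))
        (hc _ _ (by simp) (Or.inr (Or.inr (Or.inl rfl)))))
  refine (eLpNorm_add_le ((hPc 1 n1).aestronglyMeasurable.add (m _ _ n2))
    ((m _ _ n4).add (m _ _ n3)) hq1).trans ?_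
  refine (add_le_add a1 a2).trans (le_of_eq ?_)
  ring

end Pool.Agent.Helper134_FE
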