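import Mathlib
import Pool.Agent.Helper134_FE.MainA
set_option autoImplicit false

/-! The main estimates: conclusion. -/

namespace Pool.Agent.Helper134_FE

open MeasureTheory Set Filter Topology Complex Metric
open scoped ENNReal NNReal RealInnerProductSpace

theorem level_eq (U : Set (E 2)) (f : E 2 → ℂ) (θ : ℂ) (s : ℝ) (hs : 0 < s) :
    {x | s < (θ * U.indicator f x).re} = {x | x ∈ U ∧ s < (θ * f x).re} := by
  ext x
  by_cases hx : x ∈ U
  · simp only [mem_ofPred_eq, indicator_of_mem hx, hx, true_and]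
  · simp only [mem_ofPred_eq, indicator_of_notMem hx, hx, false_and, iff_false, mul_zero,
      Complex.zero_re, not_lt]
    exact hs.le

theorem level_sub (U : Set (E 2)) (f : E 2 → ℂ) (θ : ℂ) (hθ : θ = 1 ∨ θ = -1 ∨ θ = I ∨ θ = -I)
    (s : ℝ) (hs : 0 < s) :
    {x | s < (θ * U.indicator f x).re} ⊆ {x | x ∈ U ∧ s < ‖f x‖} := by
  rw [level_eq U f θ s hs]
  rintro x ⟨hx, h⟩
  refine ⟨hx, h.trans_le ((Complex.re_le_norm _).trans ?_)⟩
  rw [norm_mul]
  have : ‖θ‖ = 1 := by rcases hθ with h | h | h | h <;> simp [h]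
  rw [this, one_mul]

theorem ball_vol (U : Set (E 2)) (hUb : U ⊆ ball 0 (1 / 2)) : volume U ≤ 1 := by
  refine (measure_mono hUb).trans ?_
  rw [EuclideanSpace.volume_ball_fin_two, ← ENNReal.ofReal_pow (by norm_num)]
  rw [← ENNReal.ofReal_mul (by norm_num), ENNReal.ofReal_le_one]
  have := Real.pi_lt_four
  nlinarith

theorem re_meas (U : Set (E 2)) (hU : MeasurableSet U) (f : E 2 → ℂ) (hf : Measurable f)
    (θ : ℂ) : Measurable fun x => (θ * U.indicator f x).re :=
  Complex.measurable_re.comp ((hf.indicator hU).const_mul θ)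

theorem cheb (U : Set (E 2)) (f : E 2 → ℂ) (hf : Measurable f) (q : ℝ)
    (hq : 0 < q) (s : ℝ) (hs : 0 < s) :
    volume {x | x ∈ U ∧ s < ‖f x‖} ≤
      (eLpNorm f (ENNReal.ofReal q) (volume.restrict U) / ENNReal.ofReal s) ^ q := by
  have h := meas_ge_le_mul_pow_eLpNorm_enorm (μ := volume.restrict U) (f := f)
    (p := ENNReal.ofReal q) (by simpa using hq) ENNReal.ofReal_ne_top hf.aestronglyMeasurable
    (ε := ENNReal.ofReal s) (by simpa using hs) (fun h => absurd h ENNReal.ofReal_ne_top)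
  rw [ENNReal.toReal_ofReal hq.le, ← ENNReal.mul_rpow_of_nonneg _ _ hq.le, mul_comm,
    ← div_eq_mul_inv] at h
  refine le_trans ?_ h
  have hm : MeasurableSet {x | ENNReal.ofReal s ≤ ‖f x‖ₑ} :=
    measurableSet_le measurable_const hf.enorm
  rw [Measure.restrict_apply hm]
  refine measure_mono ?_
  rintro x ⟨hx, h1⟩
  refine ⟨?_, hx⟩
  show ENNReal.ofReal s ≤ ‖f x‖ₑ
  rw [← ofReal_norm]
  exact ENNReal.ofReal_le_ofReal h1.le

theorem mainA (q : ℝ) (hq : 3 < q) (N : ℕ) :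
    ∃ C : ℝ≥0, ∀ (U : Set (E 2)) (f : E 2 → ℂ) (v : OrthonormalBasis (Fin 2) ℝ (E 2))
      (κ : Fin 2 → ℝ) (b : E 2), MeasurableSet U → U ⊆ ball 0 (1 / 2) → Measurable f →
      TameFun N U f →
      eLpNorm (ext U fun x => cexp (((κ 0 * ⟪v 0, x⟫ ^ 2 + κ 1 * ⟪v 1, x⟫ ^ 2 + ⟪b, x⟫ : ℝ) : ℂ)
        * I) * f x) (ENNReal.ofReal q) volume ≤
        C * eLpNorm f (ENNReal.ofReal q) (volume.restrict U) := by
  have hq0 : 0 < q := by linarith
  have hK : ENNReal.ofReal (Cm q N) ^ (1 / q) * ENNReal.ofReal (1 + 2 / (q - 3)) ≠ ∞ :=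
    ENNReal.mul_ne_top (ENNReal.rpow_ne_top_of_nonneg (by positivity) ENNReal.ofReal_ne_top)
      ENNReal.ofReal_ne_top
  refine ⟨(4 * (ENNReal.ofReal (Cm q N) ^ (1 / q) * ENNReal.ofReal (1 + 2 / (q - 3)))).toNNReal,
    ?_⟩
  intro U f v κ b hU hUb hf hT
  rw [ENNReal.coe_toNNReal (ENNReal.mul_ne_top (by norm_num) hK), ext_norm U hU]
  have e1 : (U.indicator fun x => cexp (((κ 0 * ⟪v 0, x⟫ ^ 2 + κ 1 * ⟪v 1, x⟫ ^ 2 + ⟪b, x⟫ : ℝ) : ℂ)
        * I) * f x) = fun x => mo v (-κ) (-b) x * U.indicator f x := by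
    ext x
    by_cases hx : x ∈ U
    · rw [indicator_of_mem hx, indicator_of_mem hx]
      unfold mo qu
      congr 2
      simp only [Pi.neg_apply, inner_neg_left]
      push_cast
      ring
    · rw [indicator_of_notMem hx, indicator_of_notMem hx, mul_zero]
  rw [e1, mul_assoc]
  refine four_bound (mo v (-κ) (-b)) (mo_cont _ _ _) (mo_norm _ _ _) (U.indicator f)
    (hf.indicator hU) q (by linarith) _ ?_
  intro θ hθ
  rw [eL _ q hq0]
  have h1 := modfun_bound v (-κ) (-b) q hq N (fun x => (θ * U.indicator f x).re)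
    (re_meas U hU f hf θ)
    (fun s hs => by rw [level_eq U f θ s hs]; exact hT θ hθ s hs)
    (fun s hs x hx => by
      have h2 := level_sub U f θ hθ s hs hx
      have h3 := hUb h2.1
      rw [mem_ball_zero_iff] at h3
      exact h3.le)
    (fun s hs => (measure_mono ((level_sub U f θ hθ s hs).trans fun x hx => hx.1)).trans
      (ball_vol U hUb))
  refine (ENNReal.rpow_le_rpow h1 (by positivity : 0 ≤ 1 / q)).trans ?_
  rw [← ENNReal.rpow_mul, mul_one_div_cancel hq0.ne', ENNReal.rpow_one, mul_assoc]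
  gcongr
  refine lorentz_le q hq _ _ ?_ ?_
  · intro s hs
    exact (measure_mono ((level_sub U f θ hθ s hs).trans fun x hx => hx.1)).trans
      (ball_vol U hUb)
  · intro s hs
    exact (measure_mono (level_sub U f θ hθ s hs)).trans (cheb U f hf q hq0 s hs)

theorem mainB (q : ℝ) (hq : 3 < q) (N : ℕ) :
    ∃ C : ℝ≥0, ∀ (U : Set (E 2)) (f : E 2 → ℂ), MeasurableSet U → Measurable f →
      TameFun N U f →
      eLpNorm (ext U f) (ENNReal.ofReal q) volume ≤
        C * ∫⁻ s in Ioi (0:ℝ), volume {x | x ∈ U ∧ s < ‖f x‖} ^ (1 - 2 / q) := by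
  have hq0 : 0 < q := by linarith
  have hK : ENNReal.ofReal (Cq q N) ^ (1 / q) ≠ ∞ :=
    ENNReal.rpow_ne_top_of_nonneg (by positivity) ENNReal.ofReal_ne_top
  refine ⟨(4 * ENNReal.ofReal (Cq q N) ^ (1 / q)).toNNReal, ?_⟩
  intro U f hU hf hT
  rw [ENNReal.coe_toNNReal (ENNReal.mul_ne_top (by norm_num) hK), ext_norm U hU, mul_assoc]
  have e1 : U.indicator f = fun x => (fun _ : E 2 => (1:ℂ)) x * U.indicator f x := by
    ext x
    rw [one_mul]
  rw [e1]
  refine four_bound (fun _ => 1) continuous_const (fun _ => norm_one) (U.indicator f)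
    (hf.indicator hU) q (by linarith) _ ?_
  intro θ hθ
  rw [eL _ q hq0]
  simp only [one_mul]
  have h1 := fun_bound q hq N (fun x => (θ * U.indicator f x).re)
    (re_meas U hU f hf θ)
    (fun s hs => by rw [level_eq U f θ s hs]; exact hT θ hθ s hs)
  refine (ENNReal.rpow_le_rpow h1 (by positivity : 0 ≤ 1 / q)).trans ?_
  rw [← ENNReal.rpow_mul, mul_one_div_cancel hq0.ne', ENNReal.rpow_one]
  refine mul_le_mul_right (setLIntegral_mono' measurableSet_Ioi fun s hs => ?_) _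
  have h2q : 2 / q ≤ 1 := by rw [div_le_one hq0]; linarith
  exact ENNReal.rpow_le_rpow (measure_mono (level_sub U f θ hθ s hs)) (by linarith)

end Pool.Agent.Helper134_FE
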