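import Mathlib
import Pool.Agent.Helper134_FE.MainB
set_option autoImplicit false

/-! Examples of tame functions: quasi-concave and rational functions. -/

namespace Pool.Agent.Helper134_FE

open MeasureTheory Set Filter Topology Complex Metric Polynomial
open scoped ENNReal NNReal RealInnerProductSpace

theorem line_convex {A : Set (E 2)} (hA : Convex ℝ A) (y ω : E 2) :
    {t : ℝ | y + t • ω ∈ A}.OrdConnected := by
  have h1 : Convex ℝ {t : ℝ | y + t • ω ∈ A} := by
    intro s hs t ht a b ha hb hab
    have h2 := hA hs ht ha hb hab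
    show y + (a • s + b • t) • ω ∈ A
    have h3 : a • (y + s • ω) + b • (y + t • ω) = y + (a • s + b • t) • ω := by
      rw [smul_add, smul_add, add_smul, smul_smul, smul_smul]
      have h4 : a • y + b • y = y := by rw [← add_smul, hab, one_smul]
      simp only [smul_eq_mul]
      calc a • y + (a * s) • ω + (b • y + (b * t) • ω) =
          (a • y + b • y) + ((a * s) • ω + (b * t) • ω) := by abel
        _ = _ := by rw [h4]
    rw [← h3]
    exact h2
  exact h1.ordConnected

theorem tame_convex {A : Set (E 2)} (hA : Convex ℝ A) : Tame 1 A := by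
  intro y ω
  exact ⟨fun _ => {t : ℝ | y + t • ω ∈ A}, fun _ => line_convex hA y ω, (iUnion_const _).symm⟩

theorem poly_NInt (R : ℝ[X]) (m : ℕ) (hR : R.natDegree ≤ m) :
    NInt (m + 1) {t : ℝ | 0 < R.eval t} := by
  classical
  by_cases h0 : R = 0
  · refine ⟨fun _ => ∅, fun _ => ordConnected_empty, ?_⟩
    rw [h0]
    ext t
    simp
  set c : ℝ → ℕ := fun t => (R.roots.toFinset.filter (· < t)).card with hc
  have hmono : ∀ s t : ℝ, s ≤ t → R.roots.toFinset.filter (· < s) ⊆
      R.roots.toFinset.filter (· < t) := by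
    intro s t hst r hr
    rw [Finset.mem_filter] at hr ⊢
    exact ⟨hr.1, hr.2.trans_le hst⟩
  refine ⟨fun i => {t : ℝ | 0 < R.eval t ∧ c t = i}, fun i => ⟨?_⟩, ?_⟩
  · intro s hs t ht u hu
    have hs1 : 0 < R.eval s := hs.1
    have hs2 : c s = i := hs.2
    have ht1 : 0 < R.eval t := ht.1
    have ht2 : c t = i := ht.2
    have e1 : R.roots.toFinset.filter (· < s) = R.roots.toFinset.filter (· < t) :=
      Finset.eq_of_subset_of_card_le (hmono s t (hu.1.trans hu.2)) (by
        show c t ≤ c s
        rw [hs2, ht2])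
    have e2 : c u = i := by
      apply le_antisymm
      · rw [← ht2]
        exact Finset.card_le_card (hmono u t hu.2)
      · rw [← hs2]
        exact Finset.card_le_card (hmono s u hu.1)
    refine ⟨?_, e2⟩
    by_contra hneg
    push Not at hneg
    have hiv := intermediate_value_Icc' hu.1 R.continuous.continuousOn
    obtain ⟨r, hr, hr0⟩ := hiv ⟨hneg, hs1.le⟩
    have hrs : s < r := by
      rcases eq_or_lt_of_le hr.1 with h | h
      · exfalso
        rw [← h] at hr0
        have hr0' : R.eval s = 0 := hr0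
        linarith
      · exact h
    have hrt : r < t := by
      rcases eq_or_lt_of_le (hr.2.trans hu.2) with h | h
      · exfalso
        rw [h] at hr0
        have hr0' : R.eval t = 0 := hr0
        linarith
      · exact h
    have hmem : r ∈ R.roots.toFinset.filter (· < t) := by
      rw [Finset.mem_filter, Multiset.mem_toFinset, Polynomial.mem_roots h0]
      exact ⟨hr0, hrt⟩
    rw [← e1, Finset.mem_filter] at hmem
    exact lt_asymm hmem.2 hrs
  · ext t
    simp only [mem_iUnion, mem_ofPred_eq]
    constructor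
    · intro ht
      have h1 : c t < m + 1 := by
        have : c t ≤ R.natDegree := by
          refine (Finset.card_filter_le _ _).trans ?_
          exact (Multiset.toFinset_card_le _).trans (Polynomial.card_roots' R)
        omega
      exact ⟨⟨c t, h1⟩, ht, rfl⟩
    · rintro ⟨i, hi, -⟩
      exact hi

/-- the real part of a polynomial on the real line -/
noncomputable def reP (p : ℂ[X]) : ℝ[X] :=
  ∑ i ∈ Finset.range (p.natDegree + 1), C (p.coeff i).re * Polynomial.X ^ i

theorem reP_eval (p : ℂ[X]) (t : ℝ) : (reP p).eval t = (p.eval (t : ℂ)).re := by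
  unfold reP
  rw [Polynomial.eval_finsetSum, Polynomial.eval_eq_sum_range, Complex.re_sum]
  refine Finset.sum_congr rfl fun i _ => ?_
  rw [Polynomial.eval_mul, Polynomial.eval_C, Polynomial.eval_pow, Polynomial.eval_X,
    ← Complex.ofReal_pow, Complex.re_mul_ofReal]

theorem reP_deg (p : ℂ[X]) : (reP p).natDegree ≤ p.natDegree := by
  unfold reP
  refine Polynomial.natDegree_sum_le_of_forall_le _ _ fun i hi => ?_
  rw [Finset.mem_range] at hi
  exact (Polynomial.natDegree_C_mul_X_pow_le _ _).trans (by omega)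

/-- restriction of a polynomial to a line -/
noncomputable def lineP (P : MvPolynomial (Fin 2) ℂ) (y ω : E 2) : ℂ[X] :=
  MvPolynomial.eval₂ C (fun i => C (ω i : ℂ) * Polynomial.X + C (y i : ℂ)) P

theorem lineP_eval (P : MvPolynomial (Fin 2) ℂ) (y ω : E 2) (t : ℝ) :
    (lineP P y ω).eval (t : ℂ) = MvPolynomial.eval (fun i => ((y + t • ω) i : ℂ)) P := by
  unfold lineP
  rw [MvPolynomial.eval₂_eq', Polynomial.eval_finsetSum, MvPolynomial.eval_eq']
  refine Finset.sum_congr rfl fun d _ => ?_
  rw [Polynomial.eval_mul, Polynomial.eval_C, Polynomial.eval_prod]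
  congr 1
  refine Finset.prod_congr rfl fun i _ => ?_
  rw [Polynomial.eval_pow, Polynomial.eval_add, Polynomial.eval_mul, Polynomial.eval_C,
    Polynomial.eval_X, Polynomial.eval_C]
  congr 1
  simp only [PiLp.add_apply, PiLp.smul_apply, smul_eq_mul]
  push_cast
  ring

theorem lineP_deg (P : MvPolynomial (Fin 2) ℂ) (y ω : E 2) :
    (lineP P y ω).natDegree ≤ P.totalDegree := by
  unfold lineP
  rw [MvPolynomial.eval₂_eq']
  refine Polynomial.natDegree_sum_le_of_forall_le _ _ fun d hd => ?_
  refine Polynomial.natDegree_mul_le.trans ?_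
  rw [Polynomial.natDegree_C, zero_add]
  refine (Polynomial.natDegree_prod_le _ _).trans ?_
  refine le_trans ?_ (MvPolynomial.le_totalDegree hd)
  rw [Finsupp.sum_fintype _ _ (fun _ => rfl)]
  refine Finset.sum_le_sum fun i _ => ?_
  refine (Polynomial.natDegree_pow_le_of_le _ Polynomial.natDegree_linear_le).trans ?_
  rw [mul_one]

/-- rational functions are tame -/
theorem tame_rat (D : ℕ) (U : Set (E 2)) (hU : Convex ℝ U) (P Q : MvPolynomial (Fin 2) ℂ)
    (hP : P.totalDegree ≤ D) (hQ : Q.totalDegree ≤ D) :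
    TameFun (2 * D + 1) U fun x => MvPolynomial.eval (fun i => (x i : ℂ)) P /
      MvPolynomial.eval (fun i => (x i : ℂ)) Q := by
  intro θ hθ s hs y ω
  set p := lineP P y ω with hp
  set r := lineP Q y ω with hr
  set rc : ℂ[X] := r.map (starRingEnd ℂ) with hrc
  set W : ℂ[X] := C θ * p * rc - C (s : ℂ) * r * rc with hW
  have hrce : ∀ t : ℝ, rc.eval (t : ℂ) = (starRingEnd ℂ) (r.eval (t : ℂ)) := by
    intro t
    have h1 := Polynomial.eval_map_apply (p := r) (starRingEnd ℂ) (t : ℂ)
    rw [Complex.conj_ofReal] at h1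
    exact h1
  have hWd : W.natDegree ≤ 2 * D := by
    have d1 : p.natDegree ≤ D := (lineP_deg P y ω).trans hP
    have d2 : r.natDegree ≤ D := (lineP_deg Q y ω).trans hQ
    have d3 : rc.natDegree ≤ D := (Polynomial.natDegree_map_le).trans d2
    refine (Polynomial.natDegree_sub_le _ _).trans (max_le ?_ ?_)
    · refine Polynomial.natDegree_mul_le.trans ?_
      have := Polynomial.natDegree_C_mul_le θ p
      omega
    · refine Polynomial.natDegree_mul_le.trans ?_
      have := Polynomial.natDegree_C_mul_le (s : ℂ) r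
      omega
  have hWe : ∀ t : ℝ, (reP W).eval t = (θ * p.eval (t : ℂ) *
      (starRingEnd ℂ) (r.eval (t : ℂ))).re - s * ‖r.eval (t : ℂ)‖ ^ 2 := by
    intro t
    rw [reP_eval, hW, Polynomial.eval_sub, Polynomial.eval_mul, Polynomial.eval_mul,
      Polynomial.eval_mul, Polynomial.eval_mul, Polynomial.eval_C, Polynomial.eval_C, hrce,
      Complex.sub_re, mul_assoc (s : ℂ), Complex.mul_conj, ← Complex.ofReal_mul,
      Complex.ofReal_re, Complex.normSq_eq_norm_sq]
  have key : ∀ t : ℝ, (s < (θ * (p.eval (t : ℂ) / r.eval (t : ℂ))).re) ↔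
      0 < (reP W).eval t := by
    intro t
    rw [hWe]
    by_cases h0 : r.eval (t : ℂ) = 0
    · rw [h0]
      simp
      exact hs.le
    · have hn : 0 < ‖r.eval (t : ℂ)‖ ^ 2 := by
        have := norm_pos_iff.2 h0
        positivity
      have e : θ * (p.eval (t : ℂ) / r.eval (t : ℂ)) =
          (θ * p.eval (t : ℂ) * (starRingEnd ℂ) (r.eval (t : ℂ))) *
            (((‖r.eval (t : ℂ)‖ ^ 2)⁻¹ : ℝ) : ℂ) := by
        have h1 : r.eval (t : ℂ) * (starRingEnd ℂ) (r.eval (t : ℂ)) =
            ((‖r.eval (t : ℂ)‖ ^ 2 : ℝ) : ℂ) := by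
          rw [Complex.mul_conj, Complex.normSq_eq_norm_sq]
        have h2 : ((‖r.eval (t : ℂ)‖ ^ 2 : ℝ) : ℂ) ≠ 0 := by
          exact_mod_cast hn.ne'
        rw [Complex.ofReal_inv, ← h1]
        rw [← h1] at h2
        have h3 : (starRingEnd ℂ) (r.eval (t : ℂ)) ≠ 0 := right_ne_zero_of_mul h2
        field_simp
      rw [e, Complex.re_mul_ofReal, ← div_eq_mul_inv, lt_div_iff₀ hn]
      constructor
      · intro h; linarith
      · intro h; linarith
  have h3 := (poly_NInt (reP W) (2 * D) ((reP_deg W).trans hWd)).inter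
    (line_convex hU y ω)
  obtain ⟨J, hJ, hJe⟩ := h3
  refine ⟨J, hJ, ?_⟩
  rw [← hJe]
  ext t
  simp only [mem_ofPred_eq, mem_inter_iff]
  rw [← key t, hp, hr, lineP_eval, lineP_eval]
  tauto

/-- quasi-concave functions are tame -/
theorem tame_qc (U : Set (E 2)) (f : E 2 → ℝ) (hf : ∀ x ∈ U, 0 ≤ f x)
    (hc : ∀ s : ℝ, 0 < s → Convex ℝ {x | x ∈ U ∧ s < f x}) :
    TameFun 1 U fun x => (f x : ℂ) := by
  intro θ hθ s hs
  have hempty : ∀ A : Set (E 2), A = ∅ → Tame 1 A := by
    rintro A rfl
    exact tame_convex convex_empty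
  rcases hθ with h | h | h | h
  · have e : {x | x ∈ U ∧ s < (θ * (f x : ℂ)).re} = {x | x ∈ U ∧ s < f x} := by
      ext x
      simp [h]
    rw [e]
    exact tame_convex (hc s hs)
  · refine hempty _ ?_
    ext x
    simp only [mem_ofPred_eq, mem_empty_iff_false, iff_false, not_and, not_lt, h]
    intro hx
    have := hf x hx
    simp
    linarith
  · refine hempty _ ?_
    ext x
    simp only [mem_ofPred_eq, mem_empty_iff_false, iff_false, not_and, not_lt, h]
    intro hx
    simp
    exact hs.le
  · refine hempty _ ?_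
    ext x
    simp only [mem_ofPred_eq, mem_empty_iff_false, iff_false, not_and, not_lt, h]
    intro hx
    simp
    exact hs.le

end Pool.Agent.Helper134_FE
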