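import Mathlib
import Pool.Agent.Helper134_FE.Rat
set_option autoImplicit false

/-! The endpoint. -/

namespace Pool.Agent.Helper134_FE

open MeasureTheory Set Filter Topology Complex Metric
open scoped ENNReal NNReal RealInnerProductSpace

theorem inv_int (K a b : ℝ) (hK : 0 ≤ K) (ha : 0 < a) (hab : a ≤ b) :
    ∫⁻ τ in Ioc a b, ENNReal.ofReal (K / τ) = ENNReal.ofReal (K * Real.log (b / a)) := by
  have hb : 0 < b := ha.trans_le hab
  have hi : IntegrableOn (fun τ : ℝ => K / τ) (Ioc a b) := by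
    have h1 : ContinuousOn (fun τ : ℝ => K / τ) (Icc a b) := by
      refine continuousOn_const.div continuousOn_id fun x hx => ?_
      exact (ha.trans_le hx.1).ne'
    exact (h1.integrableOn_Icc).mono_set Ioc_subset_Icc_self
  rw [← ofReal_integral_eq_lintegral_ofReal hi]
  · rw [← intervalIntegral.integral_of_le hab]
    congr 1
    simp_rw [div_eq_mul_inv K]
    rw [intervalIntegral.integral_const_mul, integral_inv_of_pos ha hb]
  · refine (ae_restrict_mem measurableSet_Ioc).mono fun τ hτ => ?_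
    have : 0 < τ := ha.trans hτ.1
    simp only [Pi.zero_apply]
    positivity

theorem tau_end (K a R : ℝ) (hK : 0 ≤ K) (ha : 0 < a) :
    ∫⁻ τ in {τ : ℝ | |τ| ∈ Iic R}, M K (ENNReal.ofReal a) τ ≤
      ENNReal.ofReal (2 * (1 + K * max 0 (Real.log (R * a)))) := by
  set F : ℝ → ℝ≥0∞ := fun τ => min (ENNReal.ofReal (K / τ)) (ENNReal.ofReal a) with hF
  have h0 : ∫⁻ τ in {τ : ℝ | |τ| ∈ Iic R}, M K (ENNReal.ofReal a) τ =
      ∫⁻ τ in {τ : ℝ | |τ| ∈ Iic R}, F |τ| := rfl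
  rw [h0]
  refine (lint_abs F (Iic R) measurableSet_Iic).trans ?_
  have hsub : Iic R ∩ Ioi (0:ℝ) ⊆ Ioc 0 (1 / a) ∪ Ioc (1 / a) R := by
    rintro τ ⟨h1, h2⟩
    rcases le_or_gt τ (1 / a) with h | h
    · exact Or.inl ⟨h2, h⟩
    · exact Or.inr ⟨h, h1⟩
  have h1 : ∫⁻ τ in Iic R ∩ Ioi 0, F τ ≤ ENNReal.ofReal 1 +
      ENNReal.ofReal (K * max 0 (Real.log (R * a))) := by
    refine (lintegral_mono_set hsub).trans ?_
    refine (lintegral_union_le _ _ _).trans (add_le_add ?_ ?_)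
    · have : ∫⁻ τ in Ioc 0 (1 / a), F τ ≤ ∫⁻ τ in Ioc 0 (1 / a), ENNReal.ofReal a := by
        refine lintegral_mono fun τ => ?_
        exact min_le_right _ _
      refine this.trans (le_of_eq ?_)
      rw [setLIntegral_const, Real.volume_Ioc, sub_zero, ← ENNReal.ofReal_mul ha.le,
        mul_one_div_cancel ha.ne']
    · rcases le_or_gt R (1 / a) with h | h
      · rw [Ioc_eq_empty (not_lt.2 h)]
        simp
      · have : ∫⁻ τ in Ioc (1 / a) R, F τ ≤ ∫⁻ τ in Ioc (1 / a) R, ENNReal.ofReal (K / τ) := by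
          refine lintegral_mono fun τ => ?_
          exact min_le_left _ _
        refine this.trans ?_
        rw [inv_int K (1 / a) R hK (by positivity) h.le]
        refine ENNReal.ofReal_le_ofReal (mul_le_mul_of_nonneg_left ?_ hK)
        rw [div_div_eq_mul_div, div_one]
        exact le_max_right _ _
  refine (mul_le_mul_right h1 2).trans (le_of_eq ?_)
  have h2 : (2 : ℝ≥0∞) = ENNReal.ofReal 2 := by simp
  rw [← ENNReal.ofReal_add (by norm_num) (by positivity), h2, ← ENNReal.ofReal_mul (by norm_num)]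

theorem mainC (N : ℕ) :
    ∃ C : ℝ≥0, ∀ (A : Set (E 2)) (R : ℝ), MeasurableSet A → Tame N A → volume A ≠ ∞ →
      ∫⁻ ξ in {ξ : E 3 | |ξ 2| ≤ R}, ‖ext A (fun _ => 1) ξ‖ₑ ^ 3 ≤
        C * volume A * ENNReal.ofReal (1 + max 0 (Real.log (R * volume.real A))) := by
  refine ⟨(ENNReal.ofReal ((2 * Real.pi) ^ 2 * (2 * (1 + 2 * Real.pi * N)))).toNNReal, ?_⟩
  intro A R hA hT hv
  rw [ENNReal.coe_toNNReal ENNReal.ofReal_ne_top]
  have e0 : (A.indicator fun _ => (1:ℂ)) = A.indicator 1 := rfl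
  have hSm : MeasurableSet {τ : ℝ | |τ| ∈ Iic R} := by
    have : Measurable fun w : ℝ => |w| := by fun_prop
    exact this measurableSet_Iic
  have h1 : ∫⁻ ξ in {ξ : E 3 | |ξ 2| ≤ R}, ‖ext A (fun _ => 1) ξ‖ₑ ^ 3 =
      ∫⁻ z in (univ : Set (E 2)) ×ˢ {τ : ℝ | |τ| ∈ Iic R}, ‖X (A.indicator 1) z‖ₑ ^ 3 := by
    have h2 : {ξ : E 3 | |ξ 2| ≤ R} = S3 ⁻¹' ((univ : Set (E 2)) ×ˢ {τ : ℝ | |τ| ∈ Iic R}) := by
      ext ξ
      simp only [mem_ofPred_eq, mem_preimage, mem_prod, mem_univ, true_and, S3_snd, mem_Iic]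
    rw [h2, ← S3_mp.setLIntegral_comp_preimage_emb S3.measurableEmbedding]
    refine lintegral_congr fun ξ => ?_
    rw [ext_eq A hA, e0]
  rw [h1]
  by_cases h0 : volume A = 0
  · have : ∀ z, ‖X (A.indicator 1) z‖ₑ ^ 3 = 0 := by
      intro z
      have := X_ind_le_vol A z hA
      rw [h0] at this
      rw [le_antisymm this zero_le]
      simp
    simp_rw [this]
    simp
  obtain ⟨a, ha0, ha⟩ : ∃ a : ℝ, 0 < a ∧ volume A = ENNReal.ofReal a :=
    ⟨(volume A).toReal, ENNReal.toReal_pos h0 hv, (ENNReal.ofReal_toReal hv).symm⟩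
  have har : volume.real A = a := by
    rw [measureReal_def, ha, ENNReal.toReal_ofReal ha0.le]
  have hm : Measurable fun z : E 2 × ℝ => ‖X (A.indicator 1) z‖ₑ ^ 3 :=
    ((X_cont _ (ind_int A hA hv)).enorm.measurable).pow_const 3
  have hvol : (volume : Measure (E 2 × ℝ)) = (volume : Measure (E 2)).prod volume := rfl
  rw [hvol, ← Measure.prod_restrict, Measure.restrict_univ, lintegral_prod_symm _ hm.aemeasurable]
  have h2 : ∫⁻ τ in {τ : ℝ | |τ| ∈ Iic R}, ∫⁻ η : E 2, ‖X (A.indicator 1) (η, τ)‖ₑ ^ 3 ≤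
      ∫⁻ τ in {τ : ℝ | |τ| ∈ Iic R}, M (2 * Real.pi * N) (volume A) τ *
        (ENNReal.ofReal ((2 * Real.pi) ^ 2) * volume A) := by
    refine lintegral_mono_ae (ae_restrict_of_ae ?_)
    have : ∀ᵐ τ : ℝ, τ ≠ 0 := by
      rw [ae_iff]
      simp
    filter_upwards [this] with τ hτ
    have h3 := slice N A hA hT hv 3 (by norm_num) τ hτ
    have e3 : ∀ x : ℝ≥0∞, x ^ (3:ℝ) = x ^ 3 := fun x => by
      rw [← ENNReal.rpow_natCast]; norm_num
    simp_rw [e3] at h3
    rw [show (3:ℝ) - 2 = 1 by norm_num, ENNReal.rpow_one] at h3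
    exact h3
  refine h2.trans ?_
  rw [lintegral_mul_const _ (M_meas _ _), ha, har]
  refine (mul_le_mul_left (tau_end (2 * Real.pi * N) a R (by positivity) ha0) _).trans ?_
  rw [← ENNReal.ofReal_mul (by positivity), ← ENNReal.ofReal_mul (by positivity),
    ← ENNReal.ofReal_mul (by positivity), ← ENNReal.ofReal_mul (by positivity)]
  refine ENNReal.ofReal_le_ofReal ?_
  set l := max 0 (Real.log (R * a)) with hl
  have hl0 : 0 ≤ l := le_max_left _ _
  have hpi : 0 ≤ 2 * Real.pi * N := by positivity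
  have hx : 1 + 2 * Real.pi * N * l ≤ (1 + 2 * Real.pi * N) * (1 + l) := by nlinarith
  calc 2 * (1 + 2 * Real.pi * N * l) * ((2 * Real.pi) ^ 2 * a)
      ≤ 2 * ((1 + 2 * Real.pi * N) * (1 + l)) * ((2 * Real.pi) ^ 2 * a) := by gcongr
    _ = _ := by ring

end Pool.Agent.Helper134_FE
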