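import Mathlib
import Pool.Agent.Helper134_FE.MainC
import Pool.Agent.TH297.QC.Interp
set_option autoImplicit false

/-! The strong type estimate on the scaling line and the weak type endpoint. -/

namespace Pool.Agent.Helper134_FE

open MeasureTheory Set Filter Topology Complex Metric
open scoped ENNReal NNReal RealInnerProductSpace

theorem swap_meas {α β : Type*} [MeasurableSpace α] [MeasurableSpace β] (F : α → β → ℝ≥0∞)
    (hF : Measurable (Function.uncurry F)) :
    Measurable (Function.uncurry fun (s : β) (z : α) => F z s) :=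
  hF.comp measurable_swap

theorem XA_meas' (f : E 2 → ℝ) (hf : Measurable f) :
    Measurable (Function.uncurry fun (s : ℝ) (z : E 2 × ℝ) =>
      ‖X ({x | s < f x}.indicator 1) z‖ₑ) :=
  swap_meas (fun (z : E 2 × ℝ) (s : ℝ) => ‖X ({x | s < f x}.indicator 1) z‖ₑ) (XA_meas f hf)

/-- normalised form -/
theorem scal_norm (q : ℝ) (hq : 3 < q) (N : ℕ) :
    ∃ C : ℝ≥0∞, C ≠ ∞ ∧ ∀ g : E 2 → ℝ, Measurable g → (∀ s : ℝ, 0 < s → Tame N {x | s < g x}) →
      Integrable (fun x => max (g x) 0) →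
      ∫⁻ x, ENNReal.ofReal (max (g x) 0 ^ (q / (q - 2))) ≤ 1 →
      ∫⁻ z, ‖X (fun x => ((max (g x) 0 : ℝ) : ℂ)) z‖ₑ ^ q ≤ C := by
  have hq2 : 0 < q - 2 := by linarith
  set p : ℝ := q / (q - 2) with hp
  have hp1 : 1 ≤ p := by
    rw [hp, le_div_iff₀ hq2]
    linarith
  have hp0 : 0 < p := by linarith
  set q0 : ℝ := (3 + q) / 2 with hq0
  obtain ⟨C, hC, H⟩ := Pool.Agent.TH297.QC.interp (gam := 2) (q := q) (q0 := q0) (q1 := 2 * q)
    (by norm_num) (by linarith) (by linarith) (by linarith) (by linarith)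
  refine ⟨C * (ENNReal.ofReal (Cq q0 N) + ENNReal.ofReal (Cq (2 * q) N)),
    ENNReal.mul_ne_top hC (ENNReal.add_ne_top.2 ⟨ENNReal.ofReal_ne_top, ENNReal.ofReal_ne_top⟩),
    ?_⟩
  intro g hgm hT hI hgp
  have hlt : ∀ s : ℝ, 0 < s → {x | s < g x} = {x | s < max (g x) 0} := by
    intro s hs
    ext x
    simp only [mem_ofPred_eq, lt_max_iff]
    constructor
    · intro h; exact Or.inl h
    · rintro (h | h)
      · exact h
      · exact absurd h (not_lt.2 hs.le)
  have hmm : Measurable fun x => max (g x) 0 := hgm.max measurable_const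
  have hv1 : ∀ s, 0 < s → ENNReal.ofReal (s ^ p) * volume {x | s < g x} ≤ 1 := by
    intro s hs
    rw [hlt s hs]
    have h1 := mul_meas_ge_le_lintegral (μ := (volume : Measure (E 2)))
      (f := fun x => ENNReal.ofReal (max (g x) 0 ^ p)) ((hmm.pow_const p).ennreal_ofReal)
      (ENNReal.ofReal (s ^ p))
    refine (le_trans (mul_le_mul_right (measure_mono ?_) _) h1).trans hgp
    intro x hx
    have h2 : s < max (g x) 0 := hx
    exact ENNReal.ofReal_le_ofReal (Real.rpow_le_rpow hs.le h2.le hp0.le)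
  have hv2 : ∫⁻ s in Ioi 0, ENNReal.ofReal (s ^ (p - 1)) * volume {x | s < g x} ≤ 1 := by
    have h1 := lintegral_rpow_eq_lintegral_meas_lt_mul (μ := (volume : Measure (E 2)))
      (f := fun x => max (g x) 0) (Eventually.of_forall fun x => le_max_right _ _)
      hmm.aemeasurable hp0
    rw [h1] at hgp
    have h2 : (1 : ℝ≥0∞) ≤ ENNReal.ofReal p := by
      rw [← ENNReal.ofReal_one]
      exact ENNReal.ofReal_le_ofReal hp1
    refine le_trans ?_ hgp
    refine le_trans ?_ (le_mul_of_one_le_left zero_le h2)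
    refine setLIntegral_mono' measurableSet_Ioi fun s hs => ?_
    rw [mul_comm, hlt s hs]
  have hfin : ∀ s, 0 < s → volume {x | s < g x} ≠ ∞ := fun s hs => vol_fin g hI s hs
  have hstr : ∀ r : ℝ, 3 < r → ∀ s, 0 < s →
      ∫⁻ z : E 2 × ℝ, ‖X ({x | s < g x}.indicator 1) z‖ₑ ^ r ≤
        ENNReal.ofReal (Cq r N) * volume {x | s < g x} ^ (r - 2) := by
    intro r hr s hs
    exact set_bound r hr N _ (measurableSet_lt measurable_const hgm) (hT s hs) (hfin s hs)
  have hmain := H (Z := E 2 × ℝ) (nu := volume)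
    (u := fun s z => ‖X ({x | s < g x}.indicator 1) z‖ₑ) (XA_meas' g hgm)
    (v := fun s => volume {x | s < g x}) ENNReal.ofReal_ne_top ENNReal.ofReal_ne_top
    (hstr q0 (by linarith)) (hstr (2 * q) (by linarith)) hv1 hv2
  refine le_trans (lintegral_mono fun z => ?_) hmain
  exact ENNReal.rpow_le_rpow (X_layer g hgm hI z) (by linarith)

/-- the positive part -/
theorem scal_pos (q : ℝ) (hq : 3 < q) (N : ℕ) :
    ∃ C : ℝ≥0∞, C ≠ ∞ ∧ ∀ (h : E 2 → ℝ) (Λ : ℝ≥0∞), Measurable h →
      (∀ s : ℝ, 0 < s → Tame N {x | s < h x}) →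
      ∫⁻ x, ENNReal.ofReal (max (h x) 0 ^ (q / (q - 2))) ≤ Λ ^ (q / (q - 2)) →
      eLpNorm (X fun x => ((max (h x) 0 : ℝ) : ℂ)) (ENNReal.ofReal q) volume ≤ C * Λ := by
  have hq0 : 0 < q := by linarith
  have hq2 : 0 < q - 2 := by linarith
  set p : ℝ := q / (q - 2) with hp
  have hp0 : 0 < p := by positivity
  obtain ⟨C, hC, H⟩ := scal_norm q hq N
  refine ⟨C ^ (1 / q) + 1, ENNReal.add_ne_top.2
    ⟨ENNReal.rpow_ne_top_of_nonneg (by positivity) hC, ENNReal.one_ne_top⟩, ?_⟩
  intro h Λ hh hT hΛ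
  have hmm : Measurable fun x => max (h x) 0 := hh.max measurable_const
  by_cases hI : Integrable fun x => max (h x) 0
  swap
  · have h0 : (X fun x => ((max (h x) 0 : ℝ) : ℂ)) = 0 := by
      ext z
      refine X_undef _ (fun h' => hI ?_) (Complex.measurable_ofReal.comp hmm).aestronglyMeasurable z
      exact h'.re
    rw [h0, eLpNorm_zero]
    exact zero_le
  by_cases hΛt : Λ = ∞
  · rw [hΛt, ENNReal.mul_top (by simp)]
    exact le_top
  by_cases hΛ0 : Λ = 0
  · have h0 : ∀ z, X (fun x => ((max (h x) 0 : ℝ) : ℂ)) z = 0 := by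
      intro z
      rw [hΛ0, ENNReal.zero_rpow_of_pos hp0] at hΛ
      have h1 : ∫⁻ x, ENNReal.ofReal (max (h x) 0 ^ p) = 0 := le_antisymm hΛ zero_le
      rw [lintegral_eq_zero_iff ((hmm.pow_const p).ennreal_ofReal)] at h1
      unfold X
      rw [← integral_zero (E 2) ℂ]
      refine integral_congr_ae ?_
      filter_upwards [h1] with x hx
      simp only [Pi.zero_apply, ENNReal.ofReal_eq_zero] at hx
      have h2 : max (h x) 0 = 0 := by
        by_contra hne
        have h3 : 0 < max (h x) 0 := lt_of_le_of_ne (le_max_right _ _) (Ne.symm hne)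
        have := Real.rpow_pos_of_pos h3 p
        linarith
      rw [h2]
      simp
    have h1 : (X fun x => ((max (h x) 0 : ℝ) : ℂ)) = 0 := by
      ext z
      exact h0 z
    rw [h1, eLpNorm_zero]
    exact zero_le
  obtain ⟨l, hl0, hl⟩ : ∃ l : ℝ, 0 < l ∧ Λ = ENNReal.ofReal l :=
    ⟨Λ.toReal, ENNReal.toReal_pos hΛ0 hΛt, (ENNReal.ofReal_toReal hΛt).symm⟩
  set g : E 2 → ℝ := fun x => h x / l with hg
  have hgm : Measurable g := hh.div_const l
  have hgmax : ∀ x, max (g x) 0 = max (h x) 0 / l := by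
    intro x
    have h9 := max_div_div_right hl0.le (h x) 0
    rw [zero_div] at h9
    exact h9
  have hgT : ∀ s : ℝ, 0 < s → Tame N {x | s < g x} := by
    intro s hs
    have e : {x | s < g x} = {x | s * l < h x} := by
      ext x
      simp only [mem_ofPred_eq, hg, lt_div_iff₀ hl0]
    rw [e]
    exact hT (s * l) (by positivity)
  have hgI : Integrable fun x => max (g x) 0 := by
    simp_rw [hgmax]
    exact hI.div_const l
  have hgp : ∫⁻ x, ENNReal.ofReal (max (g x) 0 ^ p) ≤ 1 := by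
    have e : ∀ x, ENNReal.ofReal (max (g x) 0 ^ p) =
        ENNReal.ofReal (max (h x) 0 ^ p) * ENNReal.ofReal (l ^ (-p)) := by
      intro x
      rw [hgmax, Real.div_rpow (le_max_right _ _) hl0.le, div_eq_mul_inv,
        ← Real.rpow_neg hl0.le, ENNReal.ofReal_mul (by positivity)]
    simp_rw [e]
    rw [lintegral_mul_const' _ _ ENNReal.ofReal_ne_top]
    refine (mul_le_mul_left hΛ _).trans (le_of_eq ?_)
    rw [hl, ENNReal.ofReal_rpow_of_nonneg hl0.le hp0.le, ← ENNReal.ofReal_mul (by positivity),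
      ← Real.rpow_add hl0, add_neg_cancel, Real.rpow_zero, ENNReal.ofReal_one]
  have h1 := H g hgm hgT hgI hgp
  have h2 : (X fun x => ((max (h x) 0 : ℝ) : ℂ)) =
      fun z => (l : ℂ) * X (fun x => ((max (g x) 0 : ℝ) : ℂ)) z := by
    ext z
    rw [← X_smul]
    congr 1
    ext x
    rw [hgmax]
    push_cast
    have : (l : ℂ) ≠ 0 := by exact_mod_cast hl0.ne'
    field_simp
  rw [h2]
  have h3 : eLpNorm (fun z => (l : ℂ) * X (fun x => ((max (g x) 0 : ℝ) : ℂ)) z)
      (ENNReal.ofReal q) volume =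
      ENNReal.ofReal l * eLpNorm (X fun x => ((max (g x) 0 : ℝ) : ℂ)) (ENNReal.ofReal q)
        volume := by
    have := eLpNorm_const_smul (l : ℂ) (X fun x => ((max (g x) 0 : ℝ) : ℂ)) (ENNReal.ofReal q)
      (volume : Measure (E 2 × ℝ))
    have e : ‖(l : ℂ)‖ₑ = ENNReal.ofReal l := by
      rw [← ofReal_norm, Complex.norm_real, Real.norm_eq_abs, abs_of_pos hl0]
    rw [e] at this
    exact this
  rw [h3, eL _ q hq0, hl, mul_comm]
  refine mul_le_mul_left ?_ _
  refine le_trans ?_ (le_add_right le_rfl)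
  exact ENNReal.rpow_le_rpow h1 (by positivity)

theorem mainS (q : ℝ) (hq : 3 < q) (N : ℕ) :
    ∃ C : ℝ≥0, ∀ (U : Set (E 2)) (f : E 2 → ℂ), MeasurableSet U → Measurable f →
      TameFun N U f →
      eLpNorm (ext U f) (ENNReal.ofReal q) volume ≤
        C * eLpNorm f (ENNReal.ofReal (q / (q - 2))) (volume.restrict U) := by
  have hq0 : 0 < q := by linarith
  have hq2 : 0 < q - 2 := by linarith
  set p : ℝ := q / (q - 2) with hp
  have hp0 : 0 < p := by positivity
  obtain ⟨C, hC, H⟩ := scal_pos q hq N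
  refine ⟨(4 * C).toNNReal, ?_⟩
  intro U f hU hf hT
  rw [ENNReal.coe_toNNReal (ENNReal.mul_ne_top (by norm_num) hC), ext_norm U hU, mul_assoc]
  have e1 : U.indicator f = fun x => (fun _ : E 2 => (1:ℂ)) x * U.indicator f x := by
    ext x
    rw [one_mul]
  rw [e1]
  refine four_bound (fun _ => 1) continuous_const (fun _ => norm_one) (U.indicator f)
    (hf.indicator hU) q (by linarith) _ ?_
  intro θ hθ
  simp only [one_mul]
  refine H (fun x => (θ * U.indicator f x).re) _ (re_meas U hU f hf θ)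
    (fun s hs => by rw [level_eq U f θ s hs]; exact hT θ hθ s hs) ?_
  rw [eLpNorm_eq_lintegral_rpow_enorm_toReal (by simpa using hp0) ENNReal.ofReal_ne_top,
    ENNReal.toReal_ofReal hp0.le, ← ENNReal.rpow_mul, one_div_mul_cancel hp0.ne',
    ENNReal.rpow_one, ← lintegral_indicator hU]
  refine lintegral_mono fun x => ?_
  by_cases hx : x ∈ U
  · rw [indicator_of_mem hx, indicator_of_mem hx]
    rw [← ofReal_norm, ENNReal.ofReal_rpow_of_nonneg (norm_nonneg _) hp0.le]
    refine ENNReal.ofReal_le_ofReal (Real.rpow_le_rpow (le_max_right _ _) ?_ hp0.le)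
    refine max_le ?_ (norm_nonneg _)
    refine (Complex.re_le_norm _).trans ?_
    rw [norm_mul]
    have : ‖θ‖ = 1 := by rcases hθ with h | h | h | h <;> simp [h]
    rw [this, one_mul]
  · rw [indicator_of_notMem hx, indicator_of_notMem hx, mul_zero, Complex.zero_re, max_self,
      Real.zero_rpow hp0.ne', ENNReal.ofReal_zero]

/-- the weak type endpoint -/
theorem mainW (N : ℕ) :
    ∃ C : ℝ≥0, ∀ (A : Set (E 2)) (l : ℝ), MeasurableSet A → Tame N A → volume A ≠ ∞ → 0 < l →
      ENNReal.ofReal (l ^ 3) * volume {ξ : E 3 | l < ‖ext A (fun _ => 1) ξ‖} ≤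
        C * volume A := by
  set K : ℝ := 2 * Real.pi * N with hK
  have hK0 : 0 ≤ K := by positivity
  refine ⟨(ENNReal.ofReal ((2 * Real.pi) ^ 2 * (2 * K))).toNNReal, ?_⟩
  intro A l hA hT hv hl
  rw [ENNReal.coe_toNNReal ENNReal.ofReal_ne_top]
  have e0 : (A.indicator fun _ => (1:ℂ)) = A.indicator 1 := rfl
  have hXc : Continuous (X (A.indicator 1)) := X_cont _ (ind_int A hA hv)
  set S : Set (E 2 × ℝ) := {z | l < ‖X (A.indicator 1) z‖} with hS
  have hSm : MeasurableSet S := measurableSet_lt measurable_const hXc.norm.measurable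
  have h1 : volume {ξ : E 3 | l < ‖ext A (fun _ => 1) ξ‖} = volume S := by
    have h2 : {ξ : E 3 | l < ‖ext A (fun _ => 1) ξ‖} = S3 ⁻¹' S := by
      ext ξ
      simp only [mem_ofPred_eq, mem_preimage, hS, ext_eq A hA, e0]
    rw [h2, S3_mp.measure_preimage hSm.nullMeasurableSet]
  rw [h1]
  have hvol : (volume : Measure (E 2 × ℝ)) = (volume : Measure (E 2)).prod volume := rfl
  rw [hvol, Measure.prod_apply_symm hSm]
  have hsl : ∀ τ : ℝ, τ ≠ 0 → volume ((fun η : E 2 => (η, τ)) ⁻¹' S) ≤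
      (Icc (-(K / l)) (K / l)).indicator (fun _ => ENNReal.ofReal (l ^ (2:ℕ))⁻¹ *
        (ENNReal.ofReal ((2 * Real.pi) ^ 2) * volume A)) τ := by
    intro τ hτ
    by_cases hτI : τ ∈ Icc (-(K / l)) (K / l)
    · rw [indicator_of_mem hτI]
      have h3 := mul_meas_ge_le_lintegral (μ := (volume : Measure (E 2)))
        (f := fun η => ‖X (A.indicator 1) (η, τ)‖ₑ ^ 2)
        (((hXc.comp (continuous_id.prodMk continuous_const)).enorm.measurable).pow_const 2)
        (ENNReal.ofReal (l ^ 2))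
      have h4 : (fun η : E 2 => (η, τ)) ⁻¹' S ⊆
          {η | ENNReal.ofReal (l ^ 2) ≤ ‖X (A.indicator 1) (η, τ)‖ₑ ^ 2} := by
        intro η hη
        have h5 : l < ‖X (A.indicator 1) (η, τ)‖ := hη
        show ENNReal.ofReal (l ^ 2) ≤ ‖X (A.indicator 1) (η, τ)‖ₑ ^ 2
        rw [← ofReal_norm, ← ENNReal.ofReal_pow (norm_nonneg _)]
        exact ENNReal.ofReal_le_ofReal (by gcongr)
      have h6 : ∫⁻ η : E 2, ‖X (A.indicator 1) (η, τ)‖ₑ ^ 2 ≤
          ENNReal.ofReal ((2 * Real.pi) ^ 2) * volume A := by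
        refine (X_planch _ (ind_int A hA hv) τ).trans ?_
        gcongr
        rw [← lintegral_indicator_one hA]
        refine lintegral_mono fun x => ?_
        by_cases hx : x ∈ A
        · rw [indicator_of_mem hx, indicator_of_mem hx]
          simp
        · rw [indicator_of_notMem hx, indicator_of_notMem hx]
          simp
      have h7 := ((mul_le_mul_right (measure_mono h4) (ENNReal.ofReal (l ^ 2))).trans h3).trans h6
      have hl2 : ENNReal.ofReal (l ^ 2)⁻¹ * ENNReal.ofReal (l ^ 2) = 1 := by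
        rw [← ENNReal.ofReal_mul (by positivity), inv_mul_cancel₀ (by positivity),
          ENNReal.ofReal_one]
      calc volume ((fun η : E 2 => (η, τ)) ⁻¹' S)
          = ENNReal.ofReal (l ^ 2)⁻¹ * (ENNReal.ofReal (l ^ 2) *
            volume ((fun η : E 2 => (η, τ)) ⁻¹' S)) := by rw [← mul_assoc, hl2, one_mul]
        _ ≤ _ := by gcongr
    · rw [indicator_of_notMem hτI]
      have h3 : (fun η : E 2 => (η, τ)) ⁻¹' S = ∅ := by
        ext η
        simp only [mem_preimage, mem_empty_iff_false, iff_false]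
        intro hη
        have h5 : l < ‖X (A.indicator 1) (η, τ)‖ := hη
        have h6 := X_disp N A hA hT (η, τ) hτ
        simp only at h6
        have hτ0 : 0 < |τ| := abs_pos.2 hτ
        have h7 : l < K / |τ| := h5.trans_le h6
        rw [lt_div_iff₀ hτ0] at h7
        apply hτI
        rw [Set.mem_Icc, ← abs_le, le_div_iff₀ hl]
        linarith
      rw [h3, measure_empty]
  have hae : ∀ᵐ τ : ℝ, τ ≠ 0 := by
    rw [ae_iff]
    simp
  have h8 : ∫⁻ τ : ℝ, volume ((fun η : E 2 => (η, τ)) ⁻¹' S) ≤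
      ENNReal.ofReal (l ^ 2)⁻¹ * (ENNReal.ofReal ((2 * Real.pi) ^ 2) * volume A) *
        ENNReal.ofReal (2 * (K / l)) := by
    refine (lintegral_mono_ae (hae.mono fun τ hτ => hsl τ hτ)).trans ?_
    rw [lintegral_indicator measurableSet_Icc, setLIntegral_const, Real.volume_Icc]
    apply le_of_eq
    congr 2
    ring
  refine (mul_le_mul_right h8 _).trans (le_of_eq ?_)
  have h9 : ENNReal.ofReal (l ^ 3) * (ENNReal.ofReal (l ^ 2)⁻¹ *
      (ENNReal.ofReal ((2 * Real.pi) ^ 2) * volume A) * ENNReal.ofReal (2 * (K / l))) =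
      (ENNReal.ofReal (l ^ 3) * ENNReal.ofReal (l ^ 2)⁻¹ * ENNReal.ofReal ((2 * Real.pi) ^ 2) *
        ENNReal.ofReal (2 * (K / l))) * volume A := by ring
  rw [h9, ← ENNReal.ofReal_mul (by positivity), ← ENNReal.ofReal_mul (by positivity),
    ← ENNReal.ofReal_mul (by positivity)]
  congr 2
  field_simp

end Pool.Agent.Helper134_FE
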